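import Mathlib
import Pool.Agent.Work.MP_37fea8_co.Defs

/-!
# AU/Bas (S-M)

Elementary facts on the neighbourhoods `nb c i x`.

PROOFS.  `mem_nb`: `Finset.mem_filter`.  `nb_card`: `Moore.deg`.  `nb_symm`: `Moore.symm`.
`no_tri`: `y, z` neighbours of `x` and `z` a neighbour of `y` (all in the colour `i`): `Moore.tri` for `x, y, z`.
`com_eq`: if `c x y = i` then `x, y, z` is a triangle (`tri`), otherwise uniqueness in `Moore.com`.
`com_ex`: existence in `Moore.com`.  `inter_nb`: from `com_eq`, `com_ex`, `no_tri`.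
`sum_nb`: `F \ {x}` is the disjoint union over `i` of `F ∩ nb c i x` (`Finset.card_eq_sum_card_fiberwise` for `y ↦ c x y`).
-/

set_option autoImplicit false

namespace Pool.Agent.Work.MP_37fea8_co

variable {V : Type} [Fintype V] [DecidableEq V] {c : V → V → Fin 7}

theorem mem_nb {i : Fin 7} {x y : V} : y ∈ nb c i x ↔ y ≠ x ∧ c x y = i := by
  unfold nb
  rw [Finset.mem_filter]
  exact ⟨fun h => h.2, fun h => ⟨Finset.mem_univ _, h⟩⟩

theorem nb_card (hc : Moore c) (i : Fin 7) (x : V) : (nb c i x).card = 7 := by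
  exact hc.deg i x

theorem nb_symm (hc : Moore c) {i : Fin 7} {x y : V} : y ∈ nb c i x ↔ x ∈ nb c i y := by
  rw [mem_nb, mem_nb, hc.symm x y]
  exact ⟨fun h => ⟨h.1.symm, h.2⟩, fun h => ⟨h.1.symm, h.2⟩⟩

theorem no_tri (hc : Moore c) {i : Fin 7} {x y z : V} (hy : y ∈ nb c i x) (hz : z ∈ nb c i x) :
    z ∉ nb c i y := by
  rw [mem_nb] at hy hz ⊢
  rintro ⟨h1, h2⟩
  exact hc.tri x y z hy.1.symm h1.symm hz.1.symm (hy.2.trans h2.symm) (hy.2.trans hz.2.symm)

theorem com_eq (hc : Moore c) {i : Fin 7} {x y z w : V} (hxy : x ≠ y) (hz : z ∈ nb c i x)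
    (hz' : z ∈ nb c i y) (hw : w ∈ nb c i x) (hw' : w ∈ nb c i y) : z = w := by
  by_cases h : c x y = i
  · exact absurd hz' (no_tri hc (mem_nb.2 ⟨hxy.symm, h⟩) hz)
  · rw [mem_nb] at hz hz' hw hw'
    exact (hc.com i x y hxy h).unique ⟨hz.1, hz'.1, hz.2, hz'.2⟩ ⟨hw.1, hw'.1, hw.2, hw'.2⟩

theorem com_ex (hc : Moore c) {i : Fin 7} {x y : V} (hxy : x ≠ y) (h : y ∉ nb c i x) :
    ∃ z, z ∈ nb c i x ∧ z ∈ nb c i y := by
  have h1 : c x y ≠ i := fun h2 => h (mem_nb.2 ⟨hxy.symm, h2⟩)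
  obtain ⟨z, ⟨h2, h3, h4, h5⟩, -⟩ := hc.com i x y hxy h1
  exact ⟨z, mem_nb.2 ⟨h2, h4⟩, mem_nb.2 ⟨h3, h5⟩⟩

theorem inter_nb (hc : Moore c) (i : Fin 7) {x y : V} (hxy : x ≠ y) :
    (nb c i x ∩ nb c i y).card = if c x y = i then 0 else 1 := by
  split_ifs with h
  · rw [Finset.card_eq_zero, Finset.eq_empty_iff_forall_notMem]
    intro z hz
    rw [Finset.mem_inter] at hz
    exact no_tri hc (mem_nb.2 ⟨hxy.symm, h⟩) hz.1 hz.2
  · rw [Finset.card_eq_one]
    obtain ⟨z, hz, hz'⟩ := com_ex hc hxy (fun h2 => h (mem_nb.1 h2).2)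
    refine ⟨z, ?_⟩
    ext w
    rw [Finset.mem_inter, Finset.mem_singleton]
    constructor
    · rintro ⟨hw, hw'⟩
      exact com_eq hc hxy hw hw' hz hz'
    · rintro rfl
      exact ⟨hz, hz'⟩

theorem sum_nb (c : V → V → Fin 7) (F : Finset V) {x : V} (hx : x ∈ F) :
    ∑ i, (F ∩ nb c i x).card + 1 = F.card := by
  have h1 := Finset.card_eq_sum_card_fiberwise (f := fun y => c x y) (s := F.erase x)
    (t := Finset.univ) (fun y _ => Finset.mem_coe.2 (Finset.mem_univ _))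
  have h2 : ∀ i, (F ∩ nb c i x) = (F.erase x).filter fun y => c x y = i := by
    intro i
    ext y
    rw [Finset.mem_inter, mem_nb, Finset.mem_filter, Finset.mem_erase]
    tauto
  simp only [h2]
  rw [← h1]
  exact Finset.card_erase_add_one hx

end Pool.Agent.Work.MP_37fea8_co
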