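import Mathlib
import Pool.Agent.Work.MP_37fea8_co.Defs

/-!
# AU/Mod (S-M)

Fixed points of a permutation of prime order modulo the prime.

PROOF.  `fx_mod`: the restriction of `g` to `S` is a permutation `g'` of the subtype (injective self-map of a finite set, or
`Equiv.Perm.subtypePerm`), `g' ^ p = 1`, and Mathlib: `Equiv.Perm.card_fixedPoints_modEq` (with `n = 1`, `Fact p.Prime`).
`fx_univ`: `S = univ`.
-/

set_option autoImplicit false

namespace Pool.Agent.Work.MP_37fea8_co

private theorem mfx {α : Type} [Fintype α] [DecidableEq α] {g : Equiv.Perm α} {x : α} :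
    x ∈ fx g ↔ g x = x := by
  unfold fx
  rw [Finset.mem_filter]
  exact and_iff_right (Finset.mem_univ _)

theorem fx_mod {α : Type} [Fintype α] [DecidableEq α] {p : ℕ} (hp : p.Prime) {g : Equiv.Perm α}
    (hg : g ^ p = 1) (S : Finset α) (hS : ∀ x ∈ S, g x ∈ S) :
    S.card ≡ (fx g ∩ S).card [MOD p] := by
  have _hpf : Fact p.Prime := Fact.mk hp
  have himg : S.image g = S := by
    apply Finset.eq_of_subset_of_card_le
    · intro x hx
      obtain ⟨y, hy, rfl⟩ := Finset.mem_image.1 hx
      exact hS y hy
    · rw [Finset.card_image_of_injective _ g.injective]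
  have hiff : ∀ x, g x ∈ S ↔ x ∈ S := by
    intro x
    constructor
    · intro hx
      rw [← himg] at hx
      obtain ⟨y, hy, he⟩ := Finset.mem_image.1 hx
      rwa [← g.injective he]
    · exact hS x
  have hg' : (g.subtypePerm hiff) ^ p ^ 1 = 1 := by
    rw [pow_one, Equiv.Perm.subtypePerm_pow]
    ext x
    simp [hg]
  have h1 := Equiv.Perm.card_compl_support_modEq hg'
  rw [Fintype.card_coe] at h1
  have h2 : (g.subtypePerm hiff).supportᶜ.card = (fx g ∩ S).card := by
    refine Finset.card_bij (fun x _ => (x : α)) ?_ ?_ ?_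
    · intro x hx
      rw [Finset.mem_compl, Equiv.Perm.mem_support, not_not] at hx
      rw [Finset.mem_inter, mfx]
      exact ⟨congrArg Subtype.val hx, x.2⟩
    · intro x _ y _ hxy
      exact Subtype.ext hxy
    · intro x hx
      rw [Finset.mem_inter, mfx] at hx
      refine ⟨⟨x, hx.2⟩, ?_, rfl⟩
      rw [Finset.mem_compl, Equiv.Perm.mem_support, not_not]
      exact Subtype.ext hx.1
  rw [← h2]
  exact h1.symm

theorem fx_univ {α : Type} [Fintype α] [DecidableEq α] {p : ℕ} (hp : p.Prime)
    {g : Equiv.Perm α} (hg : g ^ p = 1) : Fintype.card α ≡ (fx g).card [MOD p] := by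
  have h1 := fx_mod hp hg Finset.univ fun x _ => Finset.mem_univ _
  rw [Finset.inter_univ] at h1
  exact h1

theorem mem_fx {α : Type} [Fintype α] [DecidableEq α] {g : Equiv.Perm α} {x : α} :
    x ∈ fx g ↔ g x = x := by
  exact mfx

end Pool.Agent.Work.MP_37fea8_co
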