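import Mathlib
import Pool.Agent.Work.MP_37fea8_co.AU.Bas
import Pool.Agent.Work.MP_37fea8_co.AU.Mod

/-!
# AU/Aut (M)

Facts on automorphisms `IsAut c g s` of the colouring.

PROOFS.  `aut_mul`, `aut_inv`, `aut_pow`: direct (`g` injective).  `aut_mem_nb`: `c (g x) (g y) = s (c x y)`, `s` injective.
`aut_fix_col`: `c (g u) (g v) = c u v`.  `aut_com`: `g z` is a neighbour of `g u = u` and `g v = v` in the colour `s i = i`; `com_eq`.
`aut_one`: every colour occurs (`nb_card` is `7 > 0`), so `s i = i` for all `i`.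
`deg_mod`: `g` maps `nb c i u` to itself; `fx_mod` with `S = nb c i u`.  `fix_mod`, `col_mod`: `fx_univ`.
`sum_fix`: `sum_nb` for `F = fx g`; for `i ∉ fx s` the set `fx g ∩ nb c i u` is empty by `aut_fix_col`.
-/

set_option autoImplicit false

namespace Pool.Agent.Work.MP_37fea8_co

variable {V : Type} [Fintype V] [DecidableEq V] {c : V → V → Fin 7}

theorem aut_mul {g h : Equiv.Perm V} {s t : Equiv.Perm (Fin 7)} (h1 : IsAut c g s)
    (h2 : IsAut c h t) : IsAut c (g * h) (s * t) := by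
  intro x y hxy
  show c (g (h x)) (g (h y)) = s (t (c x y))
  rw [h1 _ _ fun hh => hxy (h.injective hh), h2 x y hxy]

theorem aut_inv {g : Equiv.Perm V} {s : Equiv.Perm (Fin 7)} (h : IsAut c g s) :
    IsAut c g⁻¹ s⁻¹ := by
  intro x y hxy
  have h0 := h (g⁻¹ x) (g⁻¹ y) fun hh => hxy (g⁻¹.injective hh)
  have h1 : ∀ x, g (g⁻¹ x) = x := g.apply_symm_apply
  rw [h1, h1] at h0
  rw [h0]
  exact (s.symm_apply_apply _).symm

theorem aut_pow {g : Equiv.Perm V} {s : Equiv.Perm (Fin 7)} (h : IsAut c g s) (n : ℕ) :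
    IsAut c (g ^ n) (s ^ n) := by
  induction n with
  | zero => intro x y _; rfl
  | succ n ih => rw [pow_succ, pow_succ]; exact aut_mul ih h

theorem aut_mem_nb {g : Equiv.Perm V} {s : Equiv.Perm (Fin 7)} (h : IsAut c g s) {i : Fin 7}
    {x y : V} : g y ∈ nb c (s i) (g x) ↔ y ∈ nb c i x := by
  rw [mem_nb, mem_nb]
  constructor
  · rintro ⟨h1, h2⟩
    have h3 : y ≠ x := fun hh => h1 (by rw [hh])
    refine ⟨h3, ?_⟩
    rw [h x y h3.symm] at h2
    exact s.injective h2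
  · rintro ⟨h1, h2⟩
    refine ⟨fun hh => h1 (g.injective hh), ?_⟩
    rw [h x y h1.symm, h2]

theorem aut_fix_col {g : Equiv.Perm V} {s : Equiv.Perm (Fin 7)} (h : IsAut c g s) {u v : V}
    (hu : g u = u) (hv : g v = v) (huv : u ≠ v) : s (c u v) = c u v := by
  have h1 := h u v huv
  rw [hu, hv] at h1
  exact h1.symm

theorem aut_com (hc : Moore c) {g : Equiv.Perm V} {s : Equiv.Perm (Fin 7)} (h : IsAut c g s)
    {i : Fin 7} {u v z : V} (hi : s i = i) (hu : g u = u) (hv : g v = v) (huv : u ≠ v)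
    (hz : z ∈ nb c i u) (hz' : z ∈ nb c i v) : g z = z := by
  have h1 : g z ∈ nb c (s i) (g u) := (aut_mem_nb h).mpr hz
  have h2 : g z ∈ nb c (s i) (g v) := (aut_mem_nb h).mpr hz'
  rw [hi, hu] at h1
  rw [hi, hv] at h2
  exact com_eq hc huv h1 h2 hz hz'

theorem aut_one (hc : Moore c) {s : Equiv.Perm (Fin 7)} (h : IsAut c 1 s) : s = 1 := by
  have hne : Nonempty V := by
    rw [← Fintype.card_pos_iff, hc.card]
    norm_num
  obtain ⟨x⟩ := hne
  ext i
  have h1 : (nb c i x).Nonempty := by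
    rw [← Finset.card_pos, nb_card hc]
    norm_num
  obtain ⟨y, hy⟩ := h1
  obtain ⟨h2, h3⟩ := mem_nb.mp hy
  have h4 := h x y h2.symm
  rw [h3] at h4
  have h5 : c x y = s i := h4
  rw [← h5, h3]
  rfl

theorem deg_mod (hc : Moore c) {g : Equiv.Perm V} {s : Equiv.Perm (Fin 7)} (h : IsAut c g s)
    {p : ℕ} (hp : p.Prime) (hg : g ^ p = 1) {i : Fin 7} (hi : s i = i) {u : V} (hu : g u = u) :
    7 ≡ (fx g ∩ nb c i u).card [MOD p] := by
  have h1 := fx_mod hp hg (nb c i u) (by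
    intro x hx
    have h1 : g x ∈ nb c (s i) (g u) := (aut_mem_nb h).mpr hx
    rwa [hi, hu] at h1)
  rwa [nb_card hc] at h1

theorem fix_mod (hc : Moore c) {g : Equiv.Perm V} {p : ℕ} (hp : p.Prime) (hg : g ^ p = 1) :
    50 ≡ (fx g).card [MOD p] := by
  have h1 := fx_univ hp hg
  rwa [hc.card] at h1

theorem col_mod {s : Equiv.Perm (Fin 7)} {p : ℕ} (hp : p.Prime) (hs : s ^ p = 1) :
    7 ≡ (fx s).card [MOD p] := by
  have h1 := fx_univ hp hs
  rwa [Fintype.card_fin] at h1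

theorem sum_fix (hc : Moore c) {g : Equiv.Perm V} {s : Equiv.Perm (Fin 7)} (h : IsAut c g s)
    {u : V} (hu : g u = u) : ∑ i ∈ fx s, (fx g ∩ nb c i u).card + 1 = (fx g).card := by
  have _ := hc
  rw [← sum_nb c (fx g) (mem_fx.mpr hu)]
  congr 1
  refine Finset.sum_subset (Finset.subset_univ _) fun i _ hi => ?_
  rw [Finset.card_eq_zero, Finset.eq_empty_iff_forall_notMem]
  intro v hv
  obtain ⟨h1, h2⟩ := Finset.mem_inter.mp hv
  obtain ⟨h3, h4⟩ := mem_nb.mp h2
  have h5 := aut_fix_col h hu (mem_fx.mp h1) h3.symm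
  rw [h4] at h5
  exact hi (mem_fx.mpr h5)

end Pool.Agent.Work.MP_37fea8_co
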