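import Mathlib
import Pool.Agent.Work.MP_37fea8_co.AU.Aut

/-!
# AU/Gam (M)

The group of pairs: action, faithfulness, comparison with `AutD`.

PROOFS.  `gam_act`: the definition of `Gam c`; if `p.1 = 1` on the vertices then `p.2 = 1` by `aut_one`, so `p = 1`.
`gam_card`: `p ↦ p.1` is a bijection from `Gam c` to `AutD G`: for `g ∈ AutD G` with `s`: for `x ≠ y`, `i = c x y`, `(G i).Adj x y`, so
`(G (s i)).Adj (g x) (g y)`, `c (g x) (g y) = s i`; conversely `(g, s) ∈ Gam c` gives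
`(G (s i)).Adj (g x) (g y) ↔ c (g x) (g y) = s i ↔ c x y = i` for `x ≠ y`, and both sides are false for `x = y`.  Injective: `aut_one`
(if `(g, s)` and `(g, s')` are in `Gam c` then `(1, s⁻¹ s')` is).
-/

set_option autoImplicit false

namespace Pool.Agent.Work.MP_37fea8_co

variable {V : Type} [Fintype V] [DecidableEq V] {c : V → V → Fin 7}

theorem gam_act (hc : Moore c) : Act c (Gam c) := by
  refine ⟨fun h x y hxy => h.2 x y hxy, fun h hx => ?_⟩
  have h1 : h.1.1 = 1 := by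
    ext x
    exact hx x
  have h2 : IsAut c 1 h.1.2 := by
    intro x y hxy
    have h3 := h.2 x y hxy
    rw [h1] at h3
    exact h3
  exact Subtype.ext (Prod.ext h1 (aut_one hc h2))

theorem gam_card {c : Fin 50 → Fin 50 → Fin 7} (hc : Moore c) {G : Fin 7 → SimpleGraph (Fin 50)}
    (h : ∀ x y, x ≠ y → ∀ i, (c x y = i ↔ (G i).Adj x y)) :
    Nat.card (AutD G) = Nat.card (Gam c) := by
  have hmem : ∀ p : Gam c, p.1.1 ∈ AutD G := by
    intro p
    refine ⟨p.1.2, fun i x y => ?_⟩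
    by_cases hxy : x = y
    · subst hxy
      exact ⟨fun h1 => absurd h1 (SimpleGraph.irrefl _), fun h1 => absurd h1 (SimpleGraph.irrefl _)⟩
    · have h1 : p.1.1 x ≠ p.1.1 y := fun h2 => hxy (p.1.1.injective h2)
      rw [← h _ _ h1, ← h _ _ hxy, p.2 x y hxy]
      exact ⟨fun h2 => p.1.2.injective h2, fun h2 => by rw [h2]⟩
  refine (Nat.card_congr (Equiv.ofBijective (fun p : Gam c => (⟨p.1.1, hmem p⟩ : AutD G))
    ⟨?_, ?_⟩)).symm
  · intro p q hpq
    have h1 : p.1.1 = q.1.1 := congrArg Subtype.val hpq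
    have h2 : IsAut c 1 (p.1.2⁻¹ * q.1.2) := by
      have h3 : IsAut c (p.1.1⁻¹ * q.1.1) (p.1.2⁻¹ * q.1.2) :=
        aut_mul (aut_inv (g := p.1.1) (s := p.1.2) p.2) q.2
      rwa [h1, inv_mul_cancel] at h3
    have h4 := aut_one hc h2
    exact Subtype.ext (Prod.ext h1 (inv_mul_eq_one.1 h4))
  · rintro ⟨g, s, hs⟩
    refine ⟨⟨(g, s), ?_⟩, rfl⟩
    intro x y hxy
    have h1 : g x ≠ g y := fun h2 => hxy (g.injective h2)
    show c (g x) (g y) = s (c x y)
    rw [h _ _ h1, hs, ← h _ _ hxy]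

end Pool.Agent.Work.MP_37fea8_co
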