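import Mathlib
import Pool.Agent.Work.MP_37fea8_co.AU.Aut

/-!
# AU/Inv (M)

Counting for an involution.

PROOF.  Let `F = fx g`, `a = |F|`.  The `50 - a` vertices `v` with `g v ≠ v` are of two kinds: `c v (g v) = i` (the first set of the
statement), and `c v (g v) ≠ i`.  For `v` of the second kind there is a unique common neighbour `z` of `v` and `g v` (`com_ex`),
and `g z = z` (`g z` is a common neighbour of `g v` and `g (g v) = v`; `com_eq`).  Conversely if `z ∈ F` and `v ∈ nb z`, `v ∉ F` then
`g v ∈ nb z` and `c v (g v) ≠ i` by `no_tri`.  So the second kind is the disjoint union (`com_eq`) over `z ∈ F` of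
`nb c i z \ F`, which has `7 - |F ∩ nb c i z|` elements.  Hence `first + 7 a - ∑ |F ∩ nb z| = 50 - a`.
-/

set_option autoImplicit false

namespace Pool.Agent.Work.MP_37fea8_co

variable {V : Type} [Fintype V] [DecidableEq V] {c : V → V → Fin 7}

theorem inv_count (hc : Moore c) {g : Equiv.Perm V} {s : Equiv.Perm (Fin 7)} (h : IsAut c g s)
    (hg : g * g = 1) {i : Fin 7} (hi : s i = i) :
    (Finset.univ.filter fun v : V => g v ∈ nb c i v).card + 8 * (fx g).card =
      50 + ∑ z ∈ fx g, (fx g ∩ nb c i z).card := by
  have hgg : ∀ v, g (g v) = v := fun v => by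
    have := congrArg (fun p : Equiv.Perm V => p v) hg
    simpa using this
  have hgn : ∀ {z v : V}, g z = z → v ∈ nb c i z → g v ∈ nb c i z := by
    intro z v hz hv
    have := (aut_mem_nb h (i := i) (x := z) (y := v)).2 hv
    rwa [hi, hz] at this
  set A : Finset V := Finset.univ.filter fun v : V => g v ∈ nb c i v with hA
  set B : Finset V := Finset.univ.filter fun v : V => g v ≠ v ∧ g v ∉ nb c i v with hB
  have hne : ∀ {v : V}, g v ∈ nb c i v → g v ≠ v := fun hv => (mem_nb.1 hv).1
  -- partition
  have h50 : A.card + B.card + (fx g).card = 50 := by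
    have h1 : (Finset.univ.filter fun v : V => g v ≠ v).card + (fx g).card = 50 := by
      rw [← hc.card, ← Finset.card_univ, add_comm]
      exact Finset.card_filter_add_card_filter_not (s := (Finset.univ : Finset V)) (fun v => g v = v)
    have h2 : A ∪ B = Finset.univ.filter fun v : V => g v ≠ v := by
      ext v
      simp only [hA, hB, Finset.mem_union, Finset.mem_filter, Finset.mem_univ, true_and]
      constructor
      · rintro (h' | h')
        · exact hne h'
        · exact h'.1
      · intro h'
        by_cases h'' : g v ∈ nb c i v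
        · exact Or.inl h''
        · exact Or.inr ⟨h', h''⟩
    have h3 : Disjoint A B := by
      rw [Finset.disjoint_left]
      intro v hv hv'
      exact (Finset.mem_filter.1 hv').2.2 (Finset.mem_filter.1 hv).2
    rw [← h1, ← h2, Finset.card_union_of_disjoint h3]
  have hBU : B = (fx g).biUnion fun z => nb c i z \ fx g := by
    ext v
    simp only [hB, Finset.mem_biUnion, Finset.mem_sdiff, Finset.mem_filter, Finset.mem_univ,
      true_and, mem_fx]
    constructor
    · rintro ⟨h1, h2⟩
      obtain ⟨z, hz, hz'⟩ := com_ex hc (x := v) (y := g v) (Ne.symm h1) h2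
      have hgz1 : g z ∈ nb c i (g v) := by
        have := (aut_mem_nb h (i := i) (x := v) (y := z)).2 hz
        rwa [hi] at this
      have hgz2 : g z ∈ nb c i v := by
        have := (aut_mem_nb h (i := i) (x := g v) (y := z)).2 hz'
        rwa [hi, hgg] at this
      have hz3 : g z = z := com_eq hc (Ne.symm h1) hgz2 hgz1 hz hz'
      exact ⟨z, hz3, (nb_symm hc).1 hz, h1⟩
    · rintro ⟨z, hz, hv, h1⟩
      exact ⟨h1, no_tri hc hv (hgn hz hv)⟩
  have hBc : B.card + ∑ z ∈ fx g, (fx g ∩ nb c i z).card = 7 * (fx g).card := by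
    rw [hBU, Finset.card_biUnion, ← Finset.sum_add_distrib]
    · rw [Finset.sum_congr rfl (g := fun _ => 7), Finset.sum_const, smul_eq_mul, mul_comm]
      intro z _
      rw [Finset.inter_comm, Finset.card_sdiff_add_card_inter, nb_card hc]
    · intro z hz z' hz' hzz
      refine Finset.disjoint_left.2 fun v hv hv' => ?_
      rw [Finset.mem_sdiff, mem_fx] at hv hv'
      have hz := mem_fx.1 (Finset.mem_coe.1 hz)
      have hz' := mem_fx.1 (Finset.mem_coe.1 hz')
      exact hzz (com_eq hc (Ne.symm hv.2) ((nb_symm hc).1 hv.1) ((nb_symm hc).1 (hgn hz hv.1))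
        ((nb_symm hc).1 hv'.1) ((nb_symm hc).1 (hgn hz' hv'.1)))
  omega

end Pool.Agent.Work.MP_37fea8_co
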