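import Mathlib
import Pool.Agent.Work.MP_37fea8_co.AU.Inv

/-!
# AU/Ord2 (M)

There is no automorphism of order two.

PROOF.  `a = |fx g|`, `t = |fx s|`.  For `g v ≠ v`: `s (c v (g v)) = c (g v) (g (g v)) = c (g v) v = c v (g v)`, so `c v (g v) ∈ fx s`;
hence `∑_{i ∈ fx s} |{v | g v ∈ nb c i v}| = 50 - a`.  Sum `inv_count` over `i ∈ fx s`, with
`∑_{z ∈ fx g} ∑_{i ∈ fx s} |fx g ∩ nb c i z| = a (a - 1)` (`sum_fix`, exchange the sums):
`(50 - a) + 8 a t = 50 t + a (a - 1)`.  `t` is odd and `a` is even (`col_mod`, `fix_mod`, `p = 2`), `t ≤ 7`, `a ≤ 50`: checking the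
cases (`interval_cases t`, `a ≤ 50`) `(a, t)` is `(0, 1)`, `(8, 1)`, `(6, 7)` or `(50, 7)`.
`(50, 7)`: `g = 1`.  `(6, 7)`: for `u ∈ fx g` every `|fx g ∩ nb c i u|` is odd (`deg_mod`), so at least `1`, and the sum over the
seven colours is `5` (`sum_fix`).  `(8, 1)`: three different points of `fx g`: all three colours are in `fx s` (`aut_fix_col`), which
has one element: a triangle (`Moore.tri`).  `(0, 1)`: let `fx s = {i}`; `g v ∈ nb c i v` for all `v`.  Take any `v` and
`w ∈ nb c i v`, `w ≠ g v` (`nb_card`).  Then `g w ∈ nb c i (g v)`, `g w ∈ nb c i w`, `w ≠ g v`; `v ≠ g w` (otherwise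
`g v = w`); so `w` and `g v` are common neighbours of `v` and `g w`: `com_eq` gives `w = g v`, a contradiction.
-/

set_option autoImplicit false

namespace Pool.Agent.Work.MP_37fea8_co

variable {V : Type} [Fintype V] [DecidableEq V] {c : V → V → Fin 7}

theorem ord2 (hc : Moore c) {g : Equiv.Perm V} {s : Equiv.Perm (Fin 7)} (h : IsAut c g s)
    (hg : g * g = 1) (hs : s * s = 1) : g = 1 := by
  have hgg : ∀ v, g (g v) = v := fun v => by
    have := congrArg (fun p : Equiv.Perm V => p v) hg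
    simpa using this
  have hcol : ∀ v, g v ≠ v → c v (g v) ∈ fx s := by
    intro v hv
    rw [mem_fx]
    have h1 := h v (g v) (Ne.symm hv)
    rw [hgg] at h1
    rw [← h1, hc.symm]
  set a := (fx g).card with ha
  set t := (fx s).card with ht
  -- the first sum
  have hS1 : ∑ i ∈ fx s, (Finset.univ.filter fun v : V => g v ∈ nb c i v).card + a = 50 := by
    have h1 : (Finset.univ.filter fun v : V => g v ≠ v).card + a = 50 := by
      rw [← hc.card, ← Finset.card_univ, add_comm]
      exact Finset.card_filter_add_card_filter_not (s := (Finset.univ : Finset V)) (fun v => g v = v)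
    have h2 : (Finset.univ.filter fun v : V => g v ≠ v).card =
        ∑ i ∈ fx s, (Finset.univ.filter fun v : V => g v ∈ nb c i v).card := by
      rw [Finset.card_eq_sum_card_fiberwise (f := fun v => c v (g v)) (t := fx s)]
      · refine Finset.sum_congr rfl fun i _ => ?_
        congr 1
        ext v
        simp only [Finset.mem_filter, Finset.mem_univ, true_and, mem_nb]
      · intro v hv
        exact hcol v (Finset.mem_filter.1 hv).2
    rw [← h2, h1]
  have hS2 : ∑ i ∈ fx s, (Finset.univ.filter fun v : V => g v ∈ nb c i v).card + t * (8 * a) =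
      t * 50 + ∑ i ∈ fx s, ∑ z ∈ fx g, (fx g ∩ nb c i z).card := by
    have h1 : ∑ i ∈ fx s, ((Finset.univ.filter fun v : V => g v ∈ nb c i v).card + 8 * a) =
        ∑ i ∈ fx s, (50 + ∑ z ∈ fx g, (fx g ∩ nb c i z).card) :=
      Finset.sum_congr rfl fun i hi => inv_count hc h hg (mem_fx.1 hi)
    rw [Finset.sum_add_distrib, Finset.sum_add_distrib, Finset.sum_const, Finset.sum_const,
      smul_eq_mul, smul_eq_mul] at h1
    exact h1
  have hS3 : ∑ i ∈ fx s, ∑ z ∈ fx g, (fx g ∩ nb c i z).card + a = a * a := by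
    rw [Finset.sum_comm]
    have h1 : ∑ z ∈ fx g, (∑ i ∈ fx s, (fx g ∩ nb c i z).card + 1) = ∑ z ∈ fx g, a :=
      Finset.sum_congr rfl fun z hz => sum_fix hc h (mem_fx.1 hz)
    rw [Finset.sum_add_distrib, Finset.sum_const, Finset.sum_const, smul_eq_mul, smul_eq_mul,
      mul_one] at h1
    exact h1
  have hmain : 50 + 8 * a * t = 50 * t + a * a := by
    have e1 : t * (8 * a) = 8 * a * t := by ring
    have e2 : t * 50 = 50 * t := by ring
    omega
  have ht7 : t ≤ 7 := by
    have := Finset.card_le_univ (fx s)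
    simpa using this
  have ha50 : a ≤ 50 := by
    have := Finset.card_le_univ (fx g)
    rwa [hc.card] at this
  have htodd : t % 2 = 1 := by
    have := col_mod (s := s) Nat.prime_two (by rw [pow_two]; exact hs)
    have h2 : 7 % 2 = t % 2 := this
    omega
  have hcases : (a = 0 ∧ t = 1) ∨ (a = 8 ∧ t = 1) ∨ (a = 6 ∧ t = 7) ∨ (a = 50 ∧ t = 7) := by
    have key : ∀ t' : Fin 8, ∀ a' : Fin 51, t'.1 % 2 = 1 →
        50 + 8 * a'.1 * t'.1 = 50 * t'.1 + a'.1 * a'.1 →
        (a'.1 = 0 ∧ t'.1 = 1) ∨ (a'.1 = 8 ∧ t'.1 = 1) ∨ (a'.1 = 6 ∧ t'.1 = 7) ∨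
          (a'.1 = 50 ∧ t'.1 = 7) := by
      decide
    exact key ⟨t, by omega⟩ ⟨a, by omega⟩ htodd hmain
  rcases hcases with ⟨ha0, ht1⟩ | ⟨ha8, ht1⟩ | ⟨ha6, ht7'⟩ | ⟨ha50', -⟩
  · -- no fixed points
    exfalso
    obtain ⟨i, hi⟩ := Finset.card_eq_one.1 ht1
    have his : s i = i := mem_fx.1 (by rw [hi]; exact Finset.mem_singleton_self i)
    have hfx : ∀ v, g v ≠ v := by
      intro v hv
      have : v ∈ fx g := mem_fx.2 hv
      rw [Finset.card_eq_zero.1 ha0] at this
      exact absurd this (Finset.notMem_empty v)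
    have hall : ∀ v, g v ∈ nb c i v := by
      intro v
      have := hcol v (hfx v)
      rw [hi, Finset.mem_singleton] at this
      exact mem_nb.2 ⟨hfx v, this⟩
    have hV : 0 < Fintype.card V := by rw [hc.card]; norm_num
    obtain ⟨v⟩ := Fintype.card_pos_iff.1 hV
    obtain ⟨w, hw, hwv⟩ := Finset.exists_mem_ne (s := nb c i v)
      (by rw [nb_card hc]; norm_num) (g v)
    have h1 : g w ∈ nb c i (g v) := by
      have := (aut_mem_nb h (i := i) (x := v) (y := w)).2 hw
      rwa [his] at this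
    have h2 : v ≠ g w := by
      intro hh
      apply hwv
      rw [hh, hgg]
    exact hwv (com_eq hc h2 hw ((nb_symm hc).1 (hall w)) (hall v) ((nb_symm hc).1 h1))
  · exfalso
    obtain ⟨i, hi⟩ := Finset.card_eq_one.1 ht1
    have h3 : 2 < (fx g).card := by rw [← ha, ha8]; norm_num
    obtain ⟨u, v, w, hu, hv, hw, huv, huw, hvw⟩ := Finset.two_lt_card_iff.1 h3
    rw [mem_fx] at hu hv hw
    have e : ∀ {x y : V}, g x = x → g y = y → x ≠ y → c x y = i := by
      intro x y hx hy hxy
      have : c x y ∈ fx s := mem_fx.2 (aut_fix_col h hx hy hxy)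
      rwa [hi, Finset.mem_singleton] at this
    exact hc.tri u v w huv hvw huw ((e hu hv huv).trans (e hv hw hvw).symm)
      ((e hu hv huv).trans (e hu hw huw).symm)
  · exfalso
    have hpos : 0 < (fx g).card := by rw [← ha, ha6]; norm_num
    obtain ⟨u, hu⟩ := Finset.card_pos.1 hpos
    rw [mem_fx] at hu
    have h1 : ∀ i ∈ fx s, 1 ≤ (fx g ∩ nb c i u).card := by
      intro i hi
      have h2 : 7 % 2 = (fx g ∩ nb c i u).card % 2 :=
        deg_mod hc h Nat.prime_two (by rw [pow_two]; exact hg) (mem_fx.1 hi) hu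
      omega
    have h3 := Finset.sum_le_sum h1
    have h4 := sum_fix hc h hu
    rw [Finset.sum_const, smul_eq_mul, mul_one] at h3
    omega
  · have h1 : fx g = Finset.univ := by
      rw [← Finset.card_eq_iff_eq_univ, hc.card]
      exact ha50'
    ext v
    have : v ∈ fx g := by rw [h1]; exact Finset.mem_univ v
    exact mem_fx.1 this

end Pool.Agent.Work.MP_37fea8_co
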