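import Mathlib
import Pool.Agent.Work.MP_37fea8_co.Defs

/-!
# AU/TrI (S-M)

The trace of an idempotent rational matrix is an integer.

PROOF.  `f = Matrix.toLin' M` is idempotent, so `LinearMap.IsProj` onto its range (`LinearMap.IsIdempotentElem.isProj_range`
or similar), and `LinearMap.IsProj.trace` : the trace is the dimension of the range; `LinearMap.trace_toLin'` or
`Matrix.trace_toLin'_eq`.
-/

set_option autoImplicit false

namespace Pool.Agent.Work.MP_37fea8_co

theorem idem_trace {n : Type} [Fintype n] [DecidableEq n] (M : Matrix n n ℚ) (h : M * M = M) :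
    ∃ k : ℤ, M.trace = (k : ℚ) := by
  have hid : IsIdempotentElem (Matrix.toLin' M) := by
    change Matrix.toLin' M * Matrix.toLin' M = Matrix.toLin' M
    rw [Module.End.mul_eq_comp, ← Matrix.toLin'_mul, h]
  have h1 := (LinearMap.IsIdempotentElem.isProj_range _ hid).trace
  rw [Matrix.trace_toLin'_eq] at h1
  exact ⟨(Module.finrank ℚ (LinearMap.range (Matrix.toLin' M)) : ℤ), by rw [h1]; norm_cast⟩

end Pool.Agent.Work.MP_37fea8_co
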