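import Mathlib
import Pool.Agent.Work.MP_37fea8_co.AU.Bas

/-!
# AU/TrM (M)

The adjacency matrix of one colour.

PROOFS.  `(A * A) x y` is the number of common neighbours of `x` and `y` : `7` for `x = y` (`nb_card`), `0` or `1` by `inter_nb`
otherwise (`Matrix.mul_apply`, the product of two indicators, `nb_symm`).  Row and column sums of `A` are `7`.
`e0_sq`: with `E = 2 - A + (1/10) J`: `E * E = 4 - 4 A + A * A + (4/10) J - (14/10) J + (50/100) J = 5 E` (`J * J = 50 J`).
-/

set_option autoImplicit false

namespace Pool.Agent.Work.MP_37fea8_co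

variable {V : Type} [Fintype V] [DecidableEq V] {c : V → V → Fin 7}

theorem adjM_sq (hc : Moore c) (i : Fin 7) :
    adjM c i * adjM c i = (6 : ℚ) • (1 : Matrix V V ℚ) + allOne V - adjM c i := by
  ext x y
  have h1 : (adjM c i * adjM c i) x y = (((nb c i x ∩ nb c i y).card : ℕ) : ℚ) := by
    rw [Matrix.mul_apply, Finset.card_eq_sum_ones, Nat.cast_sum]
    have h2 : ∀ z, adjM c i x z * adjM c i z y = if z ∈ nb c i x ∩ nb c i y then (1 : ℚ) else 0 := by
      intro z
      have e1 : adjM c i x z = if z ∈ nb c i x then 1 else 0 := rfl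
      have e2 : adjM c i z y = if y ∈ nb c i z then 1 else 0 := rfl
      have e3 : y ∈ nb c i z ↔ z ∈ nb c i y := nb_symm hc
      rw [e1, e2]
      simp only [e3, Finset.mem_inter]
      by_cases ha : z ∈ nb c i x <;> by_cases hb : z ∈ nb c i y <;> simp [ha, hb]
    rw [Finset.sum_congr rfl fun z _ => h2 z, ← Finset.sum_filter]
    have h3 : (Finset.univ.filter fun z => z ∈ nb c i x ∩ nb c i y) = nb c i x ∩ nb c i y := by
      ext z; simp
    rw [h3]
    simp
  rw [h1]
  have e3 : ((6 : ℚ) • (1 : Matrix V V ℚ) + allOne V - adjM c i) x y =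
      6 * (if x = y then 1 else 0) + 1 - (if y ∈ nb c i x then 1 else 0) := by
    simp only [Matrix.sub_apply, Matrix.add_apply, Matrix.smul_apply, Matrix.one_apply, allOne, adjM,
      Matrix.of_apply, smul_eq_mul]
  rw [e3]
  by_cases hxy : x = y
  · subst hxy
    have h4 : x ∉ nb c i x := by
      rw [mem_nb]
      exact fun h => h.1 rfl
    rw [Finset.inter_self, nb_card hc]
    simp only [if_true, h4, if_false]
    norm_num
  · rw [inter_nb hc i hxy]
    by_cases hcx : c x y = i
    · have h5 : y ∈ nb c i x := by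
        rw [mem_nb]
        exact ⟨fun h => hxy h.symm, hcx⟩
      simp only [hcx, if_true, hxy, if_false, h5]
      norm_num
    · have h5 : y ∉ nb c i x := by
        rw [mem_nb]
        exact fun h => hcx h.2
      simp only [hcx, hxy, if_false, h5]
      norm_num

theorem adjM_one (hc : Moore c) (i : Fin 7) : adjM c i * allOne V = (7 : ℚ) • allOne V := by
  ext x y
  rw [Matrix.mul_apply]
  have h2 : ∀ z, adjM c i x z * allOne V z y = if z ∈ nb c i x then (1 : ℚ) else 0 := by
    intro z
    have e1 : adjM c i x z = if z ∈ nb c i x then 1 else 0 := rfl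
    have e2 : allOne V z y = 1 := rfl
    rw [e1, e2, mul_one]
  rw [Finset.sum_congr rfl fun z _ => h2 z, ← Finset.sum_filter]
  have h3 : (Finset.univ.filter fun z => z ∈ nb c i x) = nb c i x := by
    ext z; simp
  rw [h3, Finset.sum_const, nb_card hc]
  simp [allOne]

theorem one_adjM (hc : Moore c) (i : Fin 7) : allOne V * adjM c i = (7 : ℚ) • allOne V := by
  ext x y
  rw [Matrix.mul_apply]
  have h2 : ∀ z, allOne V x z * adjM c i z y = if z ∈ nb c i y then (1 : ℚ) else 0 := by
    intro z
    have e1 : adjM c i z y = if y ∈ nb c i z then 1 else 0 := rfl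
    have e2 : allOne V x z = 1 := rfl
    rw [e1, e2, one_mul]
    by_cases h : y ∈ nb c i z
    · rw [if_pos h, if_pos ((nb_symm hc).1 h)]
    · rw [if_neg h, if_neg fun h' => h ((nb_symm hc).1 h')]
  rw [Finset.sum_congr rfl fun z _ => h2 z, ← Finset.sum_filter]
  have h3 : (Finset.univ.filter fun z => z ∈ nb c i y) = nb c i y := by
    ext z; simp
  rw [h3, Finset.sum_const, nb_card hc]
  simp [allOne]

theorem one_one (hc : Moore c) : allOne V * allOne V = (50 : ℚ) • allOne V := by
  ext x y
  rw [Matrix.mul_apply]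
  have h2 : ∀ z, allOne V x z * allOne V z y = (1 : ℚ) := by
    intro z
    simp [allOne]
  rw [Finset.sum_congr rfl fun z _ => h2 z, Finset.sum_const, Finset.card_univ, hc.card]
  simp [allOne]

/-- Five times the projection onto the eigenspace of the eigenvalue `-3`. -/
def e0 (c : V → V → Fin 7) (i : Fin 7) : Matrix V V ℚ :=
  (2 : ℚ) • (1 : Matrix V V ℚ) - adjM c i + (1 / 10 : ℚ) • allOne V

theorem e0_sq (hc : Moore c) (i : Fin 7) : e0 c i * e0 c i = (5 : ℚ) • e0 c i := by
  have h1 := adjM_sq hc i
  have h2 := adjM_one hc i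
  have h3 := one_adjM hc i
  have h4 := one_one hc
  unfold e0
  rw [add_mul, sub_mul, mul_add, mul_sub, mul_add, mul_sub, mul_add, mul_sub]
  simp only [Matrix.smul_mul, Matrix.mul_smul, Matrix.one_mul, Matrix.mul_one, h1, h2, h3, h4]
  ext x y
  simp only [Matrix.sub_apply, Matrix.add_apply, Matrix.smul_apply, smul_eq_mul]
  ring

end Pool.Agent.Work.MP_37fea8_co
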