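import Mathlib
import Pool.Agent.Work.MP_37fea8_co.AU.TrM
import Pool.Agent.Work.MP_37fea8_co.AU.TrI

/-!
# AU/TrK (M)

The trace lemma.

PROOF.  `n = |K|`, `P x y = #{k | k • y = x}` as a rational matrix.  `P * P = n P` (for given `x`, `y`: pairs `(k, l)` with
`k • l • y = x`; substitute `m = k * l`), `P * J = J * P = n J`, and `P * A = A * P` for `A = adjM c i`:
`(P * A) x y = #{k | y ∈ nb (k⁻¹ • x)}`, `(A * P) x y = #{k | k • y ∈ nb x}`, equal by `Keeps` (apply `k`).  So `P` commutes with
`e0 c i` and `M = (1 / (5 n)) • (P * e0 c i)` is idempotent: `P E P E = P P E E = 5 n P E`.  Its trace is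
`(1 / (5 n)) (2 tr P - tr (P A) + (1/10) tr (P J))`, `tr P = ∑_k |{x | k • x = x}|`, `tr (P A) = ∑_k |{x | k • x ∈ nb c i x}|`
(`tr (P A) = ∑_x ∑_y P x y A y x`; `x = k • y`), `tr (P J) = 50 n`.  `idem_trace` gives an integer `z'`:
`2 ∑ ... - ∑ ... + 5 n = 5 n z'`; `z = z' - 1`.
-/

set_option autoImplicit false

namespace Pool.Agent.Work.MP_37fea8_co

variable {V : Type} [Fintype V] [DecidableEq V] {c : V → V → Fin 7}

/-- the matrix of the group element `k` -/
private def rm {V : Type} [DecidableEq V] {K : Type} [Group K] [MulAction K V] (k : K) :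
    Matrix V V ℚ := Matrix.of fun x y => if k • y = x then 1 else 0

private theorem rm_apply {V : Type} [DecidableEq V] {K : Type} [Group K] [MulAction K V] (k : K)
    (x y : V) : (rm k : Matrix V V ℚ) x y = if k • y = x then 1 else 0 := rfl

private theorem mul_rm {K : Type} [Group K] [MulAction K V] (N : Matrix V V ℚ) (k : K) (x z : V) :
    (N * (rm k : Matrix V V ℚ) : Matrix V V ℚ) x z = N x (k • z) := by
  rw [Matrix.mul_apply, Finset.sum_eq_single (k • z)]
  · rw [rm_apply, if_pos rfl, mul_one]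
  · intro y _ hy
    rw [rm_apply, if_neg (fun h => hy h.symm), mul_zero]
  · intro h
    exact absurd (Finset.mem_univ _) h

private theorem rm_mul {K : Type} [Group K] [MulAction K V] (N : Matrix V V ℚ) (k : K) (x z : V) :
    ((rm k : Matrix V V ℚ) * N : Matrix V V ℚ) x z = N (k⁻¹ • x) z := by
  rw [Matrix.mul_apply, Finset.sum_eq_single (k⁻¹ • x)]
  · rw [rm_apply, if_pos (smul_inv_smul k x), one_mul]
  · intro y _ hy
    rw [rm_apply, if_neg (fun h => hy (by rw [← h, inv_smul_smul])), zero_mul]
  · intro h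
    exact absurd (Finset.mem_univ _) h

private theorem rm_rm {K : Type} [Group K] [MulAction K V] (k l : K) :
    (rm k : Matrix V V ℚ) * (rm l : Matrix V V ℚ) = rm (k * l) := by
  ext x z
  rw [mul_rm, rm_apply, rm_apply, mul_smul]

theorem trace_dvd (hc : Moore c) (K : Type) [Group K] [Fintype K] [MulAction K V] {i : Fin 7}
    (hK : Keeps c K i) :
    ∃ z : ℤ, 2 * (∑ k : K, ((Finset.univ.filter fun x : V => k • x = x).card : ℤ)) -
      (∑ k : K, ((Finset.univ.filter fun x : V => k • x ∈ nb c i x).card : ℤ)) =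
      5 * (Fintype.card K : ℤ) * z := by
  set n : ℚ := (Fintype.card K : ℚ) with hn
  have hn0 : n ≠ 0 := by
    rw [hn]
    exact_mod_cast Fintype.card_ne_zero
  set P : Matrix V V ℚ := ∑ k : K, rm k with hP
  have hPP : P * P = n • P := by
    have h1 : ∀ k : K, ∑ l : K, ((rm k : Matrix V V ℚ) * (rm l : Matrix V V ℚ)) = P := by
      intro k
      rw [hP]
      exact Fintype.sum_equiv (Equiv.mulLeft k) _ _ fun l => rm_rm k l
    calc P * P = ∑ k : K, ∑ l : K, ((rm k : Matrix V V ℚ) * (rm l : Matrix V V ℚ)) := by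
          rw [hP, Finset.sum_mul_sum]
      _ = ∑ _k : K, P := Finset.sum_congr rfl fun k _ => h1 k
      _ = n • P := by
        rw [Finset.sum_const, Finset.card_univ, hn, Nat.cast_smul_eq_nsmul]
  have hPJ : P * allOne V = n • allOne V := by
    have h1 : ∀ k : K, (rm k : Matrix V V ℚ) * allOne V = allOne V := by
      intro k
      ext x z
      rw [rm_mul]
      rfl
    rw [hP, Finset.sum_mul, Finset.sum_congr rfl fun k _ => h1 k, Finset.sum_const,
      Finset.card_univ, hn, Nat.cast_smul_eq_nsmul]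
  have hJP : allOne V * P = n • allOne V := by
    have h1 : ∀ k : K, allOne V * (rm k : Matrix V V ℚ) = allOne V := by
      intro k
      ext x z
      rw [mul_rm]
      rfl
    rw [hP, Finset.mul_sum, Finset.sum_congr rfl fun k _ => h1 k, Finset.sum_const,
      Finset.card_univ, hn, Nat.cast_smul_eq_nsmul]
  have hPA : P * adjM c i = adjM c i * P := by
    rw [hP, Finset.sum_mul, Finset.mul_sum]
    refine Finset.sum_congr rfl fun k _ => ?_
    ext x z
    rw [rm_mul, mul_rm]
    have h1 : z ∈ nb c i (k⁻¹ • x) ↔ k • z ∈ nb c i x := by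
      rw [mem_nb, mem_nb]
      have h2 : z ≠ k⁻¹ • x ↔ k • z ≠ x := by
        rw [Ne, Ne, eq_inv_smul_iff]
      constructor
      · rintro ⟨h3, h4⟩
        have h5 := (hK k (k⁻¹ • x) z h3.symm).2 h4
        rw [smul_inv_smul] at h5
        exact ⟨h2.1 h3, h5⟩
      · rintro ⟨h3, h4⟩
        have h5 := h2.2 h3
        refine ⟨h5, (hK k (k⁻¹ • x) z h5.symm).1 ?_⟩
        rw [smul_inv_smul]
        exact h4
    show (if z ∈ nb c i (k⁻¹ • x) then (1 : ℚ) else 0) = if k • z ∈ nb c i x then 1 else 0
    simp only [h1]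
  have hPE : P * e0 c i = e0 c i * P := by
    unfold e0
    rw [mul_add, mul_sub, add_mul, sub_mul, hPA, Matrix.mul_smul, Matrix.mul_smul, mul_one,
      Matrix.smul_mul, Matrix.smul_mul, one_mul, hPJ, hJP]
  have hsq : (P * e0 c i) * (P * e0 c i) = (5 * n) • (P * e0 c i) := by
    calc (P * e0 c i) * (P * e0 c i) = P * (e0 c i * P) * e0 c i := by
          simp only [mul_assoc]
      _ = (P * P) * (e0 c i * e0 c i) := by
          rw [← hPE]
          simp only [mul_assoc]
      _ = (5 * n) • (P * e0 c i) := by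
          rw [hPP, e0_sq hc, Matrix.smul_mul, Matrix.mul_smul, smul_smul, mul_comm n 5]
  have h5n : (5 * n) ≠ 0 := mul_ne_zero (by norm_num) hn0
  obtain ⟨z, hz⟩ := idem_trace ((5 * n)⁻¹ • (P * e0 c i)) (by
    rw [Matrix.smul_mul, Matrix.mul_smul, hsq, smul_smul, smul_smul, ]
    congr 1
    field_simp)
  have htr : (P * e0 c i).trace = 2 * (∑ k : K,
      ((Finset.univ.filter fun x : V => k • x = x).card : ℚ)) -
      (∑ k : K, ((Finset.univ.filter fun x : V => k • x ∈ nb c i x).card : ℚ)) + 5 * n := by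
    have h1 : P * e0 c i = (2 : ℚ) • P - adjM c i * P + (n / 10) • allOne V := by
      unfold e0
      rw [mul_add, mul_sub, hPA, Matrix.mul_smul, Matrix.mul_smul, mul_one, hPJ, smul_smul]
      congr 2
      ring
    have h2 : P.trace = ∑ k : K, ((Finset.univ.filter fun x : V => k • x = x).card : ℚ) := by
      rw [hP, Matrix.trace_sum]
      refine Finset.sum_congr rfl fun k _ => ?_
      rw [Matrix.trace, Finset.card_filter, Nat.cast_sum]
      refine Finset.sum_congr rfl fun x _ => ?_
      rw [Matrix.diag_apply, rm_apply]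
      split_ifs <;> simp
    have h3 : (adjM c i * P).trace =
        ∑ k : K, ((Finset.univ.filter fun x : V => k • x ∈ nb c i x).card : ℚ) := by
      rw [hP, Finset.mul_sum, Matrix.trace_sum]
      refine Finset.sum_congr rfl fun k _ => ?_
      rw [Matrix.trace, Finset.card_filter, Nat.cast_sum]
      refine Finset.sum_congr rfl fun x _ => ?_
      rw [Matrix.diag_apply, mul_rm]
      show (if k • x ∈ nb c i x then (1 : ℚ) else 0) = _
      split_ifs <;> simp
    have h4 : (allOne V).trace = 50 := by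
      rw [Matrix.trace]
      have h5 : ∀ x : V, (allOne V).diag x = 1 := fun x => rfl
      simp only [h5]
      rw [Finset.sum_const, Finset.card_univ, hc.card]
      norm_num
    rw [h1, Matrix.trace_add, Matrix.trace_sub, Matrix.trace_smul, Matrix.trace_smul, h2, h3, h4,
      smul_eq_mul, smul_eq_mul]
    ring
  rw [Matrix.trace_smul, htr, smul_eq_mul] at hz
  refine ⟨z - 1, ?_⟩
  have hz' := hz
  field_simp at hz'
  have h6 : ((2 * (∑ k : K, ((Finset.univ.filter fun x : V => k • x = x).card : ℤ)) -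
      (∑ k : K, ((Finset.univ.filter fun x : V => k • x ∈ nb c i x).card : ℤ)) : ℤ) : ℚ) =
      ((5 * (Fintype.card K : ℤ) * (z - 1) : ℤ) : ℚ) := by
    push_cast
    rw [← hn]
    linear_combination hz'
  exact_mod_cast h6

end Pool.Agent.Work.MP_37fea8_co
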