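import Mathlib
import Pool.Agent.Work.MP_37fea8_co.AU.Aut
import Pool.Agent.Work.MP_37fea8_co.AU.TrK

/-!
# AU/Ord3A (M)

The fixed vertices of an automorphism of order three.

PROOFS.  `ord3_nb`: suppose `g v ∈ nb c i v`.  Then `v, g v, g (g v)` are different (`g ^ 3 = 1`, `g v ≠ v`) and
`c (g v) (g (g v)) = s i = i`, `c (g (g v)) v = c (g (g v)) (g (g (g v))) = i`: a triangle.
`ord3_card`: suppose `g ≠ 1`.  Trace lemma for `K = Subgroup.zpowers g` (acting on `V`), `|K| = 3`, colour `i ∈ fx s` (exists: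
`col_mod` with `p = 3` gives `7 ≡ |fx s| mod 3`).  `Keeps` holds because every `k ∈ K` is `g ^ m` (`aut_pow` / `zpow`), `s ^ m i = i`.
For `k = 1` the first sum has `50`; for `k ≠ 1` the fixed points of `k` are those of `g` (`k` is a power of `g` and `g` is a power of
`k`), the second sum vanishes (`ord3_nb` for `k` instead of `g`; for `k = 1` because `x ∉ nb c i x`).  So
`2 (50 + 2 a) = 15 z`, hence `a % 15 = 5`.
-/

set_option autoImplicit false

namespace Pool.Agent.Work.MP_37fea8_co

variable {V : Type} [Fintype V] [DecidableEq V] {c : V → V → Fin 7}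

theorem ord3_nb (hc : Moore c) {g : Equiv.Perm V} {s : Equiv.Perm (Fin 7)} (h : IsAut c g s)
    (hg : g ^ 3 = 1) {i : Fin 7} (hi : s i = i) (v : V) : g v ∉ nb c i v := by
  intro hv
  rw [mem_nb] at hv
  have h3 : g (g (g v)) = v := by
    have h4 : (g ^ 3) v = v := by rw [hg]; rfl
    exact h4
  have h5 : g (g v) ≠ g v := fun h6 => hv.1 (g.injective h6)
  have h6 : g (g v) ≠ v := fun h7 => by
    have h8 : g (g (g v)) = g v := by rw [h7]
    rw [h3] at h8
    exact hv.1 h8.symm
  have h7 : c (g v) (g (g v)) = i := by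
    rw [h v (g v) hv.1.symm, hv.2, hi]
  have h8 : c (g (g v)) v = i := by
    have h9 := h (g v) (g (g v)) h5.symm
    rw [h7, hi, h3] at h9
    exact h9
  have h9 := hc.tri v (g v) (g (g v)) hv.1.symm h5.symm h6.symm (hv.2.trans h7.symm)
  rw [hv.2, hc.symm v (g (g v)), h8] at h9
  exact h9 rfl

theorem ord3_card (hc : Moore c) {g : Equiv.Perm V} {s : Equiv.Perm (Fin 7)} (h : IsAut c g s)
    (hg : g ^ 3 = 1) (hs : s ^ 3 = 1) (hne : g ≠ 1) : (fx g).card % 15 = 5 := by
  classical
  have h1 : ∃ i, s i = i := by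
    have h2 := col_mod (p := 3) Nat.prime_three hs
    have h3 : (fx s).card ≠ 0 := by
      intro h4
      rw [h4] at h2
      exact absurd h2 (by decide)
    obtain ⟨i, hi⟩ := Finset.card_ne_zero.1 h3
    unfold fx at hi
    rw [Finset.mem_filter] at hi
    exact ⟨i, hi.2⟩
  obtain ⟨i, hi⟩ := h1
  have hK : ∀ k : Subgroup.zpowers g, (k : Equiv.Perm V) = 1 ∨ (k : Equiv.Perm V) = g ∨
      (k : Equiv.Perm V) = g ^ 2 := by
    rintro ⟨k, hk⟩
    obtain ⟨n, rfl⟩ := Subgroup.mem_zpowers_iff.1 hk
    show g ^ n = 1 ∨ g ^ n = g ∨ g ^ n = g ^ 2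
    have h2 : g ^ n = g ^ (n % 3) := by
      conv_lhs => rw [← Int.mul_ediv_add_emod n 3]
      rw [zpow_add, zpow_mul]
      have h3 : g ^ (3 : ℤ) = 1 := by
        have h4 : g ^ (3 : ℤ) = g ^ (3 : ℕ) := by norm_cast
        rw [h4, hg]
      rw [h3, one_zpow, one_mul]
    have h3 : 0 ≤ n % 3 := Int.emod_nonneg _ (by norm_num)
    have h4 : n % 3 < 3 := Int.emod_lt_of_pos _ (by norm_num)
    rw [h2]
    generalize n % 3 = r at *
    interval_cases r
    · left
      exact zpow_zero g
    · right; left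
      exact zpow_one g
    · right; right
      norm_cast
  have hAut : ∀ k : Subgroup.zpowers g, ∃ t : Equiv.Perm (Fin 7), IsAut c (k : Equiv.Perm V) t ∧
      t i = i := by
    intro k
    rcases hK k with h2 | h2 | h2
    · exact ⟨1, by rw [h2]; exact fun _ _ _ => rfl, rfl⟩
    · exact ⟨s, by rw [h2]; exact h, hi⟩
    · refine ⟨s ^ 2, by rw [h2]; exact aut_pow h 2, ?_⟩
      show s (s i) = i
      rw [hi, hi]
  have hpow : ∀ k : Subgroup.zpowers g, (k : Equiv.Perm V) ^ 3 = 1 := by
    intro k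
    rcases hK k with h2 | h2 | h2
    · rw [h2, one_pow]
    · rw [h2, hg]
    · rw [h2, ← pow_mul, mul_comm, pow_mul, hg, one_pow]
  haveI : Fintype (Subgroup.zpowers g) := Fintype.ofFinite _
  have hcard : Fintype.card (Subgroup.zpowers g) = 3 := by
    rw [← Nat.card_eq_fintype_card, Nat.card_zpowers]
    haveI : Fact (Nat.Prime 3) := ⟨Nat.prime_three⟩
    exact orderOf_eq_prime hg hne
  have hkeep : Keeps c (Subgroup.zpowers g) i := by
    intro k x y hxy
    obtain ⟨t, ht, hti⟩ := hAut k
    have h2 : c (k • x) (k • y) = t (c x y) := ht x y hxy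
    rw [h2]
    exact ⟨fun h3 => t.injective (h3.trans hti.symm), fun h3 => by rw [h3, hti]⟩
  obtain ⟨z, hz⟩ := trace_dvd hc (Subgroup.zpowers g) hkeep
  have hsum2 : ∑ k : Subgroup.zpowers g,
      ((Finset.univ.filter fun x : V => k • x ∈ nb c i x).card : ℤ) = 0 := by
    refine Finset.sum_eq_zero fun k _ => ?_
    obtain ⟨t, ht, hti⟩ := hAut k
    rw [Nat.cast_eq_zero, Finset.card_eq_zero, Finset.filter_eq_empty_iff]
    intro x _
    exact ord3_nb hc ht (hpow k) hti x
  have hfix : ∀ k : Subgroup.zpowers g, k ≠ 1 →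
      (Finset.univ.filter fun x : V => k • x = x) = fx g := by
    intro k hk
    unfold fx
    refine Finset.filter_congr fun x _ => ?_
    show (k : Equiv.Perm V) x = x ↔ g x = x
    rcases hK k with h2 | h2 | h2
    · exact absurd (Subtype.ext h2) hk
    · rw [h2]
    · rw [h2]
      show g (g x) = x ↔ g x = x
      constructor
      · intro h3
        have h4 : (g ^ 3) x = x := by rw [hg]; rfl
        have h5 : g (g (g x)) = x := h4
        rwa [h3] at h5
      · intro h3
        rw [h3, h3]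
  have hone : (Finset.univ.filter fun x : V => (1 : Subgroup.zpowers g) • x = x).card = 50 := by
    rw [← hc.card, ← Finset.card_univ]
    exact congrArg Finset.card (Finset.filter_true_of_mem fun x _ => one_smul _ x)
  have hsum1 : ∑ k : Subgroup.zpowers g,
      ((Finset.univ.filter fun x : V => k • x = x).card : ℤ) = 50 + 2 * ((fx g).card : ℤ) := by
    rw [← Finset.add_sum_erase Finset.univ _ (Finset.mem_univ (1 : Subgroup.zpowers g)), hone]
    have h2 : ∑ k ∈ Finset.univ.erase (1 : Subgroup.zpowers g),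
        ((Finset.univ.filter fun x : V => k • x = x).card : ℤ) =
        ∑ k ∈ Finset.univ.erase (1 : Subgroup.zpowers g), ((fx g).card : ℤ) := by
      refine Finset.sum_congr rfl fun k hk => ?_
      rw [hfix k (Finset.ne_of_mem_erase hk)]
    rw [h2, Finset.sum_const, Finset.card_erase_of_mem (Finset.mem_univ _), Finset.card_univ,
      hcard]
    norm_num
  rw [hsum1, hsum2, hcard] at hz
  omega

end Pool.Agent.Work.MP_37fea8_co
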