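import Mathlib
import Pool.Agent.Work.MP_37fea8_co.AU.Bas

/-!
# AU/RegA (M)

Non-adjacent vertices of a closed set have the same degree.

PROOF.  It is enough to prove `≤` (exchange `u` and `v`; `c v u = c u v`).  Let `z ∈ F` be the common neighbour of `u`, `v`
(`hcl`).  For `x ∈ F ∩ nb u`, `x ≠ z`: `x ≠ v` (as `c u v ≠ i`) and `x` is not a neighbour of `v` (`com_eq`, `x ≠ z`), so by
`hcl` there is `x' ∈ F` in `nb x ∩ nb v`.  `x' ≠ z`: otherwise `z ∈ nb x`, `x, z ∈ nb u` (`no_tri`).  The map `x ↦ x'` from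
`(F ∩ nb u) \ {z}` to `(F ∩ nb v) \ {z}` is injective: if `x₁' = x₂' = y`, `x₁ ≠ x₂`, then `y` and `u` are common neighbours
of `x₁`, `x₂`, so `y = u` (`com_eq`), but `y ∈ nb v`, so `c u v = i`.  `z` belongs to both sets.
-/

set_option autoImplicit false

namespace Pool.Agent.Work.MP_37fea8_co

variable {V : Type} [Fintype V] [DecidableEq V] {c : V → V → Fin 7}

private theorem regA_le (hc : Moore c) (i : Fin 7) (F : Finset V)
    (hcl : ∀ u ∈ F, ∀ v ∈ F, u ≠ v → c u v ≠ i → ∃ z ∈ F, z ∈ nb c i u ∧ z ∈ nb c i v)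
    {u v : V} (hu : u ∈ F) (hv : v ∈ F) (huv : u ≠ v) (hi : c u v ≠ i) :
    (F ∩ nb c i u).card ≤ (F ∩ nb c i v).card := by
  classical
  obtain ⟨z, hzF, hzu, hzv⟩ := hcl u hu v hv huv hi
  have huv' : v ∉ nb c i u := fun h => hi (mem_nb.mp h).2
  have hex : ∀ x, ∃ x', x ∈ (F ∩ nb c i u).erase z → x' ∈ F ∧ x' ∈ nb c i x ∧ x' ∈ nb c i v := by
    intro x
    by_cases hx : x ∈ (F ∩ nb c i u).erase z
    · obtain ⟨hxz, hx'⟩ := Finset.mem_erase.mp hx
      obtain ⟨hxF, hxu⟩ := Finset.mem_inter.mp hx'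
      have hxv : x ≠ v := by
        rintro rfl
        exact huv' hxu
      have hxc : c x v ≠ i := by
        intro h
        have h1 : v ∈ nb c i x := mem_nb.mpr ⟨hxv.symm, h⟩
        have h2 : x ∈ nb c i v := (nb_symm hc).mp h1
        exact hxz (com_eq hc huv hxu h2 hzu hzv)
      obtain ⟨x', h1, h2, h3⟩ := hcl x hxF v hv hxv hxc
      exact ⟨x', fun _ => ⟨h1, h2, h3⟩⟩
    · exact ⟨x, fun h => absurd h hx⟩
  choose f hf using hex
  have hz1 : z ∈ F ∩ nb c i u := Finset.mem_inter.mpr ⟨hzF, hzu⟩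
  have hz2 : z ∈ F ∩ nb c i v := Finset.mem_inter.mpr ⟨hzF, hzv⟩
  rw [← Finset.card_erase_add_one hz1, ← Finset.card_erase_add_one hz2]
  refine Nat.succ_le_succ (Finset.card_le_card_of_injOn f ?_ ?_)
  · intro x hx
    obtain ⟨h1, h2, h3⟩ := hf x hx
    obtain ⟨hxz, hx'⟩ := Finset.mem_erase.mp hx
    obtain ⟨hxF, hxu⟩ := Finset.mem_inter.mp hx'
    refine Finset.mem_coe.mpr (Finset.mem_erase.mpr ⟨?_, Finset.mem_inter.mpr ⟨h1, h3⟩⟩)
    intro h
    rw [h] at h2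
    exact no_tri hc hxu hzu h2
  · intro x hx y hy hxy
    obtain ⟨h1, h2, h3⟩ := hf x hx
    obtain ⟨k1, k2, k3⟩ := hf y hy
    obtain ⟨hxz, hx'⟩ := Finset.mem_erase.mp hx
    obtain ⟨hxF, hxu⟩ := Finset.mem_inter.mp hx'
    obtain ⟨hyz, hy'⟩ := Finset.mem_erase.mp hy
    obtain ⟨hyF, hyu⟩ := Finset.mem_inter.mp hy'
    by_contra hne
    have h4 : f x ∈ nb c i y := by
      rw [hxy]
      exact k2
    have h5 : f x = u := com_eq hc hne h2 h4 ((nb_symm hc).mp hxu) ((nb_symm hc).mp hyu)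
    rw [h5] at h3
    exact huv' ((nb_symm hc).mp h3)

theorem regA (hc : Moore c) (i : Fin 7) (F : Finset V)
    (hcl : ∀ u ∈ F, ∀ v ∈ F, u ≠ v → c u v ≠ i → ∃ z ∈ F, z ∈ nb c i u ∧ z ∈ nb c i v)
    {u v : V} (hu : u ∈ F) (hv : v ∈ F) (huv : u ≠ v) (hi : c u v ≠ i) :
    (F ∩ nb c i u).card = (F ∩ nb c i v).card := by
  refine le_antisymm (regA_le hc i F hcl hu hv huv hi) (regA_le hc i F hcl hv hu huv.symm ?_)
  rw [hc.symm]
  exact hi

end Pool.Agent.Work.MP_37fea8_co
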