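import Mathlib
import Pool.Agent.Work.MP_37fea8_co.AU.RegA

/-!
# AU/RegB (M)

Closed sets with degrees at least two are regular, `|F| = 1 + d ^ 2`.

PROOF.  Equal degrees: for `c u v ≠ i` this is `regA`.  Let `c u v = i`, `u ≠ v`.  Choose `x ∈ F ∩ nb u`, `x ≠ v`, and
`y ∈ F ∩ nb v`, `y ≠ u` (degrees at least `2`).  `x` is not a neighbour of `v` and `y` is not a neighbour of `u` (`no_tri`), `x ≠ y`
(the same), and `y ∉ nb x`: otherwise `x` and `v` would be two common neighbours of `u` and `y` (`com_eq`).  By `regA`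
`d u = d y = d x = d v`.
Count: fix `u ∈ F`.  `F \ {u}` is the disjoint union of `F ∩ nb u` (`d` elements) and of the sets `(F ∩ nb z) \ {u}` for
`z ∈ F ∩ nb u` (each has `d - 1` elements, consists of vertices not in `nb u` (`no_tri`), they are pairwise disjoint
(`com_eq`), and each `w ∈ F`, `w ≠ u`, `w ∉ nb u` is in one of them by `hcl`).  So `|F| = 1 + d + d (d - 1)`.
-/

set_option autoImplicit false

namespace Pool.Agent.Work.MP_37fea8_co

variable {V : Type} [Fintype V] [DecidableEq V] {c : V → V → Fin 7}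

theorem reg (hc : Moore c) (i : Fin 7) (F : Finset V) (hne : F.Nonempty)
    (hcl : ∀ u ∈ F, ∀ v ∈ F, u ≠ v → c u v ≠ i → ∃ z ∈ F, z ∈ nb c i u ∧ z ∈ nb c i v)
    (hd : ∀ u ∈ F, 2 ≤ (F ∩ nb c i u).card) :
    ∃ d : ℕ, (∀ u ∈ F, (F ∩ nb c i u).card = d) ∧ F.card = 1 + d ^ 2 := by
  classical
  have hother : ∀ u ∈ F, ∀ v : V, ∃ x ∈ F ∩ nb c i u, x ≠ v := by
    intro u hu v
    have h1 : 0 < ((F ∩ nb c i u).erase v).card := by
      have h2 := Finset.pred_card_le_card_erase (s := F ∩ nb c i u) (a := v)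
      have h3 := hd u hu
      omega
    obtain ⟨x, hx⟩ := Finset.card_pos.mp h1
    exact ⟨x, Finset.mem_of_mem_erase hx, Finset.ne_of_mem_erase hx⟩
  have heq : ∀ u ∈ F, ∀ v ∈ F, (F ∩ nb c i u).card = (F ∩ nb c i v).card := by
    intro u hu v hv
    by_cases huv : u = v
    · rw [huv]
    by_cases hi : c u v = i
    · have hvu : v ∈ nb c i u := mem_nb.mpr ⟨Ne.symm huv, hi⟩
      have huv' : u ∈ nb c i v := (nb_symm hc).mp hvu
      obtain ⟨x, hx, hxv⟩ := hother u hu v
      obtain ⟨y, hy, hyu⟩ := hother v hv u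
      obtain ⟨hxF, hxu⟩ := Finset.mem_inter.mp hx
      obtain ⟨hyF, hyv⟩ := Finset.mem_inter.mp hy
      have h1 : x ∉ nb c i v := no_tri hc hvu hxu
      have h2 : y ∉ nb c i u := no_tri hc huv' hyv
      have hxy : x ≠ y := by
        rintro rfl
        exact h1 hyv
      have h3 : y ∉ nb c i x := by
        intro h
        have h4 : x = v := com_eq hc (Ne.symm hyu) hxu ((nb_symm hc).mp h) hvu
          ((nb_symm hc).mp hyv)
        exact hxv h4
      have e1 : (F ∩ nb c i u).card = (F ∩ nb c i y).card := by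
        refine regA hc i F hcl hu hyF (Ne.symm hyu) fun h => h2 (mem_nb.mpr ⟨hyu, h⟩)
      have e2 : (F ∩ nb c i y).card = (F ∩ nb c i x).card := by
        refine regA hc i F hcl hyF hxF (Ne.symm hxy) fun h => h3 ?_
        exact (nb_symm hc).mp (mem_nb.mpr ⟨hxy, h⟩)
      have e3 : (F ∩ nb c i x).card = (F ∩ nb c i v).card := by
        refine regA hc i F hcl hxF hv hxv fun h => h1 ?_
        exact (nb_symm hc).mp (mem_nb.mpr ⟨Ne.symm hxv, h⟩)
      rw [e1, e2, e3]
    · exact regA hc i F hcl hu hv huv hi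
  obtain ⟨u, hu⟩ := hne
  refine ⟨(F ∩ nb c i u).card, fun v hv => heq v hv u hu, ?_⟩
  set d := (F ∩ nb c i u).card with hdd
  have hd2 : 2 ≤ d := hd u hu
  -- the decomposition
  have hdec : F = insert u ((F ∩ nb c i u) ∪
      (F ∩ nb c i u).biUnion fun z => (F ∩ nb c i z).erase u) := by
    ext w
    rw [Finset.mem_insert, Finset.mem_union, Finset.mem_biUnion]
    constructor
    · intro hw
      by_cases hwu : w = u
      · exact Or.inl hwu
      · right
        by_cases hwi : w ∈ nb c i u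
        · exact Or.inl (Finset.mem_inter.mpr ⟨hw, hwi⟩)
        · right
          obtain ⟨z, hz, hz1, hz2⟩ := hcl u hu w hw (Ne.symm hwu) fun h =>
            hwi (mem_nb.mpr ⟨hwu, h⟩)
          exact ⟨z, Finset.mem_inter.mpr ⟨hz, hz1⟩, Finset.mem_erase.mpr ⟨hwu,
            Finset.mem_inter.mpr ⟨hw, (nb_symm hc).mp hz2⟩⟩⟩
    · rintro (h | h | ⟨z, hz, h⟩)
      · rw [h]; exact hu
      · exact (Finset.mem_inter.mp h).1
      · exact (Finset.mem_inter.mp (Finset.mem_of_mem_erase h)).1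
  have hdis1 : u ∉ (F ∩ nb c i u) ∪
      (F ∩ nb c i u).biUnion fun z => (F ∩ nb c i z).erase u := by
    rw [Finset.mem_union, Finset.mem_biUnion]
    rintro (h | ⟨z, hz, h⟩)
    · exact (mem_nb.mp (Finset.mem_inter.mp h).2).1 rfl
    · exact (Finset.mem_erase.mp h).1 rfl
  have hdis2 : Disjoint (F ∩ nb c i u)
      ((F ∩ nb c i u).biUnion fun z => (F ∩ nb c i z).erase u) := by
    rw [Finset.disjoint_left]
    intro w hw hw'
    rw [Finset.mem_biUnion] at hw'
    obtain ⟨z, hz, h⟩ := hw'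
    exact no_tri hc (Finset.mem_inter.mp hz).2 (Finset.mem_inter.mp hw).2
      (Finset.mem_inter.mp (Finset.mem_of_mem_erase h)).2
  have hdis3 : ((F ∩ nb c i u).biUnion fun z => (F ∩ nb c i z).erase u).card =
      ∑ z ∈ F ∩ nb c i u, ((F ∩ nb c i z).erase u).card := by
    refine Finset.card_biUnion fun z hz z' hz' hne => ?_
    rw [Function.onFun, Finset.disjoint_left]
    intro w hw hw'
    obtain ⟨h1, h2⟩ := Finset.mem_erase.mp hw
    have h3 := (Finset.mem_inter.mp h2).2
    have h4 := (Finset.mem_inter.mp (Finset.mem_of_mem_erase hw')).2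
    have h5 := (nb_symm hc).mp (Finset.mem_inter.mp hz).2
    have h6 := (nb_symm hc).mp (Finset.mem_inter.mp hz').2
    exact h1 (com_eq hc hne h3 h4 h5 h6)
  have hcard : ∀ z ∈ F ∩ nb c i u, ((F ∩ nb c i z).erase u).card = d - 1 := by
    intro z hz
    obtain ⟨hzF, hzu⟩ := Finset.mem_inter.mp hz
    rw [Finset.card_erase_of_mem (Finset.mem_inter.mpr ⟨hu, (nb_symm hc).mp hzu⟩),
      heq z hzF u hu]
  have htot : F.card = d + d * (d - 1) + 1 := by
    have h1 := congrArg Finset.card hdec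
    rw [Finset.card_insert_of_notMem hdis1, Finset.card_union_of_disjoint hdis2, hdis3,
      Finset.sum_congr rfl hcard, Finset.sum_const, smul_eq_mul] at h1
    exact h1
  rw [htot]
  obtain ⟨e, he⟩ : ∃ e, d = 2 + e := ⟨d - 2, by omega⟩
  rw [he, show 2 + e - 1 = e + 1 by omega]
  ring

end Pool.Agent.Work.MP_37fea8_co
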