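import Mathlib
import Pool.Agent.Work.MP_37fea8_co.AU.Ord3A
import Pool.Agent.Work.MP_37fea8_co.AU.RegB

/-!
# AU/Ord3 (M)

There is no automorphism of order three.

PROOF.  Suppose `g ≠ 1`.  `a = |fx g|`, `t = |fx s|`; `a % 15 = 5` (`ord3_card`), `a ≤ 50`, and `a ≠ 50` (`g ≠ 1`), so
`a ∈ {5, 20, 35}`.  `t % 3 = 1` (`col_mod`), and `t ≠ 7`: otherwise for `g v ≠ v` the colour `i = c v (g v)` is fixed and
`g v ∈ nb c i v`, against `ord3_nb`.  So `t ∈ {1, 4}`.
`t = 1`: three different points of `fx g` (`a ≥ 5`); all three colours are in `fx s` (`aut_fix_col`), so they are equal: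
contradiction to `Moore.tri`.
`t = 4`: for `u ∈ fx g`, `i ∈ fx s` let `d i u = |fx g ∩ nb c i u|`; `d i u % 3 = 1` (`deg_mod`) and `d i u ≤ 7`, so it is `1, 4` or `7`.
Suppose `d i u = 1`, `fx g ∩ nb c i u = {w}`.  Every `v ∈ fx g`, `v ≠ w`, is in `nb c i w`: for `v = u` by `nb_symm`; for `v ≠ u`
we have `v ∉ nb c i u`, so there is a common neighbour of `u` and `v` (`com_ex`), it is fixed (`aut_com`), so it is `w`.
So `d i w = a - 1` and by `sum_fix` `d j w = 0` for all `j ∈ fx s`, `j ≠ i` (there is one as `t = 4`), against `d j w % 3 = 1`.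
So all `d i u ≥ 4`; `reg` for one `i ∈ fx s` (closedness: `com_ex` and `aut_com`) gives `a = 1 + d ^ 2` with `d ≥ 4`, `d ≤ 7`:
`a ∈ {17, 26, 37, 50}`: contradiction.
-/

set_option autoImplicit false

namespace Pool.Agent.Work.MP_37fea8_co

variable {V : Type} [Fintype V] [DecidableEq V] {c : V → V → Fin 7}

theorem ord3 (hc : Moore c) {g : Equiv.Perm V} {s : Equiv.Perm (Fin 7)} (h : IsAut c g s)
    (hg : g ^ 3 = 1) (hs : s ^ 3 = 1) : g = 1 := by
  classical
  by_contra hne
  have h15 := ord3_card hc h hg hs hne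
  have h50 : (fx g).card ≤ 50 := by
    rw [← hc.card]
    exact Finset.card_le_univ _
  have hmg : ∀ x, x ∈ fx g ↔ g x = x := fun x => by simp [fx]
  have hms : ∀ x, x ∈ fx s ↔ s x = x := fun x => by simp [fx]
  have hn50 : (fx g).card ≠ 50 := by
    intro h1
    apply hne
    have h2 : fx g = Finset.univ := by
      rw [← Finset.card_eq_iff_eq_univ, h1, hc.card]
    ext x
    have h3 : x ∈ fx g := by rw [h2]; exact Finset.mem_univ _
    rw [(hmg x).1 h3]
    rfl
  have ht7 : (fx s).card ≤ 7 := by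
    have := Finset.card_le_univ (fx s)
    rwa [Fintype.card_fin] at this
  have ht3 : (fx s).card % 3 = 1 := by
    have h1 := col_mod (p := 3) Nat.prime_three hs
    unfold Nat.ModEq at h1
    omega
  have hn7 : (fx s).card ≠ 7 := by
    intro h1
    have h2 : fx s = Finset.univ := by
      rw [← Finset.card_eq_iff_eq_univ, h1, Fintype.card_fin]
    obtain ⟨v, hv⟩ : ∃ v, g v ≠ v := by
      by_contra hcon
      push Not at hcon
      exact hne (by ext x; rw [hcon x]; rfl)
    have h3 : c v (g v) ∈ fx s := by rw [h2]; exact Finset.mem_univ _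
    exact ord3_nb hc h hg ((hms _).1 h3) v (mem_nb.2 ⟨hv, rfl⟩)
  have h14 : (fx s).card = 1 ∨ (fx s).card = 4 := by omega
  rcases h14 with h1 | h4
  · obtain ⟨i₀, hi₀⟩ := Finset.card_eq_one.1 h1
    have h3 : 2 < (fx g).card := by omega
    obtain ⟨x, hx, y, hy, z, hz, hxy, hxz, hyz⟩ := Finset.two_lt_card.1 h3
    have hcol : ∀ u v, u ∈ fx g → v ∈ fx g → u ≠ v → c u v = i₀ := by
      intro u v hu hv huv
      have h5 := aut_fix_col h ((hmg u).1 hu) ((hmg v).1 hv) huv
      have h6 : c u v ∈ fx s := (hms _).2 h5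
      rw [hi₀, Finset.mem_singleton] at h6
      exact h6
    exact hc.tri x y z hxy hyz hxz ((hcol x y hx hy hxy).trans (hcol y z hy hz hyz).symm)
      ((hcol x y hx hy hxy).trans (hcol x z hx hz hxz).symm)
  · have hdm : ∀ i ∈ fx s, ∀ u ∈ fx g, (fx g ∩ nb c i u).card % 3 = 1 := by
      intro i hi u hu
      have h5 := deg_mod hc h Nat.prime_three hg ((hms _).1 hi) ((hmg _).1 hu)
      unfold Nat.ModEq at h5
      omega
    have hd7 : ∀ i u, (fx g ∩ nb c i u).card ≤ 7 := by
      intro i u
      rw [← nb_card hc i u]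
      exact Finset.card_le_card Finset.inter_subset_right
    have hd1 : ∀ i ∈ fx s, ∀ u ∈ fx g, (fx g ∩ nb c i u).card ≠ 1 := by
      intro i hi u hu hone
      obtain ⟨w, hw⟩ := Finset.card_eq_one.1 hone
      have hwm : w ∈ fx g ∩ nb c i u := by rw [hw]; exact Finset.mem_singleton_self _
      obtain ⟨hwg, hwn⟩ := Finset.mem_inter.1 hwm
      have hall : (fx g).erase w ⊆ fx g ∩ nb c i w := by
        intro v hv
        obtain ⟨hvw, hvg⟩ := Finset.mem_erase.1 hv
        refine Finset.mem_inter.2 ⟨hvg, ?_⟩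
        by_cases hvu : v = u
        · rw [hvu]
          exact (nb_symm hc).1 hwn
        · have h5 : v ∉ nb c i u := by
            intro h6
            have h7 : v ∈ fx g ∩ nb c i u := Finset.mem_inter.2 ⟨hvg, h6⟩
            rw [hw, Finset.mem_singleton] at h7
            exact hvw h7
          obtain ⟨z, hz1, hz2⟩ := com_ex hc (Ne.symm hvu) h5
          have h6 := aut_com hc h ((hms _).1 hi) ((hmg _).1 hu) ((hmg _).1 hvg) (Ne.symm hvu) hz1 hz2
          have h7 : z ∈ fx g ∩ nb c i u := Finset.mem_inter.2 ⟨(hmg _).2 h6, hz1⟩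
          rw [hw, Finset.mem_singleton] at h7
          rw [h7] at hz2
          exact (nb_symm hc).1 hz2
      have h5 := Finset.card_le_card hall
      rw [Finset.card_erase_of_mem hwg] at h5
      have h6 := sum_fix hc h ((hmg _).1 hwg)
      obtain ⟨j, hj, hji⟩ := Finset.exists_mem_ne (by omega : 1 < (fx s).card) i
      have h7 : ∑ k ∈ {i, j}, (fx g ∩ nb c k w).card ≤ ∑ k ∈ fx s, (fx g ∩ nb c k w).card := by
        refine Finset.sum_le_sum_of_subset ?_
        intro k hk
        rw [Finset.mem_insert, Finset.mem_singleton] at hk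
        rcases hk with rfl | rfl
        · exact hi
        · exact hj
      rw [Finset.sum_pair hji.symm] at h7
      have h8 := hdm j hj w hwg
      omega
    obtain ⟨i, hi⟩ : (fx s).Nonempty := by
      rw [← Finset.card_pos]
      omega
    have hne' : (fx g).Nonempty := by
      rw [← Finset.card_pos]
      omega
    obtain ⟨d, hd, hcard⟩ := reg hc i (fx g) hne' (by
      intro u hu v hv huv hcuv
      obtain ⟨z, hz1, hz2⟩ := com_ex hc huv (fun h5 => hcuv (mem_nb.1 h5).2)
      refine ⟨z, (hmg _).2 ?_, hz1, hz2⟩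
      exact aut_com hc h ((hms _).1 hi) ((hmg _).1 hu) ((hmg _).1 hv) huv hz1 hz2) (by
      intro u hu
      have h5 := hdm i hi u hu
      have h6 := hd1 i hi u hu
      omega)
    obtain ⟨u, hu⟩ := hne'
    have h5 := hdm i hi u hu
    have h6 := hd1 i hi u hu
    have h7 := hd7 i u
    rw [hd u hu] at h5 h6 h7
    have h8 : d = 4 ∨ d = 7 := by omega
    rcases h8 with rfl | rfl
    · norm_num at hcard
      omega
    · norm_num at hcard
      omega

end Pool.Agent.Work.MP_37fea8_co
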