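import Mathlib
import Pool.Agent.Work.MP_37fea8_co.AU.Aut
import Pool.Agent.Work.MP_37fea8_co.AU.RegB

/-!
# AU/Ord5 (M)

Automorphisms of order five.

PROOF.  `a = |fx g|`, `t = |fx s|`.  `t % 5 = 2` (`col_mod`), so `t ∈ {2, 7}`.  Suppose `a ≠ 0`.  For `u ∈ fx g`, `i ∈ fx s`:
`|fx g ∩ nb c i u| % 5 = 2` (`deg_mod`), `≤ 7`, so it is `2` or `7`.  `reg` for `F = fx g` (closed by `com_ex`, `aut_com`) and
any `i ∈ fx s`: the degree is constant `d i ∈ {2, 7}` and `a = 1 + (d i) ^ 2`.  `a = 50` would give `g = 1`; so `a = 5`, `d i = 2`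
for all `i ∈ fx s`, and `sum_fix` gives `2 t + 1 = 5`.
-/

set_option autoImplicit false

namespace Pool.Agent.Work.MP_37fea8_co

variable {V : Type} [Fintype V] [DecidableEq V] {c : V → V → Fin 7}

theorem ord5 (hc : Moore c) {g : Equiv.Perm V} {s : Equiv.Perm (Fin 7)} (h : IsAut c g s)
    (hg : g ^ 5 = 1) (hs : s ^ 5 = 1) (hne : g ≠ 1) :
    (fx g).card = 0 ∨ ((fx g).card = 5 ∧ (fx s).card = 2) := by
  have hp : Nat.Prime 5 := by norm_num
  have ht := col_mod hp hs
  have htle : (fx s).card ≤ 7 := by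
    have := Finset.card_le_univ (fx s)
    simpa using this
  unfold Nat.ModEq at ht
  by_cases h0 : (fx g).card = 0
  · exact Or.inl h0
  right
  have hne' : (fx g).Nonempty := Finset.card_pos.1 (Nat.pos_of_ne_zero h0)
  have key : ∀ i ∈ fx s, (fx g).card = 5 ∧ ∀ u ∈ fx g, (fx g ∩ nb c i u).card = 2 := by
    intro i hi
    have hi' : s i = i := mem_fx.1 hi
    have hle : ∀ u ∈ fx g, (fx g ∩ nb c i u).card ≤ 7 := by
      intro u _
      rw [← nb_card hc i u]
      exact Finset.card_le_card Finset.inter_subset_right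
    have hmod : ∀ u ∈ fx g, (fx g ∩ nb c i u).card % 5 = 2 := by
      intro u hu
      have h1 := deg_mod hc h hp hg hi' (mem_fx.1 hu)
      unfold Nat.ModEq at h1
      omega
    obtain ⟨d, hd, hF⟩ := reg hc i (fx g) hne' (by
      intro u hu v hv huv hcuv
      have hvn : v ∉ nb c i u := by
        rw [mem_nb]
        exact fun h' => hcuv h'.2
      obtain ⟨z, hz1, hz2⟩ := com_ex hc huv hvn
      exact ⟨z, mem_fx.2 (aut_com hc h hi' (mem_fx.1 hu) (mem_fx.1 hv) huv hz1 hz2), hz1, hz2⟩)
      (by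
        intro u hu
        have h1 := hmod u hu
        omega)
    obtain ⟨u, hu⟩ := hne'
    have h1 := hle u hu
    have h2 := hmod u hu
    rw [hd u hu] at h1 h2
    have h3 : d = 2 ∨ d = 7 := by omega
    rcases h3 with h3 | h3
    · subst h3
      exact ⟨by rw [hF]; norm_num, hd⟩
    · exfalso
      subst h3
      have h4 : (fx g).card = Fintype.card V := by
        rw [hF, hc.card]
        norm_num
      have h5 : fx g = Finset.univ := Finset.eq_univ_of_card _ h4
      apply hne
      ext x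
      have h6 : x ∈ fx g := by rw [h5]; exact Finset.mem_univ _
      rw [mem_fx.1 h6]
      rfl
  have htpos : (fx s).Nonempty := by
    apply Finset.card_pos.1
    omega
  obtain ⟨i, hi⟩ := htpos
  have h5 := (key i hi).1
  refine ⟨h5, ?_⟩
  obtain ⟨u, hu⟩ := hne'
  have hsum := sum_fix hc h (mem_fx.1 hu)
  rw [Finset.sum_congr rfl fun j hj => (key j hj).2 u hu, Finset.sum_const, h5] at hsum
  simp only [smul_eq_mul] at hsum
  omega

end Pool.Agent.Work.MP_37fea8_co
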