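import Mathlib
import Pool.Agent.Work.MP_37fea8_co.AU.Mod

/-!
# AU/Moore7 (M)

An automorphism of order seven of one Moore graph of degree seven with two fixed vertices is trivial.

PROOF.  `N x = univ.filter (R x)`.  For a fixed vertex `w` the set `N w` is invariant, so `|fx g ∩ N w| ≡ 7 ≡ 0 mod 7`
(`fx_mod`): it is `0` or `7`.  So: (*) if `g w = w` and `N w` contains a fixed vertex, then all vertices of `N w` are fixed.
First there are two adjacent fixed vertices: `u, v` or (if `¬ R u v`) `u` and the unique common neighbour `z` of `u` and `v`, which is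
fixed by uniqueness.  So `N u` is fixed by (*).  For `z ∈ N u` we have `u ∈ N z` fixed, so `N z` is fixed by (*).  Every vertex
`w ≠ u` is in `N u` or has a common neighbour `z` with `u`.  So `g = 1`.
-/

set_option autoImplicit false

namespace Pool.Agent.Work.MP_37fea8_co

private theorem moore7_star {V : Type} [Fintype V] [DecidableEq V] (R : V → V → Prop)
    [DecidableRel R] (hd : ∀ x, (Finset.univ.filter (R x)).card = 7)
    {g : Equiv.Perm V} (hg : g ^ 7 = 1) (hR : ∀ x y, R (g x) (g y) ↔ R x y) {w z : V}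
    (hw : g w = w) (hz : g z = z) (hwz : R w z) : ∀ y, R w y → g y = y := by
  classical
  have hS : ∀ x ∈ Finset.univ.filter (R w), g x ∈ Finset.univ.filter (R w) := by
    intro x hx
    rw [Finset.mem_filter] at hx ⊢
    refine ⟨Finset.mem_univ _, ?_⟩
    have h := (hR w x).2 hx.2
    rwa [hw] at h
  have hmod := fx_mod (p := 7) (by norm_num) hg (Finset.univ.filter (R w)) hS
  rw [hd w] at hmod
  have hpos : 0 < (fx g ∩ Finset.univ.filter (R w)).card := by
    apply Finset.card_pos.2
    exact ⟨z, Finset.mem_inter.2 ⟨mem_fx.2 hz, Finset.mem_filter.2 ⟨Finset.mem_univ _, hwz⟩⟩⟩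
  have hle : (fx g ∩ Finset.univ.filter (R w)).card ≤ 7 := by
    rw [← hd w]
    exact Finset.card_le_card Finset.inter_subset_right
  have hcard : (fx g ∩ Finset.univ.filter (R w)).card = 7 := by
    unfold Nat.ModEq at hmod
    omega
  have heq : fx g ∩ Finset.univ.filter (R w) = Finset.univ.filter (R w) := by
    apply Finset.eq_of_subset_of_card_le Finset.inter_subset_right
    rw [hd w, hcard]
  intro y hy
  have hy' : y ∈ fx g ∩ Finset.univ.filter (R w) := by
    rw [heq]
    exact Finset.mem_filter.2 ⟨Finset.mem_univ _, hy⟩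
  exact mem_fx.1 (Finset.mem_inter.1 hy').1

theorem moore7 {V : Type} [Fintype V] [DecidableEq V] (R : V → V → Prop) [DecidableRel R]
    (hs : ∀ x y, R x y → R y x) (hd : ∀ x, (Finset.univ.filter (R x)).card = 7)
    (hcom : ∀ x y, x ≠ y → ¬ R x y → ∃! z, R x z ∧ R y z) {g : Equiv.Perm V} (hg : g ^ 7 = 1)
    (hR : ∀ x y, R (g x) (g y) ↔ R x y) {u v : V} (hu : g u = u) (hv : g v = v) (huv : u ≠ v) :
    g = 1 := by
  classical
  -- a fixed neighbour of `u`
  obtain ⟨z, hz, huz⟩ : ∃ z, g z = z ∧ R u z := by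
    by_cases h : R u v
    · exact ⟨v, hv, h⟩
    · obtain ⟨z, ⟨h1, h2⟩, h3⟩ := hcom u v huv h
      refine ⟨z, ?_, h1⟩
      apply h3
      constructor
      · have h4 := (hR u z).2 h1
        rwa [hu] at h4
      · have h4 := (hR v z).2 h2
        rwa [hv] at h4
  have hNu := moore7_star R hd hg hR hu hz huz
  have hNN : ∀ z, R u z → ∀ y, R z y → g y = y := by
    intro z huz
    exact moore7_star R hd hg hR (hNu z huz) hu (hs _ _ huz)
  ext w
  rw [Equiv.Perm.one_apply]
  by_cases hwu : u = w
  · rw [← hwu, hu]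
  by_cases hw : R u w
  · exact hNu w hw
  · obtain ⟨z, ⟨h1, h2⟩, -⟩ := hcom u w hwu hw
    exact hNN z h1 w (hs _ _ h2)

end Pool.Agent.Work.MP_37fea8_co
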