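import Mathlib
import Pool.Agent.Work.MP_37fea8_co.AU.Aut
import Pool.Agent.Work.MP_37fea8_co.AU.Moore7

/-!
# AU/Ord7 (S-M)

An automorphism of order seven has exactly one fixed vertex.

PROOF.  `|fx g| ≡ 50 ≡ 1 mod 7` (`fix_mod`), so there is a fixed vertex.  Suppose `u ≠ v` are fixed.  `s` fixes the colour `c u v`
(`aut_fix_col`) and `|fx s| ≡ 7 ≡ 0 mod 7` (`col_mod`), so `|fx s| = 7`, `s = 1`.  `moore7` for `R x y := y ∈ nb c 0 x` gives
`g = 1`: contradiction.
-/

set_option autoImplicit false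

namespace Pool.Agent.Work.MP_37fea8_co

variable {V : Type} [Fintype V] [DecidableEq V] {c : V → V → Fin 7}

theorem ord7 (hc : Moore c) {g : Equiv.Perm V} {s : Equiv.Perm (Fin 7)} (h : IsAut c g s)
    (hg : g ^ 7 = 1) (hs : s ^ 7 = 1) (hne : g ≠ 1) : (fx g).card = 1 := by
  have hp : Nat.Prime 7 := by norm_num
  have h50 := fix_mod hc hp hg
  unfold Nat.ModEq at h50
  have h7 := col_mod hp hs
  unfold Nat.ModEq at h7
  by_contra hcard
  have h2 : 1 < (fx g).card := by omega
  obtain ⟨u, hu, v, hv, huv⟩ := Finset.one_lt_card.1 h2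
  have hu' := mem_fx.1 hu
  have hv' := mem_fx.1 hv
  have hcol : c u v ∈ fx s := mem_fx.2 (aut_fix_col h hu' hv' huv)
  have hpos : 0 < (fx s).card := Finset.card_pos.2 ⟨_, hcol⟩
  have hle : (fx s).card ≤ 7 := by
    have := Finset.card_le_univ (fx s)
    simpa using this
  have hs7 : (fx s).card = Fintype.card (Fin 7) := by
    rw [Fintype.card_fin]
    omega
  have hsu : fx s = Finset.univ := Finset.eq_univ_of_card _ hs7
  have hs0 : ∀ i, s i = i := fun i => mem_fx.1 (by rw [hsu]; exact Finset.mem_univ _)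
  apply hne
  have hnbf : ∀ x, Finset.univ.filter (fun y => y ∈ nb c 0 x) = nb c 0 x := by
    intro x
    ext y
    rw [Finset.mem_filter]
    exact and_iff_right (Finset.mem_univ _)
  refine moore7 (fun x y => y ∈ nb c 0 x) (fun x y hxy => (nb_symm hc).1 hxy) ?_ ?_ hg ?_ hu' hv' huv
  · intro x
    rw [hnbf, nb_card hc]
  · intro x y hxy hn
    obtain ⟨z, hz, hz'⟩ := com_ex hc hxy hn
    exact ⟨z, ⟨hz, hz'⟩, fun w hw => com_eq hc hxy hw.1 hw.2 hz hz'⟩
  · intro x y
    have h1 := aut_mem_nb (c := c) h (i := 0) (x := x) (y := y)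
    rwa [hs0 0] at h1

end Pool.Agent.Work.MP_37fea8_co
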