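import Mathlib
import Pool.Agent.Work.MP_37fea8_co.AU.Aut

/-!
# AU/OrdP (S-M)

There is no automorphism of prime order `p > 7`.

PROOF.  `col_mod`: `7 ≡ |fx s| mod p`, `|fx s| ≤ 7 < p`, so `|fx s| = 7`: all colours are fixed.  If `fx g` is empty then
`p ∣ 50` (`fix_mod`), so `p ∈ {2, 5}`: contradiction.  Let `u ∈ fx g`.  For every colour `i`: `7 ≡ |fx g ∩ nb c i u| mod p`
(`deg_mod`), so `nb c i u ⊆ fx g`.  Every `v ≠ u` is in `nb c (c u v) u`.  So `g = 1`.
-/

set_option autoImplicit false

namespace Pool.Agent.Work.MP_37fea8_co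

variable {V : Type} [Fintype V] [DecidableEq V] {c : V → V → Fin 7}

theorem ordP (hc : Moore c) {g : Equiv.Perm V} {s : Equiv.Perm (Fin 7)} (h : IsAut c g s) {p : ℕ}
    (hp : p.Prime) (h7 : 7 < p) (hg : g ^ p = 1) (hs : s ^ p = 1) : g = 1 := by
  have hfx : ∀ i : Fin 7, s i = i := by
    have h1 := col_mod hp hs
    have h2 : (fx s).card ≤ 7 := by
      have h3 := Finset.card_le_univ (fx s)
      rw [Fintype.card_fin] at h3
      exact h3
    have h3 : 7 = (fx s).card := Nat.ModEq.eq_of_lt_of_lt h1 h7 (by omega)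
    have h4 : fx s = Finset.univ := by
      apply Finset.eq_univ_of_card
      rw [← h3, Fintype.card_fin]
    intro i
    have h5 : i ∈ fx s := by
      rw [h4]
      exact Finset.mem_univ i
    exact (Finset.mem_filter.1 h5).2
  have hne : (fx g).Nonempty := by
    rw [Finset.nonempty_iff_ne_empty]
    intro h0
    have h1 := fix_mod hc hp hg
    rw [h0, Finset.card_empty] at h1
    have h2 : p ∣ 2 * (5 * 5) := (Nat.modEq_zero_iff_dvd.1 h1)
    rcases (Nat.Prime.dvd_mul hp).1 h2 with h3 | h3
    · have := Nat.le_of_dvd (by norm_num) h3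
      omega
    · rcases (Nat.Prime.dvd_mul hp).1 h3 with h4 | h4 <;>
      · have := Nat.le_of_dvd (by norm_num) h4
        omega
  obtain ⟨u, hu⟩ := hne
  have hu' : g u = u := (Finset.mem_filter.1 hu).2
  have hsub : ∀ i, nb c i u ⊆ fx g := by
    intro i
    have h1 := deg_mod hc h hp hg (hfx i) hu'
    have h2 : (fx g ∩ nb c i u).card ≤ 7 := by
      rw [← nb_card hc i u]
      exact Finset.card_le_card Finset.inter_subset_right
    have h3 : 7 = (fx g ∩ nb c i u).card := Nat.ModEq.eq_of_lt_of_lt h1 h7 (by omega)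
    have h4 : fx g ∩ nb c i u = nb c i u := by
      apply Finset.eq_of_subset_of_card_le Finset.inter_subset_right
      rw [← h3, nb_card hc]
    rw [← h4]
    exact Finset.inter_subset_left
  ext v
  show g v = v
  by_cases hv : v = u
  · rw [hv, hu']
  · have h1 := hsub (c u v) (mem_nb.2 ⟨hv, rfl⟩)
    exact (Finset.mem_filter.1 h1).2

end Pool.Agent.Work.MP_37fea8_co
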