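import Mathlib
import Pool.Agent.Work.MP_37fea8_co.AU.Ord2
import Pool.Agent.Work.MP_37fea8_co.AU.Ord3
import Pool.Agent.Work.MP_37fea8_co.AU.OrdP
import Pool.Agent.Work.MP_37fea8_co.AU.Ord5
import Pool.Agent.Work.MP_37fea8_co.AU.Ord7

/-!
# AU/ActL (M)

The results on single elements for a group acting on vertices and colours.

PROOFS.  `act_aut`: `Act.act` (the permutations are `MulAction.toPerm h`).  For `h ^ p = 1` both permutations have `p`-th power `1`
(`MulAction.toPerm` is a homomorphism: `MulAction.toPermHom`), and `MulAction.toPerm h = 1` on the vertices implies `h = 1`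
(`Act.faith`).  `act_prime`: `ord2`, `ord3`, `ordP`; primes `≤ 7` are `2, 3, 5, 7`.  `act5`: `ord5`; `act7`: `ord7`.
`act_sub`: restrict the action to a subgroup.
-/

set_option autoImplicit false

namespace Pool.Agent.Work.MP_37fea8_co

variable {V : Type} [Fintype V] [DecidableEq V] {c : V → V → Fin 7}

variable {H : Type} [Group H] [MulAction H V] [MulAction H (Fin 7)]

private theorem al_pow {α : Type} [MulAction H α] (h : H) (n : ℕ) :
    (MulAction.toPerm h : Equiv.Perm α) ^ n = MulAction.toPerm (h ^ n) :=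
  (map_pow (MulAction.toPermHom H α) h n).symm

private theorem al_one {α : Type} [MulAction H α] :
    (MulAction.toPerm (1 : H) : Equiv.Perm α) = 1 :=
  map_one (MulAction.toPermHom H α)

private theorem al_pow1 {α : Type} [MulAction H α] {h : H} {n : ℕ} (hn : h ^ n = 1) :
    (MulAction.toPerm h : Equiv.Perm α) ^ n = 1 := by
  rw [al_pow, hn, al_one]

private theorem al_ne (ha : Act c H) {h : H} (h1 : h ≠ 1) :
    (MulAction.toPerm h : Equiv.Perm V) ≠ 1 := by
  intro h2
  refine h1 (ha.faith h fun x => ?_)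
  exact congrArg (fun g : Equiv.Perm V => g x) h2

theorem act_aut (ha : Act c H) (h : H) :
    IsAut c (MulAction.toPerm h : Equiv.Perm V) (MulAction.toPerm h : Equiv.Perm (Fin 7)) := by
  intro x y hxy
  exact ha.act h x y hxy

theorem act_prime (hc : Moore c) (ha : Act c H) {p : ℕ} (hp : p.Prime) {h : H} (h1 : h ≠ 1)
    (h2 : h ^ p = 1) : p = 5 ∨ p = 7 := by
  have hA := act_aut ha h
  have hgp : (MulAction.toPerm h : Equiv.Perm V) ^ p = 1 := al_pow1 h2
  have hsp : (MulAction.toPerm h : Equiv.Perm (Fin 7)) ^ p = 1 := al_pow1 h2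
  by_contra hcon
  have hcon1 : p ≠ 5 := fun h => hcon (Or.inl h)
  have hcon2 : p ≠ 7 := fun h => hcon (Or.inr h)
  refine al_ne (V := V) ha h1 ?_
  rcases lt_or_ge 7 p with h7 | h7
  · exact ordP hc hA hp h7 hgp hsp
  · have h2p := hp.two_le
    interval_cases p
    · exact ord2 hc hA (by rw [← pow_two]; exact hgp) (by rw [← pow_two]; exact hsp)
    · exact ord3 hc hA hgp hsp
    · exact absurd hp (by norm_num)
    · exact absurd rfl hcon1
    · exact absurd hp (by norm_num)
    · exact absurd rfl hcon2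

theorem act5 (hc : Moore c) (ha : Act c H) {h : H} (h1 : h ≠ 1) (h2 : h ^ 5 = 1) :
    (∀ x : V, h • x ≠ x) ∨ ((Finset.univ.filter fun x : V => h • x = x).card = 5 ∧
      (Finset.univ.filter fun i : Fin 7 => h • i = i).card = 2) := by
  have hA := act_aut ha h
  have hgp : (MulAction.toPerm h : Equiv.Perm V) ^ 5 = 1 := al_pow1 h2
  have hsp : (MulAction.toPerm h : Equiv.Perm (Fin 7)) ^ 5 = 1 := al_pow1 h2
  rcases ord5 hc hA hgp hsp (al_ne ha h1) with h3 | ⟨h3, h4⟩
  · left
    intro x hx
    rw [Finset.card_eq_zero] at h3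
    have h5 : x ∈ fx (MulAction.toPerm h : Equiv.Perm V) := by
      unfold fx
      rw [Finset.mem_filter]
      exact ⟨Finset.mem_univ _, hx⟩
    rw [h3] at h5
    exact absurd h5 (Finset.notMem_empty _)
  · exact Or.inr ⟨h3, h4⟩

theorem act7 (hc : Moore c) (ha : Act c H) {h : H} (h1 : h ≠ 1) (h2 : h ^ 7 = 1) :
    ∃ x : V, h • x = x ∧ ∀ y : V, h • y = y → y = x := by
  have hA := act_aut ha h
  have hgp : (MulAction.toPerm h : Equiv.Perm V) ^ 7 = 1 := al_pow1 h2
  have hsp : (MulAction.toPerm h : Equiv.Perm (Fin 7)) ^ 7 = 1 := al_pow1 h2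
  have h3 := ord7 hc hA hgp hsp (al_ne ha h1)
  rw [Finset.card_eq_one] at h3
  obtain ⟨x, hx⟩ := h3
  have key : ∀ y : V, h • y = y ↔ y ∈ fx (MulAction.toPerm h : Equiv.Perm V) := by
    intro y
    unfold fx
    rw [Finset.mem_filter]
    exact ⟨fun hy => ⟨Finset.mem_univ _, hy⟩, fun hy => hy.2⟩
  refine ⟨x, ?_, fun y hy => ?_⟩
  · rw [key, hx]
    exact Finset.mem_singleton_self x
  · rw [key, hx] at hy
    exact Finset.mem_singleton.mp hy

theorem act_sub (ha : Act c H) (K : Subgroup H) : Act c K := by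
  refine ⟨fun h x y hxy => ha.act (h : H) x y hxy, fun h hh => ?_⟩
  exact Subtype.ext (ha.faith (h : H) hh)

end Pool.Agent.Work.MP_37fea8_co
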