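import Mathlib
import Pool.Agent.Work.MP_37fea8_co.AU.Bas

/-!
# AU/BbA (M)

The numbers `bb c K i x y = #{k | k • y ∈ nb c i x}`: elementary facts.

PROOFS.  `bb_right`: substitute `k' ↦ k' * k`.  `bb_left`: `c (k • x) (k' • y) = i ↔ c x ((k⁻¹ * k') • y) = i` by `Keeps` (apply
`k`), substitute.  `bb_symm`: `c x (k • y) = i ↔ c (k⁻¹ • x) y = i ↔ c y (k⁻¹ • x) = i`, substitute `k ↦ k⁻¹`.
`bb_sum`: exchange the sums; for fixed `k` the number of `z` with `k • z ∈ nb c i x` is `7` (`z ↦ k • z` is a bijection).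
`bb_col_ne`: every `k` is counted for exactly one colour.  `bb_col_self`: every `k ≠ 1` (then `k • x ≠ x` as the action is free).
-/

set_option autoImplicit false

namespace Pool.Agent.Work.MP_37fea8_co

variable {V : Type} [Fintype V] [DecidableEq V] {c : V → V → Fin 7}

variable {K : Type} [Group K] [Fintype K] [MulAction K V]

theorem bb_right (i : Fin 7) (x y : V) (k : K) : bb c K i x (k • y) = bb c K i x y := by
  unfold bb
  refine Finset.card_equiv (Equiv.mulRight k) fun k' => ?_
  rw [Finset.mem_filter, Finset.mem_filter, Equiv.coe_mulRight, mul_smul]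
  simp

theorem bb_left {i : Fin 7} (hK : Keeps c K i) (k : K) (x y : V) :
    bb c K i (k • x) y = bb c K i x y := by
  unfold bb
  refine Finset.card_equiv (Equiv.mulLeft k⁻¹) fun k' => ?_
  rw [Finset.mem_filter, Finset.mem_filter, Equiv.coe_mulLeft]
  have h1 : k' • y = k • ((k⁻¹ * k') • y) := by
    rw [← mul_smul, mul_inv_cancel_left]
  constructor
  · rintro ⟨-, h2, h3⟩
    rw [h1] at h2 h3
    have h4 : (k⁻¹ * k') • y ≠ x := fun h => h2 (by rw [h])
    exact ⟨Finset.mem_univ _, h4, (hK k _ _ h4.symm).1 h3⟩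
  · rintro ⟨-, h2, h3⟩
    refine ⟨Finset.mem_univ _, ?_, ?_⟩
    · rw [h1]
      intro h
      exact h2 (MulAction.injective k h)
    · rw [h1]
      exact (hK k _ _ h2.symm).2 h3

theorem bb_symm (hc : Moore c) {i : Fin 7} (hK : Keeps c K i) (x y : V) :
    bb c K i x y = bb c K i y x := by
  unfold bb
  refine Finset.card_equiv (Equiv.inv K) fun k => ?_
  rw [Finset.mem_filter, Finset.mem_filter, Equiv.inv_apply]
  have h1 : x = k • (k⁻¹ • x) := by rw [smul_inv_smul]
  constructor
  · rintro ⟨-, h2, h3⟩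
    rw [h1] at h2 h3
    have h4 : k⁻¹ • x ≠ y := fun h => h2 (by rw [h])
    refine ⟨Finset.mem_univ _, h4, ?_⟩
    rw [hc.symm]
    exact (hK k _ _ h4).1 h3
  · rintro ⟨-, h2, h3⟩
    rw [hc.symm] at h3
    refine ⟨Finset.mem_univ _, ?_, ?_⟩
    · rw [h1]
      intro h
      exact h2 (MulAction.injective k h).symm
    · rw [h1]
      exact (hK k _ _ h2).2 h3

theorem bb_sum (hc : Moore c) (i : Fin 7) (x : V) :
    ∑ z, bb c K i x z = 7 * Fintype.card K := by
  simp only [bb, Finset.card_filter]
  rw [Finset.sum_comm]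
  have h : ∀ k : K, ∑ z : V, (if k • z ≠ x ∧ c x (k • z) = i then 1 else 0) = 7 := by
    intro k
    refine (Equiv.sum_comp (MulAction.toPerm k)
      (fun z : V => if z ≠ x ∧ c x z = i then 1 else 0)).trans ?_
    rw [← Finset.card_filter]
    exact hc.deg i x
  rw [Finset.sum_congr rfl fun k _ => h k, Finset.sum_const, Finset.card_univ, smul_eq_mul,
    mul_comm]

theorem bb_col_ne {x y : V} (h : ∀ k : K, k • y ≠ x) :
    ∑ i, bb c K i x y = Fintype.card K := by
  simp only [bb, Finset.card_filter]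
  rw [Finset.sum_comm]
  have h1 : ∀ k : K, ∑ i : Fin 7, (if k • y ≠ x ∧ c x (k • y) = i then 1 else 0) = 1 := by
    intro k
    simp only [ne_eq, h k, not_false_eq_true, true_and, Finset.sum_ite_eq, Finset.mem_univ,
      if_true]
  rw [Finset.sum_congr rfl fun k _ => h1 k, Finset.sum_const, Finset.card_univ, smul_eq_mul,
    mul_one]

theorem bb_col_self (hf : Free V K) (x : V) : ∑ i, bb c K i x x + 1 = Fintype.card K := by
  classical
  simp only [bb, Finset.card_filter]
  rw [Finset.sum_comm]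
  have h1 : ∀ k : K, ∑ i : Fin 7, (if k • x ≠ x ∧ c x (k • x) = i then 1 else 0) =
      if k ≠ 1 then 1 else 0 := by
    intro k
    by_cases hk : k = 1
    · rw [if_neg (not_not.2 hk), hk, one_smul]
      simp
    · rw [if_pos hk]
      have h2 : ¬ k • x = x := fun h => hk (hf k x h)
      simp only [ne_eq, h2, not_false_eq_true, true_and, Finset.sum_ite_eq, Finset.mem_univ,
        if_true]
  rw [Finset.sum_congr rfl fun k _ => h1 k, ← Finset.card_filter, Finset.filter_ne']
  rw [Finset.card_erase_add_one (Finset.mem_univ _), Finset.card_univ]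

end Pool.Agent.Work.MP_37fea8_co
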