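import Mathlib
import Pool.Agent.Work.MP_37fea8_co.AU.BbA

/-!
# AU/BbB (M)

The product formula for the numbers `bb`.

PROOF.  `n = |K|`.  `bb x z * bb y z` is the number of the pairs `(k, k')` with `k • z ∈ nb x`, `k' • z ∈ nb y`.  Sum over `z`,
substitute `w = k • z`, `l = k' * k⁻¹`: the sum is `n` times the number of the pairs `(l, w)` with `w ∈ nb x`, `l • w ∈ nb y`, and
`l • w ∈ nb y ↔ w ∈ nb (l⁻¹ • y)` (`Keeps`).  So it is `n * ∑_l |nb x ∩ nb (l • y)|` (substitute `l ↦ l⁻¹`).
By `inter_nb` and `nb_card` the summand is `7` for `l • y = x`, and for `l • y ≠ x` it is `0` if `c x (l • y) = i` and `1` otherwise.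
`bb_gram_ne`: all `l` are of the second kind: `n - bb x y`.  `bb_gram_self` (`y = x`): `l = 1` gives `7`, the other `n - 1` elements
(free) give `n - 1 - bb x x`.
-/

set_option autoImplicit false

namespace Pool.Agent.Work.MP_37fea8_co

variable {V : Type} [Fintype V] [DecidableEq V] {c : V → V → Fin 7}

variable {K : Type} [Group K] [Fintype K] [MulAction K V]

private theorem bb_gram (hc : Moore c) {i : Fin 7} (hK : Keeps c K i) (x y : V) :
    ∑ z, bb c K i x z * bb c K i y z =
      Fintype.card K * ∑ l : K, (nb c i x ∩ nb c i (l • y)).card := by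
  have hmem : ∀ (x w : V), (w ∈ nb c i x) = (w ≠ x ∧ c x w = i) := fun x w =>
    propext mem_nb
  have hb : ∀ x z : V, bb c K i x z = ∑ k : K, if k • z ∈ nb c i x then 1 else 0 := by
    intro x z
    unfold bb
    rw [Finset.card_filter]
    simp only [hmem]
  have hkeep : ∀ (l : K) (w : V), (l • w ∈ nb c i y ↔ w ∈ nb c i (l⁻¹ • y)) := by
    intro l w
    rw [mem_nb, mem_nb]
    have h1 : y = l • (l⁻¹ • y) := by rw [smul_inv_smul]
    constructor
    · rintro ⟨h2, h3⟩
      rw [h1] at h2 h3
      have h4 : w ≠ l⁻¹ • y := fun h => h2 (by rw [h])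
      exact ⟨h4, (hK l _ _ h4.symm).1 h3⟩
    · rintro ⟨h2, h3⟩
      refine ⟨?_, ?_⟩
      · rw [h1]
        intro h
        exact h2 (MulAction.injective l h)
      · rw [h1]
        exact (hK l _ _ h2.symm).2 h3
  have e1 : ∀ z : V, bb c K i x z * bb c K i y z = ∑ k : K, ∑ l : K,
      (if k • z ∈ nb c i x then 1 else 0) * (if l • (k • z) ∈ nb c i y then 1 else 0) := by
    intro z
    rw [hb, hb, Finset.sum_mul]
    refine Finset.sum_congr rfl fun k _ => ?_
    rw [Finset.mul_sum]
    rw [← Equiv.sum_comp (Equiv.mulRight k) (fun k' : K =>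
      (if k • z ∈ nb c i x then 1 else 0) * (if k' • z ∈ nb c i y then 1 else 0))]
    refine Finset.sum_congr rfl fun l _ => ?_
    rw [Equiv.coe_mulRight, mul_smul]
  rw [Finset.sum_congr rfl fun z _ => e1 z, Finset.sum_comm]
  have e2 : ∀ k : K, ∑ z : V, ∑ l : K,
      (if k • z ∈ nb c i x then 1 else 0) * (if l • (k • z) ∈ nb c i y then 1 else 0) =
      ∑ l : K, (nb c i x ∩ nb c i (l • y)).card := by
    intro k
    refine (Equiv.sum_comp (MulAction.toPerm k) (fun w : V => ∑ l : K,
      (if w ∈ nb c i x then 1 else 0) * (if l • w ∈ nb c i y then 1 else 0))).trans ?_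
    rw [Finset.sum_comm]
    rw [← Equiv.sum_comp (Equiv.inv K) (fun l : K => (nb c i x ∩ nb c i (l • y)).card)]
    refine Finset.sum_congr rfl fun l _ => ?_
    rw [Equiv.inv_apply]
    have e3 : (nb c i x ∩ nb c i (l⁻¹ • y)) =
        Finset.univ.filter fun w => w ∈ nb c i x ∧ l • w ∈ nb c i y := by
      ext w
      rw [Finset.mem_inter, Finset.mem_filter, hkeep]
      simp
    rw [e3, Finset.card_filter]
    refine Finset.sum_congr rfl fun w _ => ?_
    by_cases h1 : w ∈ nb c i x <;> by_cases h2 : l • w ∈ nb c i y <;> simp [h1, h2]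
  rw [Finset.sum_congr rfl fun k _ => e2 k, Finset.sum_const, Finset.card_univ, smul_eq_mul]

private theorem bb_inter (hc : Moore c) (i : Fin 7) (x y : V) :
    ∑ l : K, (nb c i x ∩ nb c i (l • y)).card + bb c K i x y =
      Fintype.card K + 6 * (Finset.univ.filter fun l : K => l • y = x).card := by
  unfold bb
  rw [Finset.card_filter, Finset.card_filter, ← Finset.sum_add_distrib, Finset.mul_sum]
  have e : (Fintype.card K : ℕ) = ∑ _l : K, 1 := by
    rw [Finset.sum_const, Finset.card_univ, smul_eq_mul, mul_one]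
  rw [e, ← Finset.sum_add_distrib]
  refine Finset.sum_congr rfl fun l _ => ?_
  by_cases h : l • y = x
  · rw [h, Finset.inter_self, nb_card hc]
    simp
  · rw [inter_nb hc i (Ne.symm h), if_neg h]
    by_cases h2 : c x (l • y) = i
    · simp [h, h2]
    · simp [h2]

theorem bb_gram_ne (hc : Moore c) {i : Fin 7} (hK : Keeps c K i) {x y : V}
    (h : ∀ k : K, k • y ≠ x) :
    ∑ z, bb c K i x z * bb c K i y z + Fintype.card K * bb c K i x y = Fintype.card K ^ 2 := by
  rw [bb_gram hc hK, ← mul_add, bb_inter hc]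
  have h1 : (Finset.univ.filter fun l : K => l • y = x) = ∅ := by
    rw [Finset.filter_eq_empty_iff]
    exact fun l _ => h l
  rw [h1, Finset.card_empty, mul_zero, add_zero, sq]

theorem bb_gram_self (hc : Moore c) {i : Fin 7} (hK : Keeps c K i) (hf : Free V K) (x : V) :
    ∑ z, bb c K i x z ^ 2 + Fintype.card K * bb c K i x x =
      Fintype.card K * (Fintype.card K + 6) := by
  have e : ∑ z, bb c K i x z ^ 2 = ∑ z, bb c K i x z * bb c K i x z :=
    Finset.sum_congr rfl fun z _ => sq _
  rw [e, bb_gram hc hK, ← mul_add, bb_inter hc]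
  have h1 : (Finset.univ.filter fun l : K => l • x = x) = {1} := by
    ext l
    rw [Finset.mem_filter, Finset.mem_singleton]
    constructor
    · exact fun h => hf l x h.2
    · rintro rfl
      exact ⟨Finset.mem_univ _, one_smul _ _⟩
  rw [h1, Finset.card_singleton, mul_one]

end Pool.Agent.Work.MP_37fea8_co
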