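import Mathlib
import Pool.Agent.Work.MP_37fea8_co.AU.BbB

/-!
# AU/Two (M)

A group of order `25` which acts freely: in every preserved colour a vertex has exactly two neighbours in its orbit.

PROOF.  `s = bb c H i x x`.  The orbit of `x` has `25` elements (free), so there is `w` outside of it, and `V` is the disjoint union of
the orbits of `x` and of `w` (`25 + 25 = 50`).  By `bb_right` `bb x z = s` for `z` in the orbit of `x` and `bb x z = r := bb x w` for
the other `25` vertices.  `bb_sum`: `25 s + 25 r = 7 * 25`; `bb_gram_self`: `25 s ^ 2 + 25 r ^ 2 + 25 s = 25 * 31`.  So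
`r = 7 - s`, `s ^ 2 + (7 - s) ^ 2 + s = 31`, `s = 2`.
-/

set_option autoImplicit false

namespace Pool.Agent.Work.MP_37fea8_co

variable {V : Type} [Fintype V] [DecidableEq V] {c : V → V → Fin 7}

theorem free_two (hc : Moore c) (H : Type) [Group H] [Fintype H] [MulAction H V]
    (hH : Fintype.card H = 25) (hf : Free V H) {i : Fin 7} (hK : Keeps c H i) (x : V) :
    bb c H i x x = 2 := by
  have hinj : ∀ v : V, Function.Injective fun h : H => h • v := by
    intro v a b hab
    have h1 : (b⁻¹ * a) • v = v := by
      rw [mul_smul]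
      show b⁻¹ • (a • v) = v
      have h2 : a • v = b • v := hab
      rw [h2, inv_smul_smul]
    have h2 := hf _ _ h1
    exact (inv_mul_eq_one.1 h2).symm
  have hcard : ∀ v : V, (Finset.univ.image fun h : H => h • v).card = 25 := by
    intro v
    rw [Finset.card_image_of_injective _ (hinj v), Finset.card_univ, hH]
  obtain ⟨w, hw⟩ : ∃ w, w ∉ (Finset.univ.image fun h : H => h • x) := by
    by_contra hcon
    push Not at hcon
    have h1 : (Finset.univ.image fun h : H => h • x) = Finset.univ :=
      Finset.eq_univ_iff_forall.2 hcon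
    have h2 := hcard x
    rw [h1, Finset.card_univ, hc.card] at h2
    omega
  have hdisj : Disjoint (Finset.univ.image fun h : H => h • x)
      (Finset.univ.image fun h : H => h • w) := by
    rw [Finset.disjoint_left]
    intro v h1 h2
    obtain ⟨a, -, ha⟩ := Finset.mem_image.1 h1
    obtain ⟨b, -, hb⟩ := Finset.mem_image.1 h2
    apply hw
    refine Finset.mem_image.2 ⟨b⁻¹ * a, Finset.mem_univ _, ?_⟩
    have ha' : a • x = v := ha
    have hb' : b • w = v := hb
    show (b⁻¹ * a) • x = w
    rw [mul_smul, ha', ← hb', inv_smul_smul]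
  have huniv : (Finset.univ.image fun h : H => h • x) ∪ (Finset.univ.image fun h : H => h • w) =
      Finset.univ := by
    apply Finset.eq_univ_of_card
    rw [Finset.card_union_of_disjoint hdisj, hcard, hcard, hc.card]
  have hsum : ∀ f : V → ℕ, (∀ (h : H) (v : V), f (h • v) = f v) →
      ∑ z, f z = 25 * f x + 25 * f w := by
    intro f hfi
    rw [← huniv, Finset.sum_union hdisj, Finset.sum_image fun a _ b _ h => hinj x h,
      Finset.sum_image fun a _ b _ h => hinj w h]
    simp only [hfi, Finset.sum_const, Finset.card_univ, hH, smul_eq_mul]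
  have h1 := hsum (fun z => bb c H i x z) fun h v => bb_right i x v h
  have h2 := hsum (fun z => bb c H i x z ^ 2) fun h v => by
    show bb c H i x (h • v) ^ 2 = bb c H i x v ^ 2
    rw [bb_right]
  have h3 := bb_sum (K := H) hc i x
  have h4 := bb_gram_self hc hK hf x
  rw [hH] at h3 h4
  rw [h1] at h3
  rw [h2] at h4
  generalize bb c H i x x = s at h3 h4 ⊢
  generalize bb c H i x w = r at h3 h4
  have h5 : s + r = 7 := by omega
  have h6 : s ≤ 7 := by omega
  have h7 : r = 7 - s := by omega
  subst h7
  interval_cases s <;> first | rfl | (norm_num at h4)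

end Pool.Agent.Work.MP_37fea8_co
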