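import Mathlib
import Pool.Agent.Work.MP_37fea8_co.AU.Two
import Pool.Agent.Work.MP_37fea8_co.AU.ActL

/-!
# AU/CaseA (S-M)

A group of order `25` cannot fix all colours.

PROOF.  `Free V H`: let `h ≠ 1`, `h • x = x`.  If `h ^ 5 = 1`: `act5`: the second alternative is impossible (all `7` colours are
fixed, `7 ≠ 2`), the first contradicts `h • x = x`.  If `h ^ 5 ≠ 1`: `(h ^ 5) ^ 5 = h ^ 25 = 1` and `h ^ 5 • x = x`, the same for
`h ^ 5`.  `Keeps c H i` for all `i`: `Act.act` and `hfix`.  `free_two` for all seven colours and `bb_col_self`: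
`7 * 2 + 1 = 25`: contradiction.
-/

set_option autoImplicit false

namespace Pool.Agent.Work.MP_37fea8_co

variable {V : Type} [Fintype V] [DecidableEq V] {c : V → V → Fin 7}

variable {H : Type} [Group H] [Fintype H] [MulAction H V] [MulAction H (Fin 7)]

theorem no25a (hc : Moore c) (ha : Act c H) (hH : Fintype.card H = 25)
    (hfix : ∀ (h : H) (i : Fin 7), h • i = i) : False := by
  have key : ∀ (h : H) (x : V), h ≠ 1 → h ^ 5 = 1 → h • x = x → False := by
    intro h x h1 h5 hx
    rcases act5 hc ha h1 h5 with h2 | ⟨_, h2⟩
    · exact h2 x hx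
    · have h3 : (Finset.univ.filter fun i : Fin 7 => h • i = i) = Finset.univ := by
        ext i
        simp [hfix h i]
      rw [h3] at h2
      simp at h2
  have hf : Free V H := by
    intro h x hx
    by_contra h1
    by_cases h5 : h ^ 5 = 1
    · exact key h x h1 h5 hx
    · have h25 : (h ^ 5) ^ 5 = 1 := by
        rw [← pow_mul]
        have := pow_card_eq_one (x := h)
        rw [hH] at this
        exact this
      have hx5 : (h ^ 5) • x = x := by
        have : ∀ n : ℕ, (h ^ n) • x = x := by
          intro n
          induction n with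
          | zero => simp
          | succ n ih => rw [pow_succ, mul_smul, hx, ih]
        exact this 5
      exact key (h ^ 5) x h5 h25 hx5
  have hK : ∀ i : Fin 7, Keeps c H i := by
    intro i k x y hxy
    rw [ha.act k x y hxy, hfix]
  have hV : Nonempty V := by
    have := hc.card
    apply Fintype.card_pos_iff.1
    omega
  obtain ⟨x⟩ := hV
  have h1 := bb_col_self (c := c) hf x
  rw [Finset.sum_congr rfl fun i _ => free_two hc H hH hf (hK i) x, hH] at h1
  simp at h1

end Pool.Agent.Work.MP_37fea8_co
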