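import Mathlib
import Pool.Agent.Work.MP_37fea8_co.Defs

/-!
# AU/FDvd (S-M)

A group acting freely on an invariant set divides its order.

PROOF.  Partition `S` into orbits: strong induction on `S.card`: if `S` is empty, clear; otherwise let `x ∈ S` and
`O = univ.image (fun h : H => h • x) ⊆ S`, `|O| = |H|` (injective by freeness), `S \ O` is invariant and smaller.
-/

set_option autoImplicit false

namespace Pool.Agent.Work.MP_37fea8_co

theorem free_dvd {V H : Type} [DecidableEq V] [Group H] [Fintype H] [MulAction H V]
    (S : Finset V) (hS : ∀ h : H, ∀ x ∈ S, h • x ∈ S) (hf : ∀ h : H, ∀ x ∈ S, h • x = x → h = 1) :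
    Fintype.card H ∣ S.card := by
  classical
  suffices H0 : ∀ n : ℕ, ∀ S : Finset V, S.card = n → (∀ h : H, ∀ x ∈ S, h • x ∈ S) →
      (∀ h : H, ∀ x ∈ S, h • x = x → h = 1) → Fintype.card H ∣ S.card from H0 _ S rfl hS hf
  intro n
  induction n using Nat.strong_induction_on with
  | _ n ih =>
    intro S hn hS hf
    rcases S.eq_empty_or_nonempty with rfl | ⟨x, hx⟩
    · simp
    · have hOS : Finset.univ.image (fun h : H => h • x) ⊆ S := by
        intro y hy
        obtain ⟨h, -, rfl⟩ := Finset.mem_image.mp hy
        exact hS h x hx
      have hOc : (Finset.univ.image (fun h : H => h • x)).card = Fintype.card H := by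
        rw [Finset.card_image_of_injective, Finset.card_univ]
        intro a b hab
        have h1 : (b⁻¹ * a) • x = x := by
          have hab' : a • x = b • x := hab
          rw [mul_smul, hab', inv_smul_smul]
        exact (inv_mul_eq_one.mp (hf _ x hx h1)).symm
      have hc := Finset.card_sdiff_add_card_eq_card hOS
      have hpos : 0 < Fintype.card H := Fintype.card_pos
      have h2 := ih (S \ Finset.univ.image (fun h : H => h • x)).card (by omega)
        (S \ Finset.univ.image (fun h : H => h • x)) rfl
        (by
          intro h y hy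
          rw [Finset.mem_sdiff] at hy ⊢
          refine ⟨hS h y hy.1, fun hc => hy.2 ?_⟩
          obtain ⟨g, -, hg⟩ := Finset.mem_image.mp hc
          refine Finset.mem_image.mpr ⟨h⁻¹ * g, Finset.mem_univ _, ?_⟩
          have hg' : g • x = h • y := hg
          show (h⁻¹ * g) • x = y
          rw [mul_smul, hg', inv_smul_smul])
        (by
          intro h y hy
          exact hf h y (Finset.mem_sdiff.mp hy).1)
      rw [← hc, hOc]
      exact Dvd.dvd.add h2 (dvd_refl _)

end Pool.Agent.Work.MP_37fea8_co
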