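import Mathlib
import Pool.Agent.Work.MP_37fea8_co.AU.BbA

/-!
# AU/StL (S-M)

Simple consequences of `StB`.

PROOFS.  `StB.keeps`: `Act.act` and `fixK`.  `StB.free`: `freeK`.  `StB.card`: `cardK`.
`StB.bb_act`: `c (h • x) (k • h • y) = c (h • x) (h • k • y) = h • c x (k • y)` (`comm`).
`StB.exg`: `25 ≠ 5`.  `StB.exj`: `7 > 2`.  `mov_card`.  `StB.sum_mov`: `m ↦ g ^ m • j` is a bijection from `Fin 5` to `mov i₁ i₂`
(it is surjective by `trans`, both sides have five elements; `h • j` is moving because `h⁻¹` fixes `i₁` and `i₂`).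
-/

set_option autoImplicit false

namespace Pool.Agent.Work.MP_37fea8_co

variable {V : Type} [Fintype V] [DecidableEq V] {c : V → V → Fin 7}

variable {H : Type} [Group H] [MulAction H V] [MulAction H (Fin 7)] {K : Subgroup H}
  {i₁ i₂ : Fin 7}

theorem StB.keeps (hB : StB c H K i₁ i₂) (i : Fin 7) : Keeps c K i := by
  intro k x y hxy
  have h1 : c (k • x) (k • y) = (k : H) • c x y := hB.act.act (k : H) x y hxy
  rw [h1, hB.fixK _ k.2]

theorem StB.free (hB : StB c H K i₁ i₂) : Free V K := by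
  intro k x hx
  exact Subtype.ext (hB.freeK (k : H) k.2 x hx)

theorem StB.card (hB : StB c H K i₁ i₂) [Fintype K] : Fintype.card K = 5 := by
  rw [← Nat.card_eq_fintype_card]
  exact hB.cardK

theorem StB.bb_act (hB : StB c H K i₁ i₂) [Fintype K] (h : H) (i : Fin 7) (x y : V) :
    bb c K (h • i) (h • x) (h • y) = bb c K i x y := by
  unfold bb
  refine congrArg Finset.card (Finset.filter_congr fun k _ => ?_)
  have h1 : k • h • y = h • k • y := by
    show (k : H) • h • y = h • (k : H) • y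
    rw [smul_smul, smul_smul, hB.comm]
  rw [h1]
  constructor
  · rintro ⟨h2, h3⟩
    have h4 : k • y ≠ x := fun h5 => h2 (by rw [h5])
    refine ⟨h4, ?_⟩
    rw [hB.act.act h x (k • y) h4.symm] at h3
    exact smul_left_cancel h h3
  · rintro ⟨h2, h3⟩
    refine ⟨fun h5 => h2 (smul_left_cancel h h5), ?_⟩
    rw [hB.act.act h x (k • y) h2.symm, h3]

theorem StB.exg (hB : StB c H K i₁ i₂) : ∃ g : H, g ∉ K := by
  by_contra hcon
  push Not at hcon
  have h1 : K = ⊤ := by
    rw [eq_top_iff]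
    exact fun g _ => hcon g
  have h2 := hB.cardK
  rw [h1, Subgroup.card_top, hB.cardH] at h2
  omega

theorem StB.exj : ∃ j : Fin 7, j ≠ i₁ ∧ j ≠ i₂ := by
  revert i₁ i₂
  decide

theorem StB.mov_card (hB : StB c H K i₁ i₂) : (mov i₁ i₂).card = 5 := by
  have h1 := hB.ne
  clear hB
  revert i₁ i₂
  unfold mov
  decide

theorem StB.mov_smul (hB : StB c H K i₁ i₂) (h : H) {j : Fin 7} (hj : j ∈ mov i₁ i₂) :
    h • j ∈ mov i₁ i₂ := by
  unfold mov at hj ⊢
  rw [Finset.mem_filter] at hj ⊢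
  refine ⟨Finset.mem_univ _, fun h1 => hj.2.1 ?_, fun h1 => hj.2.2 ?_⟩
  · exact smul_left_cancel h (h1.trans (hB.fix₁ h).symm)
  · exact smul_left_cancel h (h1.trans (hB.fix₂ h).symm)

theorem StB.sum_mov (hB : StB c H K i₁ i₂) {g : H} (hg : g ∉ K) {j : Fin 7}
    (hj : j ∈ mov i₁ i₂) (F : Fin 7 → ℕ) :
    ∑ m : Fin 5, F (g ^ (m : ℕ) • j) = ∑ j' ∈ mov i₁ i₂, F j' := by
  classical
  have hj2 := hj
  unfold mov at hj2
  rw [Finset.mem_filter] at hj2
  have h1 : Finset.univ.image (fun m : Fin 5 => g ^ (m : ℕ) • j) = mov i₁ i₂ := by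
    ext j'
    rw [Finset.mem_image]
    constructor
    · rintro ⟨m, -, rfl⟩
      exact hB.mov_smul _ hj
    · intro h2
      unfold mov at h2
      rw [Finset.mem_filter] at h2
      obtain ⟨m, hm, h3⟩ := hB.trans g hg j j' hj2.2.1 hj2.2.2 h2.2.1 h2.2.2
      exact ⟨⟨m, hm⟩, Finset.mem_univ _, h3⟩
  have h2 : Set.InjOn (fun m : Fin 5 => g ^ (m : ℕ) • j) (Finset.univ : Finset (Fin 5)) := by
    rw [← Finset.card_image_iff, h1, hB.mov_card]
    rfl
  rw [← h1, Finset.sum_image h2]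

end Pool.Agent.Work.MP_37fea8_co
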