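import Mathlib
import Pool.Agent.Work.MP_37fea8_co.AU.StL
import Pool.Agent.Work.MP_37fea8_co.AU.TrK

/-!
# AU/Inner (M-L)

The colours inside the orbits of `K` are `i₁` and `i₂`.

PROOF.  `K` is cyclic of order `5`: let `k` be a generator (any element `≠ 1`).  Fix `x`.  `α = c x (k • x)`, `β = c x (k ^ 2 • x)`;
`c x (k ^ 4 • x) = c (k • x) (k ^ 5 • x) = c (k • x) x = α` (`fixK`), `c x (k ^ 3 • x) = β`; `α ≠ β`, otherwise `x, k • x, k ^ 2 • x` is
a triangle of the colour `α` (`Moore.tri`).  So (1) `bb c K i x x = 2` for `i ∈ {α, β}` and `0` otherwise, for each `x`.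
Let `n i = |{x | bb c K i x x ≠ 0}|`.  By (1) `∑_i n i = 100` and `∑_x bb c K i x x = 2 n i`.  The trace lemma `trace_dvd` for `K` and
the colour `i`: the first sum is `50` (`k = 1`; the other elements have no fixed points), the second one is
`∑_k |{x | k • x ∈ nb c i x}| = ∑_x bb c K i x x = 2 n i` (exchange).  So `100 - 2 n i = 25 z`: `n i ∈ {0, 25, 50}` (`n i ≤ 50`).
For moving `j`, `j'`: `n j = n j'` (`bb_act` with `h = g ^ m`, `x ↦ h • x` is a bijection; `trans`).  There are five moving colours and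
`∑_i n i = 100`, so `n j = 0` for moving `j` (`5 * 25 > 100`), and `n i₁ + n i₂ = 100`, `n i₁ = n i₂ = 50`.
-/

set_option autoImplicit false

namespace Pool.Agent.Work.MP_37fea8_co

variable {V : Type} [Fintype V] [DecidableEq V] {c : V → V → Fin 7}

variable {H : Type} [Group H] [MulAction H V] [MulAction H (Fin 7)] {K : Subgroup H}
  {i₁ i₂ : Fin 7}

private theorem in_loc (hc : Moore c) (hB : StB c H K i₁ i₂) [Fintype K] (x : V) :
    ∃ α β : Fin 7, α ≠ β ∧ ∀ i, bb c K i x x =
      (if α = i then 2 else 0) + (if β = i then 2 else 0) := by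
  classical
  have hK5 : Nat.card K = 5 := hB.cardK
  have : Fact (Nat.Prime 5) := ⟨by norm_num⟩
  obtain ⟨k, hk⟩ : ∃ k : K, k ≠ 1 := by
    have : Nontrivial K := by
      rw [← Finite.one_lt_card_iff_nontrivial, hK5]
      norm_num
    exact exists_ne (1 : K)
  have hk5 : k ^ 5 = 1 := by
    have h1 : k ^ Nat.card K = 1 := pow_card_eq_one'
    rwa [hK5] at h1
  have hord : orderOf k = 5 := orderOf_eq_prime hk5 hk
  have hbij : Function.Bijective (fun m : Fin 5 => k ^ (m : ℕ)) := by
    rw [Fintype.bijective_iff_injective_and_card]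
    constructor
    · intro a b hab
      have := pow_injOn_Iio_orderOf (x := k) (by rw [hord]; exact a.2 : (a : ℕ) ∈ Set.Iio (orderOf k))
        (by rw [hord]; exact b.2 : (b : ℕ) ∈ Set.Iio (orderOf k)) hab
      exact Fin.ext this
    · rw [Fintype.card_fin, ← Nat.card_eq_fintype_card, hK5]
  have hkk : (k : H) ∈ K := k.2
  have hne : ∀ m : ℕ, 0 < m → m < 5 → ∀ y : V, (k ^ m) • y ≠ y := by
    intro m h0 h5 y hy
    have h1 : ((k ^ m : K) : H) = 1 := hB.freeK _ (k ^ m).2 y hy
    have h2 : k ^ m = 1 := Subtype.ext h1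
    have h3 := orderOf_dvd_of_pow_eq_one h2
    rw [hord] at h3
    exact absurd (Nat.le_of_dvd h0 h3) (by omega)
  have hact : ∀ (g : K) (y z : V), y ≠ z → c (g • y) (g • z) = c y z := by
    intro g y z hyz
    have h1 := hB.act.act (g : H) y z hyz
    rw [hB.fixK _ g.2] at h1
    exact h1
  have h1 : k • x ≠ x := by
    have := hne 1 (by norm_num) (by norm_num) x
    rwa [pow_one] at this
  have h2 := hne 2 (by norm_num) (by norm_num) x
  have h3 := hne 3 (by norm_num) (by norm_num) x
  have h4 := hne 4 (by norm_num) (by norm_num) x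
  have c4 : c x (k ^ 4 • x) = c x (k • x) := by
    have e1 := hact k x (k ^ 4 • x) h4.symm
    rw [← mul_smul, ← pow_succ', hk5, one_smul] at e1
    rw [← e1, hc.symm]
  have c3 : c x (k ^ 3 • x) = c x (k ^ 2 • x) := by
    have e1 := hact (k ^ 2) x (k ^ 3 • x) h3.symm
    rw [← mul_smul, ← pow_add, hk5, one_smul] at e1
    rw [← e1, hc.symm]
  refine ⟨c x (k • x), c x (k ^ 2 • x), ?_, ?_⟩
  · have e1 := hact k x (k • x) h1.symm
    rw [← mul_smul, ← sq] at e1
    refine hc.tri x (k • x) (k ^ 2 • x) h1.symm ?_ h2.symm e1.symm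
    intro h
    have e2 : k • x = k • (k • x) := by rw [← mul_smul, ← sq]; exact h
    exact h1 (MulAction.injective k e2).symm
  · intro i
    unfold bb
    rw [Finset.card_filter]
    rw [← (Equiv.ofBijective _ hbij).sum_comp, Fin.sum_univ_five]
    simp only [Equiv.ofBijective_apply]
    show (if (k ^ 0) • x ≠ x ∧ c x ((k ^ 0) • x) = i then 1 else 0) +
      (if (k ^ 1) • x ≠ x ∧ c x ((k ^ 1) • x) = i then 1 else 0) +
      (if (k ^ 2) • x ≠ x ∧ c x ((k ^ 2) • x) = i then 1 else 0) +
      (if (k ^ 3) • x ≠ x ∧ c x ((k ^ 3) • x) = i then 1 else 0) +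
      (if (k ^ 4) • x ≠ x ∧ c x ((k ^ 4) • x) = i then 1 else 0) = _
    rw [pow_zero, one_smul, pow_one, c3, c4]
    simp only [ne_eq, not_true_eq_false, false_and, if_false, h1, h2, h3, h4, not_false_eq_true,
      true_and]
    split_ifs <;> norm_num

theorem StB.inner (hc : Moore c) (hB : StB c H K i₁ i₂) [Fintype K] (x : V) :
    (∀ j ∈ mov i₁ i₂, bb c K j x x = 0) ∧ bb c K i₁ x x = 2 ∧ bb c K i₂ x x = 2 := by
  classical
  have hle : ∀ (i : Fin 7) (x : V), bb c K i x x = 0 ∨ bb c K i x x = 2 := by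
    intro i x
    obtain ⟨α, β, hne, h⟩ := in_loc hc hB x
    rw [h]
    by_cases h1 : α = i
    · have h2 : β ≠ i := fun h2 => hne (h1.trans h2.symm)
      simp [h1, h2]
    · by_cases h2 : β = i
      · simp [h1, h2]
      · simp [h1, h2]
  have hsum : ∀ x : V, ∑ i, bb c K i x x = 4 := by
    intro x
    obtain ⟨α, β, hne, h⟩ := in_loc hc hB x
    simp only [h, Finset.sum_add_distrib, Finset.sum_ite_eq, Finset.mem_univ, if_true]
  set B : Fin 7 → ℕ := fun i => ∑ x, bb c K i x x with hBdef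
  have hBsum : ∑ i, B i = 200 := by
    simp only [hBdef]
    rw [Finset.sum_comm]
    simp only [hsum, Finset.sum_const, Finset.card_univ, hc.card, smul_eq_mul]
  have hcardK : Fintype.card K = 5 := hB.card
  have hBmod : ∀ i, ∃ z : ℤ, 100 - (B i : ℤ) = 25 * z := by
    intro i
    obtain ⟨z, hz⟩ := trace_dvd hc K (hB.keeps i)
    have e1 : (∑ k : K, ((Finset.univ.filter fun x : V => k • x = x).card : ℤ)) = 50 := by
      rw [Finset.sum_eq_single (1 : K)]
      · simp [hc.card]
      · intro k _ hk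
        rw [Nat.cast_eq_zero, Finset.card_eq_zero, Finset.filter_eq_empty_iff]
        intro y _ hy
        exact hk (hB.free k y hy)
      · intro h
        exact absurd (Finset.mem_univ _) h
    have e2 : (∑ k : K, ((Finset.univ.filter fun x : V => k • x ∈ nb c i x).card : ℤ)) =
        (B i : ℤ) := by
      simp only [hBdef, bb]
      push_cast
      simp only [Finset.card_filter, mem_nb]
      push_cast
      rw [Finset.sum_comm]
    rw [e1, e2, hcardK] at hz
    refine ⟨z, ?_⟩
    rw [show (100 : ℤ) = 2 * 50 by norm_num, hz]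
    norm_num
  have hBev : ∀ i, ∃ n : ℕ, B i = 2 * n := by
    intro i
    refine ⟨∑ x, bb c K i x x / 2, ?_⟩
    rw [Finset.mul_sum]
    refine Finset.sum_congr rfl fun x _ => ?_
    have h := hle i x
    show bb c K i x x = 2 * (bb c K i x x / 2)
    omega
  have hBle : ∀ i, B i ≤ 100 := by
    intro i
    have h1 : B i ≤ ∑ _x : V, 2 := by
      refine Finset.sum_le_sum fun x _ => ?_
      rcases hle i x with h | h <;> rw [h]
      exact Nat.zero_le _
    rw [Finset.sum_const, Finset.card_univ, hc.card] at h1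
    simpa using h1
  have hB3 : ∀ i, B i = 0 ∨ B i = 50 ∨ B i = 100 := by
    intro i
    obtain ⟨z, hz⟩ := hBmod i
    obtain ⟨n, hn⟩ := hBev i
    have := hBle i
    omega
  obtain ⟨g, hg⟩ := hB.exg
  have hmov : ∀ j ∈ mov i₁ i₂, ∀ j' ∈ mov i₁ i₂, B j = B j' := by
    intro j hj j' hj'
    simp only [mov, Finset.mem_filter, Finset.mem_univ, true_and] at hj hj'
    obtain ⟨m, _, rfl⟩ := hB.trans g hg j j' hj.1 hj.2 hj'.1 hj'.2
    simp only [hBdef]
    have h1 : ∑ x, bb c K (g ^ m • j) x x =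
        ∑ x, bb c K (g ^ m • j) (g ^ m • x) (g ^ m • x) :=
      (Equiv.sum_comp (MulAction.toPerm (g ^ m) : Equiv.Perm V)
        (fun x => bb c K (g ^ m • j) x x)).symm
    rw [h1]
    exact Finset.sum_congr rfl fun x _ => (hB.bb_act (g ^ m) j x x).symm
  have hsplit : ∑ i, B i = ∑ j ∈ mov i₁ i₂, B j + (B i₁ + B i₂) := by
    rw [← Finset.sum_filter_add_sum_filter_not Finset.univ (fun j => j ≠ i₁ ∧ j ≠ i₂)]
    congr 1
    have : (Finset.univ.filter fun j : Fin 7 => ¬(j ≠ i₁ ∧ j ≠ i₂)) = {i₁, i₂} := by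
      ext j
      simp only [Finset.mem_filter, Finset.mem_univ, true_and, Finset.mem_insert,
        Finset.mem_singleton]
      tauto
    rw [this, Finset.sum_pair hB.ne]
  obtain ⟨j₀, hj₀⟩ : (mov i₁ i₂).Nonempty := by
    rw [← Finset.card_pos, hB.mov_card]
    norm_num
  have hconst : ∑ j ∈ mov i₁ i₂, B j = 5 * B j₀ := by
    rw [Finset.sum_congr rfl fun j hj => hmov j hj j₀ hj₀, Finset.sum_const, hB.mov_card,
      smul_eq_mul]
  rw [hBsum, hconst] at hsplit
  have h0 : B j₀ = 0 := by
    rcases hB3 j₀ with h | h | h <;> omega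
  have h1 := hBle i₁
  have h2 := hBle i₂
  have h1' : B i₁ = 100 := by omega
  have h2' : B i₂ = 100 := by omega
  have hfull : ∀ i, B i = 100 → bb c K i x x = 2 := by
    intro i hi
    by_contra hne
    have h3 : B i < ∑ _x : V, 2 := by
      refine Finset.sum_lt_sum (fun y _ => ?_) ⟨x, Finset.mem_univ _, ?_⟩
      · rcases hle i y with h | h <;> rw [h]
        exact Nat.zero_le _
      · rcases hle i x with h | h
        · rw [h]; norm_num
        · exact absurd h hne
    rw [Finset.sum_const, Finset.card_univ, hc.card, hi] at h3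
    norm_num at h3
  refine ⟨?_, hfull i₁ h1', hfull i₂ h2'⟩
  intro j hj
  have h3 : B j = 0 := by rw [hmov j hj j₀ hj₀, h0]
  have h4 := Finset.sum_eq_zero_iff.1 h3 x (Finset.mem_univ _)
  exact h4

end Pool.Agent.Work.MP_37fea8_co
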