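import Mathlib
import Pool.Agent.Work.MP_37fea8_co.AU.Inner
import Pool.Agent.Work.MP_37fea8_co.AU.BbB

/-!
# AU/Rows (M)

The rows of the quotient matrices.

PROOFS (`|K| = 5`).  `bb_sum`: `∑_z bb i x z = 35`; `bb_gram_self`: `∑_z (bb i x z) ^ 2 + 5 bb i x x = 55`.
`row_mov`: `bb j x x = 0` (`inner`).  `row_le`: if `bb j x z ≥ 3` then the five elements `k • z` (different, `bb_right`) contribute at least
`5 * 3 * 2 = 30` to `∑ (bb ^ 2 - bb) = 55 - 35 = 20`: contradiction.
`row_one`: values in `{0, 1, 2}`, `n₁ + 2 n₂ = 35`, `n₁ + 4 n₂ = 55`: `n₁ = 15`.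
`row_fix`: `i ∈ {i₁, i₂}`, `bb i x x = 2`: `∑ (bb ^ 2 - bb) = 55 - 10 - 35 = 10`, and the five vertices `k • x` contribute
`5 * 2 = 10` already, so all others contribute `0`: `bb i x z ≤ 1`.
-/

set_option autoImplicit false

namespace Pool.Agent.Work.MP_37fea8_co

variable {V : Type} [Fintype V] [DecidableEq V] {c : V → V → Fin 7}

variable {H : Type} [Group H] [MulAction H V] [MulAction H (Fin 7)] {K : Subgroup H}
  {i₁ i₂ : Fin 7}

private theorem rows_keeps (hB : StB c H K i₁ i₂) (i : Fin 7) : Keeps c K i := by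
  intro k x y hxy
  have h1 : c (k • x) (k • y) = c x y := by
    have h2 := hB.act.act (k : H) x y hxy
    rw [hB.fixK _ k.2] at h2
    exact h2
  rw [h1]

private theorem rows_free (hB : StB c H K i₁ i₂) : Free V K := by
  intro k x h
  exact Subtype.ext (hB.freeK (k : H) k.2 x h)

private theorem rows_card (hB : StB c H K i₁ i₂) [Fintype K] : Fintype.card K = 5 := by
  rw [← Nat.card_eq_fintype_card]
  exact hB.cardK

private theorem rows_orb (hB : StB c H K i₁ i₂) [Fintype K] (z : V) :
    (Finset.univ.image fun k : K => k • z).card = 5 := by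
  rw [Finset.card_image_of_injective, Finset.card_univ, rows_card hB]
  intro k k' h
  have h1 : k • z = k' • z := h
  have h2 : (k'⁻¹ * k) • z = z := by
    rw [mul_smul, h1, inv_smul_smul]
  have h3 := rows_free hB _ _ h2
  exact (inv_mul_eq_one.1 h3).symm

theorem StB.row_mov (hc : Moore c) (hB : StB c H K i₁ i₂) [Fintype K] {j : Fin 7}
    (hj : j ∈ mov i₁ i₂) (x : V) :
    ∑ z, bb c K j x z = 35 ∧ ∑ z, bb c K j x z ^ 2 = 55 := by
  have h1 := bb_sum (K := K) hc j x
  have h2 := bb_gram_self hc (rows_keeps hB j) (rows_free hB) x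
  rw [(hB.inner hc x).1 j hj, rows_card hB] at h2
  rw [rows_card hB] at h1
  exact ⟨h1, by omega⟩

theorem StB.row_le (hc : Moore c) (hB : StB c H K i₁ i₂) [Fintype K] {j : Fin 7}
    (hj : j ∈ mov i₁ i₂) (x z : V) : bb c K j x z ≤ 2 := by
  by_contra hlt
  obtain ⟨h1, h2⟩ := hB.row_mov hc hj x
  have h3 : ∑ w, (bb c K j x w + if w ∈ Finset.univ.image (fun k : K => k • z) then 6 else 0) ≤
      ∑ w, bb c K j x w ^ 2 := by
    refine Finset.sum_le_sum fun w _ => ?_
    split_ifs with hw
    · obtain ⟨k, -, rfl⟩ := Finset.mem_image.1 hw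
      rw [bb_right]
      have h4 : 3 ≤ bb c K j x z := by omega
      nlinarith
    · rw [add_zero]
      exact Nat.le_self_pow two_ne_zero _
  rw [Finset.sum_add_distrib, h1, h2, Finset.sum_ite_mem, Finset.univ_inter, Finset.sum_const,
    rows_orb hB z] at h3
  norm_num at h3

theorem StB.row_one (hc : Moore c) (hB : StB c H K i₁ i₂) [Fintype K] {j : Fin 7}
    (hj : j ∈ mov i₁ i₂) (x : V) : (Finset.univ.filter fun z => bb c K j x z = 1).card = 15 := by
  obtain ⟨h1, h2⟩ := hB.row_mov hc hj x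
  have h3 : ∑ w, (bb c K j x w ^ 2 + if bb c K j x w = 1 then 1 else 0) =
      ∑ w, 2 * bb c K j x w := by
    refine Finset.sum_congr rfl fun w _ => ?_
    have h4 := hB.row_le hc hj x w
    generalize bb c K j x w = n at h4
    interval_cases n <;> rfl
  rw [Finset.sum_add_distrib, ← Finset.mul_sum, h1, h2, Finset.sum_boole] at h3
  have h5 : (((Finset.univ.filter fun z => bb c K j x z = 1).card : ℕ) : ℕ) =
    (Finset.univ.filter fun z => bb c K j x z = 1).card := rfl
  simp only [Nat.cast_id] at h3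
  omega

theorem StB.row_fix (hc : Moore c) (hB : StB c H K i₁ i₂) [Fintype K] {i : Fin 7}
    (hi : i = i₁ ∨ i = i₂) {x z : V} (hz : ∀ k ∈ K, k • z ≠ x) : bb c K i x z ≤ 1 := by
  by_contra hlt
  have hxx : bb c K i x x = 2 := by
    rcases hi with rfl | rfl
    · exact (hB.inner hc x).2.1
    · exact (hB.inner hc x).2.2
  have h1 := bb_sum (K := K) hc i x
  have h2 := bb_gram_self hc (rows_keeps hB i) (rows_free hB) x
  rw [hxx, rows_card hB] at h2
  rw [rows_card hB] at h1
  have h3 : ∑ w, ((bb c K i x w +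
      if w ∈ Finset.univ.image (fun k : K => k • x) then 2 else 0) + if w = z then 2 else 0) ≤
      ∑ w, bb c K i x w ^ 2 := by
    refine Finset.sum_le_sum fun w _ => ?_
    by_cases hw : w ∈ Finset.univ.image (fun k : K => k • x)
    · rw [if_pos hw]
      obtain ⟨k, -, rfl⟩ := Finset.mem_image.1 hw
      have h4 : k • x ≠ z := by
        rintro rfl
        exact hz (k : H)⁻¹ (K.inv_mem k.2) (inv_smul_smul (k : H) x)
      rw [if_neg h4, bb_right, hxx]
      norm_num
    · rw [if_neg hw, add_zero]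
      by_cases h4 : w = z
      · rw [if_pos h4, h4]
        have h5 : 2 ≤ bb c K i x z := by omega
        nlinarith
      · rw [if_neg h4, add_zero]
        exact Nat.le_self_pow two_ne_zero _
  rw [Finset.sum_add_distrib, Finset.sum_add_distrib, h1, Finset.sum_ite_mem, Finset.univ_inter,
    Finset.sum_const, rows_orb hB x, Finset.sum_ite_eq' Finset.univ z,
    if_pos (Finset.mem_univ z)] at h3
  simp only [smul_eq_mul] at h3
  omega

end Pool.Agent.Work.MP_37fea8_co
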