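import Mathlib
import Pool.Agent.Work.MP_37fea8_co.AU.Rows
import Pool.Agent.Work.MP_37fea8_co.AU.FDvd

/-!
# AU/CaseB1 (M-L)

No element outside of `K` has a fixed vertex.

PROOF.  Let `g ∉ K`, `g • f = f`.  `Z = {z | ∃ k ∈ K, k • z = g • z}` (classical filter); `f ∈ Z`.
`|Z| ≥ 25`: `H` acts on the complement of `Z` (commutativity), and freely: let `h • z = z`, `h ≠ 1`, `z ∉ Z`; `h ∉ K` (`freeK`), so by
`gen` `g = k * h ^ m`, `g • z = k • z`, `z ∈ Z`: contradiction.  By `free_dvd` (`|H| = 25`) `25 ∣ 50 - |Z|`, and `|Z| ≥ 1`.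
Let `j` be a moving colour (`exj`), `z ∈ Z` not in the orbit `K f`.  For every `m`: `g ^ m • z` is in the orbit `K z` (induction,
commutativity), so by `bb_act`, `bb_right`: `bb (g ^ m • j) f z = bb (g ^ m • j) (g ^ m • f) (g ^ m • z) = bb j f z`.  By `trans` all
moving colours have the same value `β = bb j f z`.  `bb_col_ne` (for `x = f`, `y = z`: `k • z ≠ f` for all `k ∈ K`): the sum over all
colours is `5 = 5 β + bb i₁ f z + bb i₂ f z`, the last two are `≤ 1` (`row_fix`): `β = 1`.
So `bb j f z = 1` for at least `|Z| - 5 ≥ 20` vertices: contradiction to `row_one` (`15`).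
-/

set_option autoImplicit false

namespace Pool.Agent.Work.MP_37fea8_co

variable {V : Type} [Fintype V] [DecidableEq V] {c : V → V → Fin 7}

variable {H : Type} [Group H] [MulAction H V] [MulAction H (Fin 7)] {K : Subgroup H}
  {i₁ i₂ : Fin 7}

theorem StB.no_fix (hc : Moore c) (hB : StB c H K i₁ i₂) {g : H} (hg : g ∉ K) (f : V) :
    g • f ≠ f := by
  classical
  intro hgf
  haveI : Finite K := Nat.finite_of_card_ne_zero (by rw [hB.cardK]; norm_num)
  haveI : Fintype K := Fintype.ofFinite K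
  haveI : Finite H := Nat.finite_of_card_ne_zero (by rw [hB.cardH]; norm_num)
  haveI : Fintype H := Fintype.ofFinite H
  have hH : Fintype.card H = 25 := by rw [← Nat.card_eq_fintype_card, hB.cardH]
  have hK5 : Fintype.card K = 5 := hB.card
  have hsw : ∀ (a b : H) (x : V), a • b • x = b • a • x := by
    intro a b x
    rw [← mul_smul, ← mul_smul, hB.comm a b]
  obtain ⟨Z, hZ⟩ : ∃ Z : Finset V, ∀ z, z ∈ Z ↔ ∃ k ∈ K, k • z = g • z :=
    ⟨Finset.univ.filter fun z => ∃ k ∈ K, k • z = g • z, fun z => by simp⟩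
  have hfZ : f ∈ Z := by
    rw [hZ]
    exact ⟨1, K.one_mem, by rw [one_smul, hgf]⟩
  -- the size of `Z`
  have hdvd : 25 ∣ Zᶜ.card := by
    rw [← hH]
    apply free_dvd
    · intro h z hz
      rw [Finset.mem_compl, hZ] at hz ⊢
      rintro ⟨k, hk, hkz⟩
      apply hz
      refine ⟨k, hk, ?_⟩
      rw [hsw k h, hsw g h] at hkz
      exact MulAction.injective h hkz
    · intro h z hz hhz
      rw [Finset.mem_compl, hZ] at hz
      by_contra h1
      have hhK : h ∉ K := fun hhK => h1 (hB.freeK h hhK z hhz)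
      obtain ⟨m, -, k, hk, hg'⟩ := hB.gen h hhK g
      apply hz
      refine ⟨k, hk, ?_⟩
      have hm : ∀ m : ℕ, h ^ m • z = z := by
        intro m
        induction m with
        | zero => rw [pow_zero, one_smul]
        | succ m ih => rw [pow_succ, mul_smul, hhz, ih]
      rw [hg', mul_smul, hm]
  have hZc : 25 ≤ Z.card := by
    have h1 := Finset.card_add_card_compl Z
    rw [hc.card] at h1
    have h2 : 0 < Z.card := Finset.card_pos.2 ⟨f, hfZ⟩
    obtain ⟨t, ht⟩ := hdvd
    omega
  obtain ⟨j, hj1, hj2⟩ := StB.exj (i₁ := i₁) (i₂ := i₂)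
  have hjm : j ∈ mov i₁ i₂ := by
    unfold mov
    rw [Finset.mem_filter]
    exact ⟨Finset.mem_univ _, hj1, hj2⟩
  have hgm : ∀ m : ℕ, g ^ m • f = f := by
    intro m
    induction m with
    | zero => rw [pow_zero, one_smul]
    | succ m ih => rw [pow_succ, mul_smul, hgf, ih]
  -- the values
  have hval : ∀ z ∈ Z, (∀ k ∈ K, k • z ≠ f) → bb c K j f z = 1 := by
    intro z hz hzf
    obtain ⟨k0, hk0, hk0z⟩ := (hZ z).1 hz
    have horb : ∀ m : ℕ, ∃ k ∈ K, g ^ m • z = k • z := by
      intro m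
      induction m with
      | zero => exact ⟨1, K.one_mem, by rw [pow_zero]⟩
      | succ m ih =>
        obtain ⟨k, hk, hkz⟩ := ih
        refine ⟨k * k0, K.mul_mem hk hk0, ?_⟩
        rw [pow_succ', mul_smul, hkz, hsw, ← hk0z, mul_smul]
    have hmv : ∀ j' ∈ mov i₁ i₂, bb c K j' f z = bb c K j f z := by
      intro j' hj'
      unfold mov at hj'
      rw [Finset.mem_filter] at hj'
      obtain ⟨m, -, hm⟩ := hB.trans g hg j j' hj1 hj2 hj'.2.1 hj'.2.2
      obtain ⟨k, hk, hkz⟩ := horb m
      have h1 := hB.bb_act (g ^ m) j f z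
      rw [hm, hgm, hkz] at h1
      rw [← h1]
      exact (bb_right j' f z (⟨k, hk⟩ : K)).symm
    have hsum := bb_col_ne (c := c) (K := K) (x := f) (y := z) (fun k => hzf k k.2)
    rw [hK5, ← Finset.sum_filter_add_sum_filter_not Finset.univ (fun j => j ≠ i₁ ∧ j ≠ i₂)]
      at hsum
    have hcomp : (Finset.univ.filter fun j : Fin 7 => ¬ (j ≠ i₁ ∧ j ≠ i₂)) = {i₁, i₂} := by
      ext i
      rw [Finset.mem_filter, Finset.mem_insert, Finset.mem_singleton]
      constructor
      · rintro ⟨-, h⟩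
        by_cases h1 : i = i₁
        · exact Or.inl h1
        · right
          by_contra h2
          exact h ⟨h1, h2⟩
      · rintro (h | h)
        · exact ⟨Finset.mem_univ _, fun h1 => h1.1 h⟩
        · exact ⟨Finset.mem_univ _, fun h1 => h1.2 h⟩
    have hmsum : ∑ i ∈ Finset.univ.filter (fun j : Fin 7 => j ≠ i₁ ∧ j ≠ i₂), bb c K i f z =
        5 * bb c K j f z := by
      have h1 : ∑ i ∈ mov i₁ i₂, bb c K i f z = ∑ i ∈ mov i₁ i₂, bb c K j f z :=
        Finset.sum_congr rfl hmv
      rw [Finset.sum_const, hB.mov_card, smul_eq_mul] at h1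
      exact h1
    rw [hmsum, hcomp, Finset.sum_pair hB.ne] at hsum
    have h1 := hB.row_fix hc (i := i₁) (Or.inl rfl) hzf
    have h2 := hB.row_fix hc (i := i₂) (Or.inr rfl) hzf
    omega
  -- the contradiction
  have hone := hB.row_one hc hjm f
  have hO : (Finset.univ.image fun k : K => k • f).card ≤ 5 := by
    refine Finset.card_image_le.trans ?_
    rw [Finset.card_univ, hK5]
  have hsub : Z \ (Finset.univ.image fun k : K => k • f) ⊆
      Finset.univ.filter fun z => bb c K j f z = 1 := by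
    intro z hz
    rw [Finset.mem_sdiff] at hz
    rw [Finset.mem_filter]
    refine ⟨Finset.mem_univ _, hval z hz.1 ?_⟩
    intro k hk hkz
    apply hz.2
    rw [Finset.mem_image]
    refine ⟨⟨k⁻¹, K.inv_mem hk⟩, Finset.mem_univ _, ?_⟩
    show k⁻¹ • f = z
    rw [← hkz, inv_smul_smul]
  have h1 := Finset.card_le_card hsub
  have h2 := Finset.le_card_sdiff (Finset.univ.image fun k : K => k • f) Z
  rw [hone] at h1
  omega

end Pool.Agent.Work.MP_37fea8_co
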