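import Mathlib
import Pool.Agent.Work.MP_37fea8_co.AU.Rows
import Pool.Agent.Work.MP_37fea8_co.AU.Two

/-!
# AU/Mov (M-L)

The free case: the sums over the moving colours.

PROOFS.  `free_fix`: `i ∈ {i₁, i₂}` is fixed by `H`, so `Keeps c H i`, and `bb c H i x x = 2` (`free_two`), `bb c K i x x = 2` (`inner`):
the two elements `h` with `h • x ∈ nb c i x` are in `K`.  So if `z = h • x` is not in the orbit `K x` (i.e. `h ∉ K`) then all `k * h ∉ K`
and `bb c K i x z = 0`.  If `z` is not in the orbit `H x`: `bb c K i x z ≤ 1` (`row_fix`); `∑_z bb c K i x z = 35` (`bb_sum`), the five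
`z ∈ K x` contribute `10`, the other vertices of `H x` contribute `0`, so the `25` vertices outside of `H x` contribute `25`: all are `1`.
`free_mov`: `bb_col_ne` (sum over all colours `5`) minus the two fixed colours (`i₁ ≠ i₂`).
-/

set_option autoImplicit false

namespace Pool.Agent.Work.MP_37fea8_co

variable {V : Type} [Fintype V] [DecidableEq V] {c : V → V → Fin 7}

variable {H : Type} [Group H] [MulAction H V] [MulAction H (Fin 7)] {K : Subgroup H}
  {i₁ i₂ : Fin 7}

private theorem mov_keeps (hB : StB c H K i₁ i₂) {i : Fin 7} (hi : i = i₁ ∨ i = i₂) :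
    Keeps c H i := by
  intro h x y hxy
  rw [hB.act.act h x y hxy]
  have h1 : h • i = i := by
    rcases hi with rfl | rfl
    · exact hB.fix₁ h
    · exact hB.fix₂ h
  constructor
  · intro h2
    exact smul_left_cancel h (h2.trans h1.symm)
  · intro h2
    rw [h2, h1]

private theorem mov_mem (hc : Moore c) (hB : StB c H K i₁ i₂) [Fintype K] (hf : Free V H)
    {i : Fin 7} (hi : i = i₁ ∨ i = i₂) {x : V} {h : H} (h1 : h • x ≠ x) (h2 : c x (h • x) = i) :
    h ∈ K := by
  classical
  have : Finite H := Nat.finite_of_card_ne_zero (by rw [hB.cardH]; norm_num)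
  have : Fintype H := Fintype.ofFinite H
  have hH : Fintype.card H = 25 := by
    rw [← Nat.card_eq_fintype_card, hB.cardH]
  have h3 : bb c H i x x = 2 := free_two hc H hH hf (mov_keeps hB hi) x
  have h4 : bb c K i x x = 2 := by
    rcases hi with rfl | rfl
    · exact (hB.inner hc x).2.1
    · exact (hB.inner hc x).2.2
  unfold bb at h3 h4
  have h5 : ((Finset.univ.filter fun k : K => k • x ≠ x ∧ c x (k • x) = i).image
      (fun k : K => (k : H))) = Finset.univ.filter fun k : H => k • x ≠ x ∧ c x (k • x) = i := by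
    apply Finset.eq_of_subset_of_card_le
    · intro a ha
      rw [Finset.mem_image] at ha
      obtain ⟨k, hk, rfl⟩ := ha
      rw [Finset.mem_filter] at hk ⊢
      exact ⟨Finset.mem_univ _, hk.2⟩
    · rw [Finset.card_image_of_injective _ Subtype.val_injective, h3, h4]
  have h6 : h ∈ (Finset.univ.filter fun k : H => k • x ≠ x ∧ c x (k • x) = i) :=
    Finset.mem_filter.2 ⟨Finset.mem_univ _, h1, h2⟩
  rw [← h5, Finset.mem_image] at h6
  obtain ⟨k, _, hk⟩ := h6
  rw [← hk]
  exact k.2

private theorem mov_zero (hc : Moore c) (hB : StB c H K i₁ i₂) [Fintype K] (hf : Free V H)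
    {i : Fin 7} (hi : i = i₁ ∨ i = i₂) {x z : V} (hz : ∀ k ∈ K, k • z ≠ x)
    (h : ∃ h : H, h • x = z) : bb c K i x z = 0 := by
  obtain ⟨h, rfl⟩ := h
  unfold bb
  rw [Finset.card_eq_zero, Finset.filter_eq_empty_iff]
  rintro ⟨k, hk⟩ _ ⟨h1, h2⟩
  have h1' : (k * h) • x ≠ x := by
    rw [mul_smul]
    exact h1
  have h2' : c x ((k * h) • x) = i := by
    rw [mul_smul]
    exact h2
  have h3 : k * h ∈ K := mov_mem hc hB hf hi h1' h2'
  have h4 : h ∈ K := by
    have h5 := K.mul_mem (K.inv_mem hk) h3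
    rwa [inv_mul_cancel_left] at h5
  exact hz h⁻¹ (K.inv_mem h4) (inv_smul_smul h x)

private theorem mov_one (hc : Moore c) (hB : StB c H K i₁ i₂) [Fintype K] (hf : Free V H)
    {i : Fin 7} (hi : i = i₁ ∨ i = i₂) {x z : V} (h : ∀ h : H, h • x ≠ z) :
    bb c K i x z = 1 := by
  classical
  have : Finite H := Nat.finite_of_card_ne_zero (by rw [hB.cardH]; norm_num)
  have : Fintype H := Fintype.ofFinite H
  have hH : Fintype.card H = 25 := by
    rw [← Nat.card_eq_fintype_card, hB.cardH]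
  have h4 : bb c K i x x = 2 := by
    rcases hi with rfl | rfl
    · exact (hB.inner hc x).2.1
    · exact (hB.inner hc x).2.2
  have hsum : ∑ z, bb c K i x z = 35 := by
    rw [bb_sum hc i x, hB.card]
  set A : Finset V := Finset.univ.image (fun h : H => h • x) with hA
  set B : Finset V := Finset.univ.image (fun k : K => k • x) with hBd
  have cA : A.card = 25 := by
    rw [hA, Finset.card_image_of_injective, Finset.card_univ, hH]
    intro a b hab
    have hab' : a • x = b • x := hab
    have h5 : (b⁻¹ * a) • x = x := by rw [mul_smul, hab', inv_smul_smul]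
    have h6 := hf _ _ h5
    rw [inv_mul_eq_one] at h6
    exact h6.symm
  have cB : B.card = 5 := by
    rw [hBd, Finset.card_image_of_injective, Finset.card_univ, hB.card]
    intro a b hab
    have hab' : a • x = b • x := hab
    have h5 : (b⁻¹ * a) • x = x := by rw [mul_smul, hab', inv_smul_smul]
    have h6 := hB.free _ _ h5
    rw [inv_mul_eq_one] at h6
    exact h6.symm
  have hBA : B ⊆ A := by
    intro y hy
    rw [hBd, Finset.mem_image] at hy
    obtain ⟨k, _, rfl⟩ := hy
    rw [hA, Finset.mem_image]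
    exact ⟨(k : H), Finset.mem_univ _, rfl⟩
  have sB : ∑ y ∈ B, bb c K i x y = 10 := by
    have h5 : ∀ y ∈ B, bb c K i x y = 2 := by
      intro y hy
      rw [hBd, Finset.mem_image] at hy
      obtain ⟨k, _, rfl⟩ := hy
      rw [bb_right, h4]
    rw [Finset.sum_congr rfl h5, Finset.sum_const, cB]
    rfl
  have nB : ∀ y, y ∉ B → ∀ k ∈ K, k • y ≠ x := by
    intro y hy k hk h5
    apply hy
    rw [hBd, Finset.mem_image]
    refine ⟨(⟨k, hk⟩ : K)⁻¹, Finset.mem_univ _, ?_⟩
    have h6 : k⁻¹ • x = y := by rw [← h5, inv_smul_smul]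
    exact h6
  have sAB : ∑ y ∈ A \ B, bb c K i x y = 0 := by
    apply Finset.sum_eq_zero
    intro y hy
    rw [Finset.mem_sdiff] at hy
    apply mov_zero hc hB hf hi (nB y hy.2)
    have h5 := hy.1
    rw [hA, Finset.mem_image] at h5
    obtain ⟨h, _, hh⟩ := h5
    exact ⟨h, hh⟩
  have sA : ∑ y ∈ A, bb c K i x y = 10 := by
    rw [← Finset.sum_sdiff hBA, sAB, sB]
  have sC : ∑ y ∈ Aᶜ, bb c K i x y = 25 := by
    have h5 := Finset.sum_add_sum_compl A (fun y => bb c K i x y)
    rw [hsum, sA] at h5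
    omega
  have cC : Aᶜ.card = 25 := by
    rw [Finset.card_compl, cA, hc.card]
  have leC : ∀ y ∈ Aᶜ, bb c K i x y ≤ 1 := by
    intro y hy
    rw [Finset.mem_compl] at hy
    exact hB.row_fix hc hi (nB y fun h5 => hy (hBA h5))
  have hzC : z ∈ Aᶜ := by
    rw [Finset.mem_compl, hA, Finset.mem_image]
    rintro ⟨h5, _, h6⟩
    exact h h5 h6
  by_contra hne
  have hlt : bb c K i x z < 1 := lt_of_le_of_ne (leC z hzC) hne
  have h7 : ∑ y ∈ Aᶜ, bb c K i x y < ∑ y ∈ Aᶜ, 1 := Finset.sum_lt_sum leC ⟨z, hzC, hlt⟩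
  rw [sC, Finset.sum_const, cC] at h7
  norm_num at h7

theorem StB.free_fix (hc : Moore c) (hB : StB c H K i₁ i₂) [Fintype K] (hf : Free V H)
    {i : Fin 7} (hi : i = i₁ ∨ i = i₂) {x z : V} (hz : ∀ k ∈ K, k • z ≠ x) :
    ((∃ h : H, h • x = z) → bb c K i x z = 0) ∧ ((∀ h : H, h • x ≠ z) → bb c K i x z = 1) :=
  ⟨fun h => mov_zero hc hB hf hi hz h, fun h => mov_one hc hB hf hi h⟩

theorem StB.free_mov (hc : Moore c) (hB : StB c H K i₁ i₂) [Fintype K] (hf : Free V H)
    {x z : V} (hz : ∀ k ∈ K, k • z ≠ x) :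
    ((∃ h : H, h • x = z) → ∑ j ∈ mov i₁ i₂, bb c K j x z = 5) ∧
      ((∀ h : H, h • x ≠ z) → ∑ j ∈ mov i₁ i₂, bb c K j x z = 3) := by
  have h1 : ∑ i, bb c K i x z = 5 := by
    have h0 : ∀ k : K, k • z ≠ x := fun k => hz k k.2
    rw [bb_col_ne h0, hB.card]
  have h2 : (Finset.univ : Finset (Fin 7)) = insert i₁ (insert i₂ (mov i₁ i₂)) := by
    ext j
    simp only [Finset.mem_univ, Finset.mem_insert, mov, Finset.mem_filter, true_and, true_iff]
    tauto
  have h3 : i₁ ∉ insert i₂ (mov i₁ i₂) := by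
    simp only [Finset.mem_insert, mov, Finset.mem_filter, Finset.mem_univ, true_and, not_or]
    exact ⟨hB.ne, fun h => h.1 rfl⟩
  have h4 : i₂ ∉ mov i₁ i₂ := by
    simp only [mov, Finset.mem_filter, Finset.mem_univ, true_and]
    exact fun h => h.2 rfl
  rw [h2, Finset.sum_insert h3, Finset.sum_insert h4] at h1
  have f1 := hB.free_fix hc hf (Or.inl rfl) hz
  have f2 := hB.free_fix hc hf (Or.inr rfl) hz
  constructor
  · intro h
    rw [f1.1 h, f2.1 h] at h1
    omega
  · intro h
    rw [f1.2 h, f2.2 h] at h1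
    omega

end Pool.Agent.Work.MP_37fea8_co
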