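import Mathlib
import Pool.Agent.Work.MP_37fea8_co.AU.StL

/-!
# AU/Tran (M)

Ten representatives of the orbits of `K`.

PROOF.  `H ⊕ H → V`, `inl h ↦ h • x₀`, `inr h ↦ h • y₀` is injective (free; `y₀` is not in the orbit of `x₀`) and both sides have `50`
elements, so it is bijective: `∑_z F z = ∑_h F (h • x₀) + ∑_h F (h • y₀)`.  `K × Fin 5 → H`, `(k, t) ↦ k * g ^ t` is a bijection
(surjective by `gen`, `25` elements on both sides), and `F (k • g ^ t • x₀) = F (g ^ t • x₀)`, `|K| = 5`.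
-/

set_option autoImplicit false

namespace Pool.Agent.Work.MP_37fea8_co

variable {V : Type} [Fintype V] [DecidableEq V] {c : V → V → Fin 7}

variable {H : Type} [Group H] [MulAction H V] [MulAction H (Fin 7)] {K : Subgroup H}
  {i₁ i₂ : Fin 7}

theorem StB.sum_tran (hc : Moore c) (hB : StB c H K i₁ i₂) (hf : Free V H) {g : H} (hg : g ∉ K)
    {x₀ y₀ : V} (hxy : ∀ h : H, h • x₀ ≠ y₀) (F : V → ℕ) (hF : ∀ k ∈ K, ∀ z, F (k • z) = F z) :
    ∑ z, F z = 5 * (∑ t : Fin 5, F (g ^ (t : ℕ) • x₀) + ∑ t : Fin 5, F (g ^ (t : ℕ) • y₀)) := by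
  classical
  haveI hfin : Finite H := Nat.finite_of_card_ne_zero (by rw [hB.cardH]; norm_num)
  haveI : Fintype H := Fintype.ofFinite H
  have hcardH : Fintype.card H = 25 := by
    rw [← Nat.card_eq_fintype_card, hB.cardH]
  have hcardK : Fintype.card K = 5 := by
    rw [← Nat.card_eq_fintype_card, hB.cardK]
  -- the bijection `H ⊕ H → V`
  have hfree : ∀ (a b : H) (x : V), a • x = b • x → a = b := by
    intro a b x hab
    have h1 : (b⁻¹ * a) • x = x := by
      rw [mul_smul, hab, inv_smul_smul]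
    have h2 := hf (b⁻¹ * a) x h1
    rw [inv_mul_eq_one] at h2
    exact h2.symm
  obtain ⟨φ, hφ⟩ : ∃ φ : H ⊕ H → V, φ = Sum.elim (fun h => h • x₀) (fun h => h • y₀) := ⟨_, rfl⟩
  have hφinj : Function.Injective φ := by
    rw [hφ]
    rintro (a | a) (b | b) hab
    · exact congrArg Sum.inl (hfree a b x₀ hab)
    · exfalso
      apply hxy (b⁻¹ * a)
      have : a • x₀ = b • y₀ := hab
      rw [mul_smul, this, inv_smul_smul]
    · exfalso
      apply hxy (a⁻¹ * b)
      have : a • y₀ = b • x₀ := hab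
      rw [mul_smul, ← this, inv_smul_smul]
    · exact congrArg Sum.inr (hfree a b y₀ hab)
  have hφbij : Function.Bijective φ := by
    rw [Fintype.bijective_iff_injective_and_card]
    refine ⟨hφinj, ?_⟩
    rw [Fintype.card_sum, hcardH, hc.card]
  have e1 : ∑ z, F z = ∑ h : H, F (h • x₀) + ∑ h : H, F (h • y₀) := by
    rw [← hφbij.sum_comp F, Fintype.sum_sum_type, hφ]
    rfl
  -- the bijection `K × Fin 5 → H`
  have hψsurj : Function.Surjective (fun p : K × Fin 5 => (p.1 : H) * g ^ (p.2 : ℕ)) := by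
    intro h
    obtain ⟨m, hm, k, hk, rfl⟩ := hB.gen g hg h
    exact ⟨(⟨k, hk⟩, ⟨m, hm⟩), rfl⟩
  have hψbij : Function.Bijective (fun p : K × Fin 5 => (p.1 : H) * g ^ (p.2 : ℕ)) := by
    rw [Fintype.bijective_iff_surjective_and_card]
    refine ⟨hψsurj, ?_⟩
    rw [Fintype.card_prod, hcardK, hcardH, Fintype.card_fin]
  have e2 : ∀ x : V, ∑ h : H, F (h • x) = 5 * ∑ t : Fin 5, F (g ^ (t : ℕ) • x) := by
    intro x
    rw [← hψbij.sum_comp (fun h => F (h • x)), Fintype.sum_prod_type]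
    have h3 : ∀ k : K, ∑ t : Fin 5, F (((k : H) * g ^ (t : ℕ)) • x) =
        ∑ t : Fin 5, F (g ^ (t : ℕ) • x) := by
      intro k
      refine Finset.sum_congr rfl fun t _ => ?_
      rw [mul_smul]
      exact hF k k.2 _
    rw [Finset.sum_congr rfl fun k _ => h3 k, Finset.sum_const, Finset.card_univ, hcardK,
      smul_eq_mul]
  rw [e1, e2, e2]
  ring

end Pool.Agent.Work.MP_37fea8_co
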