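import Mathlib
import Pool.Agent.Work.MP_37fea8_co.AU.Mov
import Pool.Agent.Work.MP_37fea8_co.AU.Tran

/-!
# AU/CaseB2 (M-L)

The free case gives a solution of the system `Sys25`.

PROOF.  Choose `g ∉ K` (`exg`), a moving colour `j` (`exj`), `x₀ : V`, and `y₀` outside of the orbit `H x₀` (`25` elements).
`U r s = bb c K j (g ^ r • x₀) (g ^ s • x₀)`, `C r s = bb c K j (g ^ r • x₀) (g ^ s • y₀)`, `W r s = bb c K j (g ^ r • y₀) (g ^ s • y₀)`.
`symU`, `symW`: `bb_symm`; `diagU`, `diagW`: `inner`.  `rowU`, `rowW`: `bb_sum` (`35`) and `sum_tran` for `F = bb c K j x` (`bb_right`), and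
`bb_symm` for the columns of `C`.  `gramU`, `gramW`, `gramC`: `bb_gram_ne`, `bb_gram_self` with `n = 5`: the sum over `z` is `5` times
the sum over the representatives (`sum_tran`); so `sum over representatives + bb x y = 5` for `x, y` in different orbits of `K`, and
`= 11` for `x = y`.  `g ^ r • x₀` and `g ^ s • x₀` are in the same orbit of `K` only if `r = s` (`g ^ (r - s) ∉ K`, as `g ∉ K`, `g ^ 5 ∈ K`;
free action), and `g ^ r • x₀`, `g ^ s • y₀` never.
`cycU`: `d ≠ 0`.  `g ^ ((r + d) % 5) • x₀` is in the orbit of `g ^ (r + d) • x₀` under `K` (`pow5`), so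
`U r (r + d) = bb j (g ^ r • x₀) (g ^ r • g ^ d • x₀) = bb (g⁻¹ ^ r • j) x₀ (g ^ d • x₀)` (`bb_act` for `g⁻¹ ^ r`), and
`sum_mov` for `g⁻¹ ∉ K` gives `∑_{j'} bb j' x₀ (g ^ d • x₀) = 5` (`free_mov`: `g ^ d • x₀` is in `H x₀` but not in `K x₀`).
`cycW`: the same with `y₀`.  `cycC`: the same with `bb j' x₀ (g ^ d • y₀)`: `3`.
-/

set_option autoImplicit false

namespace Pool.Agent.Work.MP_37fea8_co

variable {V : Type} [Fintype V] [DecidableEq V] {c : V → V → Fin 7}

variable {H : Type} [Group H] [MulAction H V] [MulAction H (Fin 7)] {K : Subgroup H}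
  {i₁ i₂ : Fin 7}

private theorem cb_coprime {t : H} (h7 : t ^ 5 ∈ K) {d : ℕ}
    (hd0 : 0 < d) (hd7 : d < 5) (hd : t ^ d ∈ K) : t ∈ K := by
  have hco : Nat.gcd d 5 = 1 := by
    interval_cases d <;> rfl
  have hb := Nat.gcd_eq_gcd_ab d 5
  rw [hco] at hb
  have h1 : t = (t ^ d) ^ (Nat.gcdA d 5) * (t ^ 5) ^ (Nat.gcdB d 5) := by
    have e1 : (t ^ d) ^ (Nat.gcdA d 5) = t ^ ((d : ℤ) * Nat.gcdA d 5) := by
      rw [zpow_mul, zpow_natCast]
    have e2 : (t ^ 5) ^ (Nat.gcdB d 5) = t ^ (((5 : ℕ) : ℤ) * Nat.gcdB d 5) := by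
      rw [zpow_mul, zpow_natCast]
    rw [e1, e2, ← zpow_add, ← hb]
    simp
  rw [h1]
  exact K.mul_mem (K.zpow_mem hd _) (K.zpow_mem h7 _)

private theorem cb_sep (hB : StB c H K i₁ i₂) (hf : Free V H) {g : H} (hg : g ∉ K)
    {r s : ℕ} (hr : r < 5) (hs : s < 5) (hrs : r ≠ s) {k : H} (hk : k ∈ K) (x : V) :
    k • g ^ s • x ≠ g ^ r • x := by
  intro h
  have h1 : ((g ^ r)⁻¹ * (k * g ^ s)) • x = x := by
    rw [mul_smul, mul_smul, h, inv_smul_smul]
  have h2 := hf _ x h1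
  have h3 : k * g ^ s = g ^ r := (inv_mul_eq_one.1 h2).symm
  rcases lt_or_gt_of_ne hrs with h4 | h4
  · have h5 : g ^ s = g ^ r * g ^ (s - r) := by
      rw [← pow_add]
      congr 1
      omega
    rw [h5, hB.comm k, mul_assoc] at h3
    have h6 : g ^ (s - r) * k = 1 := by
      have := mul_left_cancel (h3.trans (mul_one (g ^ r)).symm)
      exact this
    have h7 : g ^ (s - r) ∈ K := by
      rw [eq_inv_of_mul_eq_one_left h6]
      exact K.inv_mem hk
    exact hg (cb_coprime (hB.pow5 g) (by omega) (by omega) h7)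
  · have h5 : g ^ r = g ^ (r - s) * g ^ s := by
      rw [← pow_add]
      congr 1
      omega
    rw [h5] at h3
    have h6 : k = g ^ (r - s) := mul_right_cancel h3
    exact hg (cb_coprime (hB.pow5 g) (by omega) (by omega) (h6 ▸ hk))

private theorem cb_cyc (hB : StB c H K i₁ i₂) [Fintype K] {g : H} (hg : g ∉ K) {j : Fin 7}
    (hj : j ∈ mov i₁ i₂) (P Q : V) (d : Fin 5) :
    ∑ r : Fin 5, bb c K j (g ^ (r : ℕ) • P) (g ^ ((r + d : Fin 5) : ℕ) • Q) =
      ∑ j' ∈ mov i₁ i₂, bb c K j' P (g ^ (d : ℕ) • Q) := by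
  have hg' : g⁻¹ ∉ K := fun h => hg (by simpa using K.inv_mem h)
  rw [← hB.sum_mov hg' hj (fun j' => bb c K j' P (g ^ (d : ℕ) • Q))]
  refine Finset.sum_congr rfl fun r _ => ?_
  have h1 : g ^ ((r : ℕ) + d) = (g ^ 5) ^ (((r : ℕ) + d) / 5) * g ^ ((r + d : Fin 5) : ℕ) := by
    rw [Fin.val_add, ← pow_mul, ← pow_add, Nat.div_add_mod]
  have h2 : ((g ^ 5) ^ (((r : ℕ) + d) / 5)) ∈ K := K.pow_mem (hB.pow5 g) _
  have h3 : bb c K j (g ^ (r : ℕ) • P) (g ^ ((r : ℕ) + d) • Q) =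
      bb c K j (g ^ (r : ℕ) • P) (g ^ ((r + d : Fin 5) : ℕ) • Q) := by
    rw [h1, mul_smul]
    exact bb_right j _ _ (⟨_, h2⟩ : K)
  rw [← h3, pow_add, mul_smul]
  have h4 := hB.bb_act (g ^ (r : ℕ)) ((g⁻¹) ^ (r : ℕ) • j) P (g ^ (d : ℕ) • Q)
  rw [← h4]
  congr 1
  rw [inv_pow, smul_inv_smul]

theorem StB.sys (hc : Moore c) (hB : StB c H K i₁ i₂) (hf : Free V H) :
    ∃ U W C : Fin 5 → Fin 5 → ℕ, Sys25 U W C := by
  classical
  have hfinK : Finite K := Nat.finite_of_card_ne_zero (by rw [hB.cardK]; norm_num)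
  have hfinH : Finite H := Nat.finite_of_card_ne_zero (by rw [hB.cardH]; norm_num)
  letI : Fintype K := Fintype.ofFinite K
  letI : Fintype H := Fintype.ofFinite H
  have hcK : Fintype.card K = 5 := hB.card
  have hcH : Fintype.card H = 25 := by rw [← Nat.card_eq_fintype_card, hB.cardH]
  obtain ⟨g, hg⟩ := hB.exg
  obtain ⟨j, hj1, hj2⟩ := StB.exj (i₁ := i₁) (i₂ := i₂)
  have hj : j ∈ mov i₁ i₂ := by simp [mov, hj1, hj2]
  obtain ⟨x₀⟩ : Nonempty V := by
    rw [← Fintype.card_pos_iff, hc.card]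
    norm_num
  obtain ⟨y₀, hxy⟩ : ∃ y₀ : V, ∀ h : H, h • x₀ ≠ y₀ := by
    by_contra hno
    push Not at hno
    have h1 := Fintype.card_le_of_surjective (fun h : H => h • x₀) hno
    rw [hcH, hc.card] at h1
    norm_num at h1
  have hkeep := hB.keeps j
  have hfK : Free V K := hB.free
  set X : Fin 5 → V := fun t => g ^ (t : ℕ) • x₀ with hX
  set Y : Fin 5 → V := fun t => g ^ (t : ℕ) • y₀ with hY
  set b : V → V → ℕ := bb c K j with hb
  have hbs : ∀ x y, b x y = b y x := fun x y => bb_symm hc hkeep x y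
  have hbr : ∀ x y (k : H), k ∈ K → b x (k • y) = b x y := fun x y k hk =>
    bb_right j x y (⟨k, hk⟩ : K)
  have row : ∀ x, ∑ t, b x (X t) + ∑ t, b x (Y t) = 7 := by
    intro x
    have h1 : ∑ z, b x z = 7 * Fintype.card K := bb_sum hc j x
    have h2 := hB.sum_tran hc hf hg hxy (fun z => b x z) (fun k hk z => hbr x z k hk)
    rw [h1, hcK] at h2
    simp only [hX, hY]
    omega
  have gne : ∀ x y, (∀ k : K, k • y ≠ x) →
      ∑ t, b x (X t) * b y (X t) + ∑ t, b x (Y t) * b y (Y t) + b x y = 5 := by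
    intro x y h
    have h1 : ∑ z, b x z * b y z + Fintype.card K * b x y = Fintype.card K ^ 2 :=
      bb_gram_ne hc hkeep h
    have h2 := hB.sum_tran hc hf hg hxy (fun z => b x z * b y z) (fun k hk z => by
      rw [hbr x z k hk, hbr y z k hk])
    rw [h2, hcK] at h1
    simp only [hX, hY]
    omega
  have gself : ∀ x, ∑ t, b x (X t) * b x (X t) + ∑ t, b x (Y t) * b x (Y t) + b x x = 11 := by
    intro x
    have h1 : ∑ z, b x z ^ 2 + Fintype.card K * b x x =
      Fintype.card K * (Fintype.card K + 6) := bb_gram_self hc hkeep hfK x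
    have h2 := hB.sum_tran hc hf hg hxy (fun z => b x z ^ 2) (fun k hk z => by
      rw [hbr x z k hk])
    rw [h2, hcK] at h1
    simp only [hX, hY, ← sq]
    omega
  have sepX : ∀ (r s : Fin 5), r ≠ s → ∀ k : K, k • X s ≠ X r := fun r s hrs k =>
    cb_sep hB hf hg r.2 s.2 (fun h => hrs (Fin.ext h)) k.2 x₀
  have sepY : ∀ (r s : Fin 5), r ≠ s → ∀ k : K, k • Y s ≠ Y r := fun r s hrs k =>
    cb_sep hB hf hg r.2 s.2 (fun h => hrs (Fin.ext h)) k.2 y₀
  have sepXY : ∀ (r s : ℕ) (k : H), k • g ^ s • y₀ ≠ g ^ r • x₀ := by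
    intro r s k h
    apply hxy ((g ^ s)⁻¹ * (k⁻¹ * g ^ r))
    rw [mul_smul, mul_smul, ← h, inv_smul_smul, inv_smul_smul]
  refine ⟨fun r s => b (X r) (X s), fun r s => b (Y r) (Y s), fun r s => b (X r) (Y s), ?_⟩
  constructor
  · intro r s
    exact hbs _ _
  · intro r s
    exact hbs _ _
  · intro r
    exact (hB.inner hc (X r)).1 j hj
  · intro r
    exact (hB.inner hc (Y r)).1 j hj
  · intro r
    exact row (X r)
  · intro s
    have h1 := row (Y s)
    rw [← h1]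
    congr 1
    · exact Finset.sum_congr rfl fun r _ => hbs _ _
    · exact Finset.sum_congr rfl fun r _ => hbs _ _
  · intro r s
    split_ifs with hrs
    · subst hrs
      exact gself (X r)
    · exact gne (X r) (X s) (sepX r s hrs)
  · intro r s
    have e1 : ∑ t, b (X t) (Y r) * b (X t) (Y s) = ∑ t, b (Y r) (X t) * b (Y s) (X t) :=
      Finset.sum_congr rfl fun t _ => by rw [hbs (X t) (Y r), hbs (X t) (Y s)]
    rw [e1]
    split_ifs with hrs
    · subst hrs
      exact gself (Y r)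
    · exact gne (Y r) (Y s) (sepY r s hrs)
  · intro r s
    have e1 : ∑ t, b (X r) (X t) * b (X t) (Y s) = ∑ t, b (X r) (X t) * b (Y s) (X t) :=
      Finset.sum_congr rfl fun t _ => by rw [hbs (X t) (Y s)]
    have e2 : ∑ t, b (X r) (Y t) * b (Y t) (Y s) = ∑ t, b (X r) (Y t) * b (Y s) (Y t) :=
      Finset.sum_congr rfl fun t _ => by rw [hbs (Y t) (Y s)]
    rw [e1, e2]
    exact gne (X r) (Y s) (fun k => sepXY r s k)
  · intro d hd
    have h1 := cb_cyc hB hg hj x₀ x₀ d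
    have h2 := (hB.free_mov hc hf (x := x₀) (z := g ^ (d : ℕ) • x₀) (fun k hk => by
      have := cb_sep hB hf hg (r := 0) (s := d) (by norm_num) d.2 (fun h => hd (Fin.ext h.symm))
        hk x₀
      simpa using this)).1 ⟨_, rfl⟩
    exact h1.trans h2
  · intro d hd
    have h1 := cb_cyc hB hg hj y₀ y₀ d
    have h2 := (hB.free_mov hc hf (x := y₀) (z := g ^ (d : ℕ) • y₀) (fun k hk => by
      have := cb_sep hB hf hg (r := 0) (s := d) (by norm_num) d.2 (fun h => hd (Fin.ext h.symm))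
        hk y₀
      simpa using this)).1 ⟨_, rfl⟩
    exact h1.trans h2
  · intro d
    have h1 := cb_cyc hB hg hj x₀ y₀ d
    have h2 := (hB.free_mov hc hf (x := x₀) (z := g ^ (d : ℕ) • y₀) (fun k hk => by
      have := sepXY 0 d k
      simpa using this)).2 (fun h hh => by
        have := sepXY 0 d h⁻¹
        rw [pow_zero, one_smul] at this
        apply this
        rw [← hh, inv_smul_smul])
    exact h1.trans h2

end Pool.Agent.Work.MP_37fea8_co
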