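import Mathlib
import Pool.Agent.Work.MP_37fea8_co.Defs

/-!
# AU/S25T: the tables and the kernel computations for the search of order `25`
-/

set_option autoImplicit false

namespace Pool.Agent.Work.MP_37fea8_co

namespace S25

/-- A row with five small entries, packed with the base `64`, together with the reversed row. -/
def en (a b c d e : ℕ) : ℕ :=
  a + 64 * b + 4096 * c + 262144 * d + 16777216 * e +
    1073741824 * (e + 64 * d + 4096 * c + 262144 * b + 16777216 * a)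

/-- The row. -/
def lo (x : ℕ) : ℕ := x % 1073741824

/-- The rotations of the row. -/
def r1 (x : ℕ) : ℕ := lo x / 64 + (lo x % 64) * 16777216

/-- Rotation. -/
def r2 (x : ℕ) : ℕ := lo x / 4096 + (lo x % 4096) * 262144

/-- Rotation. -/
def r3 (x : ℕ) : ℕ := lo x / 262144 + (lo x % 262144) * 4096

/-- Rotation. -/
def r4 (x : ℕ) : ℕ := lo x / 16777216 + (lo x % 16777216) * 64

/-- The inner product of two rows. -/
def dt (x y : ℕ) : ℕ := (lo x * (y / 1073741824)) / 16777216 % 64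

/-- All digits are at most three (for digits less than `64`). -/
def ok3 (x : ℕ) : Bool := Nat.beq (Nat.land x 1022611260) 0

/-- The key of a row: the first entry is the most significant one. -/
def ky (a b c d e : ℕ) : ℕ := e + 64 * d + 4096 * c + 262144 * b + 16777216 * a

/-- The row is the largest one among its rotations. -/
def can (x : ℕ) : Bool :=
  let h := x / 1073741824
  Nat.ble (h / 64 + (h % 64) * 16777216) h && Nat.ble (h / 4096 + (h % 4096) * 262144) h &&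
    Nat.ble (h / 262144 + (h % 262144) * 4096) h && Nat.ble (h / 16777216 + (h % 16777216) * 64) h

/-- The tables: index `4 * n2 + n1`, rows with `n2` entries `2` and `n1` entries `1`. -/
def tabs : List (List ℕ) :=
  [[
      0],
   [
      1090519040, 68719738880, 4398046515200, 281474976710720, 18014398509481985],
   [
      69810257920, 4399137034240, 4466766254080, 281476067229760, 281543696449600,
      285873023225920, 18014399600001025, 18014467229220865, 18018796555997185, 18295873486192705],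
   [
      4467856773120, 281544786968640, 285874113744960, 285941742964800, 18014468319739905,
      18018797646516225, 18018865275736065, 18295874576711745, 18295942205931585,
      18300271532707905],
   [
      2181038080, 137439477760, 8796093030400, 562949953421440, 36028797018963970],
   [
      70900776960, 138529996800, 4400227553280, 4535485992960, 8797183549440, 8864812769280,
      281477157748800, 281612416188480, 290271069741120, 562951043940480, 563018673160320,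
      567347999936640, 18014400690520065, 18014535948959745, 18023194602512385,
      18577348462903425, 36028798109483010, 36028865738702850, 36033195065479170,
      36310271995674690],
   [
      4468947292160, 4536576512000, 8865903288320, 281545877487680, 281613506707520,
      285875204264000, 286010462703680, 290272160260160, 290339789480000, 563019763679360,
      567349090455680, 567416719675520, 18014469410258945, 18014537039478785, 18018798737035265,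
      18018933995474945, 18023195693031425, 18023263322251265, 18295875667230785,
      18296010925670465, 18304669579223105, 18577349553422465, 18577417182642305,
      18581746509418625, 36028866829221890, 36033196155998210, 36033263785218050,
      36310273086193730, 36310340715413570, 36314670042189890],
   [
      285943924002880, 286011553222720, 290340879999040, 567417810194560, 18018867456774145,
      18018935085993985, 18023264412770305, 18295944386969665, 18296012016189505,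
      18300273713745985, 18300408972185665, 18304670669742145, 18304738298961985,
      18577418273161345, 18581747599937665, 18581815229157505, 36033264875737090,
      36310341805932610, 36314671132708930, 36314738761928770],
   [
      139620515840, 8798274068480, 8933532508160, 562952134459520, 563087392899200,
      571746046451840, 36028799200002050, 36028934458441730, 36037593111994370, 36591746972385410],
   [
      4537667031040, 8866993807360, 8934623027200, 281614597226560, 290273250779200,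
      290408509218880, 563020854198400, 563088483418240, 567350180974720, 567485439414400,
      571747136970880, 571814766190720, 18014538129997825, 18023196783550465, 18023332041990145,
      18577350643941505, 18577485902381185, 18586144555933825, 36028867919740930,
      36028935548960770, 36033197246517250, 36033332504956930, 36037594202513410,
      36037661831733250, 36310274176712770, 36310409435152450, 36319068088705090,
      36591748062904450, 36591815692124290, 36596145018900610],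
   [
      286012643741760, 290341970518080, 290409599737920, 567418900713600, 567486529933440,
      571815856709760, 18018936176513025, 18023265503289345, 18023333132509185,
      18296013106708545, 18304671760261185, 18304807018700865, 18577419363680385,
      18577486992900225, 18581748690456705, 18581883948896385, 18586145646452865,
      18586213275672705, 36033265966256130, 36033333595475970, 36037662922252290,
      36310342896451650, 36310410525671490, 36314672223227970, 36314807481667650,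
      36319069179224130, 36319136808443970, 36591816782643330, 36596146109419650,
      36596213738639490],
   [
      18300411153223745, 18304740480000065, 18304808109219905, 18581817410195585,
      18581885039415425, 18586214366191745, 36314740942966850, 36314808572186690,
      36319137898963010, 36596214829158530]]

/-- Blocks with first cyclic row `[1, 1, 1, 1, 1]`. -/
def blocks1 : List (List ℕ) :=
  [[5, 5, 8, 5, 4, 3, 4, 3, 3, 5, 2, 5, 4, 4, 4],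
   [8, 5, 5, 8, 1, 3, 4, 5, 2, 4, 3, 4, 5, 5, 4],
   [5, 8, 5, 5, 4, 2, 5, 3, 3, 4, 3, 4, 4, 4, 5],
   [5, 8, 5, 4, 5, 3, 5, 2, 4, 4, 4, 3, 4, 3, 5],
   [5, 5, 8, 1, 8, 5, 4, 3, 5, 5, 4, 3, 4, 2, 4],
   [8, 5, 5, 4, 5, 3, 4, 3, 4, 4, 5, 2, 5, 3, 4],
   [4, 5, 8, 5, 5, 4, 4, 2, 4, 5, 3, 5, 3, 4, 3],
   [8, 1, 8, 5, 5, 4, 2, 4, 4, 5, 3, 3, 5, 4, 5],
   [8, 5, 4, 5, 5, 2, 4, 4, 4, 3, 5, 3, 5, 4, 3],
   [4, 5, 5, 8, 5, 5, 4, 3, 4, 4, 3, 4, 3, 5, 2],
   [1, 8, 5, 5, 8, 4, 5, 3, 5, 4, 5, 4, 2, 4, 3],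
   [5, 4, 5, 8, 5, 5, 3, 4, 4, 4, 2, 3, 4, 5, 3],
   [5, 8, 1, 8, 5, 3, 5, 4, 4, 2, 4, 5, 4, 5, 3],
   [5, 4, 5, 5, 8, 4, 3, 5, 5, 4, 3, 2, 4, 4, 3],
   [5, 5, 4, 5, 8, 3, 4, 5, 5, 3, 4, 3, 4, 4, 2]]

/-- Blocks with first cyclic row `[2, 0, 1, 1, 1]`. -/
def blocks2 : List (List ℕ) :=
  [[2, 6, 6, 5, 4, 3, 4, 2, 3, 5, 3, 5, 3, 3, 5],
   [6, 2, 6, 8, 1, 4, 2, 5, 3, 3, 3, 5, 5, 3, 5],
   [2, 6, 6, 4, 5, 4, 4, 1, 5, 5, 3, 3, 3, 3, 5],
   [6, 2, 6, 5, 4, 3, 2, 4, 5, 3, 3, 3, 5, 3, 5],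
   [1, 7, 5, 5, 5, 2, 5, 2, 4, 4, 5, 5, 2, 4, 5],
   [5, 5, 5, 8, 4, 3, 3, 5, 4, 2, 3, 5, 4, 4, 4],
   [2, 2, 6, 8, 5, 4, 2, 5, 5, 3, 1, 5, 5, 3, 3],
   [2, 6, 2, 8, 5, 2, 4, 5, 5, 1, 3, 5, 3, 5, 3]]

/-- Blocks with first cyclic row `[2, 0, 2, 0, 1]`. -/
def blocks3 : List (List ℕ) :=
  [[2, 3, 6, 3, 5, 4, 5, 2, 2, 4, 2, 5, 4, 1, 4],
   [5, 3, 3, 6, 2, 4, 4, 4, 1, 2, 2, 5, 4, 2, 5],
   [5, 2, 6, 5, 5, 5, 3, 4, 3, 3, 2, 5, 4, 1, 5],
   [2, 5, 6, 2, 8, 5, 5, 3, 4, 5, 2, 3, 3, 1, 5],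
   [5, 2, 6, 2, 8, 5, 3, 5, 5, 4, 2, 3, 3, 1, 5],
   [5, 3, 3, 2, 6, 4, 4, 4, 5, 4, 2, 1, 2, 2, 5],
   [1, 3, 6, 3, 6, 4, 5, 2, 4, 4, 4, 5, 4, 1, 2],
   [4, 6, 2, 6, 5, 3, 5, 4, 3, 2, 3, 5, 3, 3, 5],
   [4, 2, 6, 5, 6, 5, 3, 4, 5, 3, 3, 5, 4, 1, 3],
   [4, 5, 5, 5, 8, 4, 4, 5, 5, 3, 3, 4, 3, 2, 4],
   [4, 6, 2, 5, 6, 3, 5, 4, 5, 3, 3, 3, 2, 3, 5],
   [1, 3, 3, 6, 6, 4, 4, 4, 5, 2, 4, 5, 4, 2, 1],
   [1, 6, 2, 6, 8, 3, 5, 5, 5, 2, 4, 5, 3, 3, 3]]

/-- Blocks with first cyclic row `[2, 1, 0, 1, 1]`. -/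
def blocks4 : List (List ℕ) :=
  [[2, 5, 6, 6, 4, 3, 4, 3, 3, 5, 2, 5, 5, 3, 3],
   [2, 5, 6, 5, 5, 4, 4, 1, 5, 5, 3, 3, 5, 2, 3],
   [1, 6, 5, 6, 5, 3, 5, 3, 3, 4, 4, 5, 4, 3, 3],
   [1, 5, 8, 5, 8, 5, 4, 3, 5, 5, 4, 4, 4, 2, 3],
   [4, 5, 5, 8, 5, 4, 5, 3, 4, 3, 4, 4, 5, 3, 2],
   [1, 5, 5, 8, 8, 5, 5, 5, 4, 3, 4, 4, 4, 3, 2],
   [2, 1, 6, 6, 8, 5, 4, 5, 5, 3, 2, 3, 5, 3, 3],
   [2, 2, 5, 6, 8, 4, 5, 5, 5, 2, 3, 3, 5, 3, 1]]

/-- Blocks with first cyclic row `[2, 1, 0, 2, 0]`. -/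
def blocks5 : List (List ℕ) :=
  [[6, 4, 6, 5, 2, 3, 2, 3, 3, 5, 5, 4, 5, 3, 3],
   [3, 5, 6, 2, 3, 4, 2, 1, 4, 5, 5, 4, 4, 2, 2],
   [6, 1, 8, 6, 2, 3, 3, 5, 2, 5, 3, 5, 5, 3, 4],
   [5, 4, 8, 5, 5, 4, 3, 4, 3, 5, 4, 5, 4, 2, 3],
   [2, 5, 8, 2, 6, 5, 3, 3, 4, 5, 5, 5, 3, 1, 2],
   [6, 4, 5, 6, 2, 3, 3, 5, 2, 3, 5, 4, 5, 3, 3],
   [5, 2, 8, 2, 6, 5, 3, 3, 5, 4, 5, 3, 5, 1, 2],
   [3, 1, 6, 6, 3, 4, 4, 5, 2, 5, 1, 4, 4, 2, 4],
   [2, 4, 6, 5, 6, 5, 4, 5, 3, 5, 3, 4, 3, 1, 3],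
   [2, 5, 5, 5, 6, 5, 4, 5, 3, 3, 5, 4, 3, 1, 2],
   [3, 5, 2, 6, 3, 4, 4, 5, 2, 1, 5, 4, 4, 2, 2],
   [3, 1, 6, 3, 6, 4, 4, 5, 4, 4, 2, 2, 5, 1, 4],
   [3, 2, 5, 3, 6, 4, 4, 5, 4, 2, 4, 2, 5, 1, 2]]

/-- Blocks with first cyclic row `[2, 1, 1, 0, 1]`. -/
def blocks6 : List (List ℕ) :=
  [[2, 2, 8, 6, 5, 4, 5, 3, 2, 5, 1, 5, 5, 3, 3],
   [5, 1, 8, 8, 5, 5, 4, 4, 3, 4, 2, 5, 5, 3, 4],
   [5, 4, 5, 8, 5, 4, 5, 4, 3, 4, 2, 3, 5, 3, 4],
   [5, 1, 8, 5, 8, 5, 4, 4, 5, 5, 3, 3, 4, 2, 4],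
   [6, 1, 5, 6, 5, 3, 4, 5, 4, 3, 3, 3, 5, 3, 4],
   [5, 2, 5, 5, 6, 4, 5, 3, 5, 5, 3, 1, 4, 2, 3],
   [1, 2, 8, 6, 6, 5, 5, 3, 3, 5, 3, 5, 4, 3, 2],
   [5, 2, 4, 6, 6, 3, 5, 5, 5, 3, 3, 3, 4, 3, 2]]

/-- Blocks with first cyclic row `[2, 1, 1, 1, 0]`. -/
def blocks7 : List (List ℕ) :=
  [[6, 2, 5, 8, 2, 2, 3, 5, 1, 5, 3, 5, 4, 5, 3],
   [7, 1, 5, 5, 5, 2, 2, 5, 4, 4, 5, 2, 5, 4, 5],
   [6, 2, 5, 4, 6, 4, 3, 3, 5, 5, 5, 1, 4, 3, 3],
   [5, 5, 4, 8, 5, 3, 4, 5, 2, 4, 4, 5, 3, 4, 3],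
   [2, 6, 4, 5, 6, 3, 5, 3, 3, 5, 5, 4, 2, 3, 3],
   [6, 2, 4, 5, 6, 3, 3, 5, 5, 3, 5, 2, 4, 3, 3],
   [2, 2, 5, 8, 6, 4, 5, 5, 3, 5, 3, 5, 2, 3, 1],
   [2, 6, 1, 8, 6, 4, 5, 5, 3, 3, 5, 5, 2, 3, 3]]

/-- Blocks with first cyclic row `[2, 1, 2, 0, 0]`. -/
def blocks8 : List (List ℕ) :=
  [[6, 2, 2, 6, 3, 2, 4, 5, 1, 4, 2, 4, 4, 4, 4],
   [6, 1, 5, 5, 6, 3, 4, 5, 3, 5, 3, 4, 3, 3, 4],
   [6, 4, 2, 5, 6, 3, 4, 5, 3, 5, 3, 2, 3, 3, 5],
   [5, 2, 4, 6, 6, 3, 5, 5, 3, 4, 3, 5, 3, 3, 2],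
   [5, 5, 1, 6, 6, 3, 5, 5, 3, 4, 3, 4, 3, 3, 4],
   [5, 1, 5, 5, 7, 4, 5, 5, 5, 5, 4, 4, 2, 2, 2],
   [5, 5, 1, 5, 7, 4, 5, 5, 5, 5, 4, 2, 2, 2, 4]]

/-- Blocks with first cyclic row `[2, 2, 0, 0, 1]`. -/
def blocks9 : List (List ℕ) :=
  [[2, 1, 6, 6, 8, 5, 5, 3, 4, 5, 2, 3, 5, 3, 3]]

/-- Blocks with first cyclic row `[2, 2, 0, 1, 0]`. -/
def blocks10 : List (List ℕ) :=
  [[3, 2, 3, 6, 5, 2, 4, 4, 2, 5, 2, 4, 5, 4, 1],
   [3, 2, 3, 5, 6, 4, 4, 2, 4, 5, 4, 2, 5, 2, 1],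
   [2, 2, 5, 6, 8, 4, 5, 5, 2, 5, 3, 5, 3, 3, 1],
   [2, 3, 2, 6, 6, 4, 5, 4, 2, 4, 4, 4, 4, 2, 1],
   [5, 1, 5, 8, 8, 5, 5, 5, 3, 4, 4, 4, 4, 3, 2],
   [5, 2, 2, 8, 6, 5, 5, 4, 3, 3, 5, 3, 5, 2, 1]]

/-- Blocks with first cyclic row `[2, 2, 1, 0, 0]`. -/
def blocks11 : List (List ℕ) :=
  [[6, 1, 2, 8, 6, 3, 5, 5, 3, 5, 3, 2, 5, 4, 3]]

/-- The rows with a given index. -/
def tb (k : ℕ) : List ℕ := tabs.getD k []

/-- The two solutions which do not come from a matrix `W`. -/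
def leaf (c0 c1 c2 c3 c4 : ℕ) : Bool :=
  (Nat.beq c0 (en 2 1 1 0 0) && Nat.beq c1 (en 1 0 1 0 0) && Nat.beq c2 (en 0 1 0 0 1) &&
    Nat.beq c3 (en 1 2 0 0 1) && Nat.beq c4 (en 0 0 1 1 1)) ||
  (Nat.beq c0 (en 1 1 0 0 0) && Nat.beq c1 (en 1 0 1 0 1) && Nat.beq c2 (en 0 0 0 1 1) &&
    Nat.beq c3 (en 1 2 0 1 0) && Nat.beq c4 (en 0 1 0 2 1))

/-- The search for one block. -/
def blk (k0 k1 k2 k3 k4 n01 n02 n12 n03 n13 n23 n04 n14 n24 n34 : ℕ) : Bool :=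
  (tb k0).all fun c0 => !(can c0) ||
  (tb k1).all fun c1 => !(ok3 (lo c0 + r1 c1)) || (!(Nat.beq (dt c1 c0 + n01) 5) ||
  (tb k2).all fun c2 => !(ok3 (lo c0 + r1 c1 + r2 c2)) || (!(Nat.beq (dt c2 c1 + n12) 5) ||
    (!(Nat.beq (dt c2 c0 + n02) 5) ||
  (tb k3).all fun c3 => !(ok3 (lo c0 + r1 c1 + r2 c2 + r3 c3)) ||
    (!(Nat.beq (dt c3 c2 + n23) 5) || (!(Nat.beq (dt c3 c1 + n13) 5) ||
    (!(Nat.beq (dt c3 c0 + n03) 5) ||
  (tb k4).all fun c4 => !(ok3 (lo c0 + r1 c1 + r2 c2 + r3 c3 + r4 c4)) ||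
    (!(Nat.beq (dt c4 c3 + n34) 5) || (!(Nat.beq (dt c4 c2 + n24) 5) ||
    (!(Nat.beq (dt c4 c1 + n14) 5) || (!(Nat.beq (dt c4 c0 + n04) 5) ||
    (!(Nat.beq (lo c0 + r1 c1 + r2 c2 + r3 c3 + r4 c4) 51130563) ||
      leaf c0 c1 c2 c3 c4)))))))))))

/-- The search for one block, the data as a list. -/
def blkL : List ℕ → Bool
  | [k0, k1, k2, k3, k4, n01, n02, n12, n03, n13, n23, n04, n14, n24, n34] =>
    blk k0 k1 k2 k3 k4 n01 n02 n12 n03 n13 n23 n04 n14 n24 n34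
  | _ => false

theorem chk_blocks1 : blocks1.all blkL = true := by decide +kernel

theorem chk_blocks2 : blocks2.all blkL = true := by decide +kernel

theorem chk_blocks3 : blocks3.all blkL = true := by decide +kernel

theorem chk_blocks4 : blocks4.all blkL = true := by decide +kernel

theorem chk_blocks5 : blocks5.all blkL = true := by decide +kernel

theorem chk_blocks6 : blocks6.all blkL = true := by decide +kernel

theorem chk_blocks7 : blocks7.all blkL = true := by decide +kernel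

theorem chk_blocks8 : blocks8.all blkL = true := by decide +kernel

theorem chk_blocks9 : blocks9.all blkL = true := by decide +kernel

theorem chk_blocks10 : blocks10.all blkL = true := by decide +kernel

theorem chk_blocks11 : blocks11.all blkL = true := by decide +kernel

end S25

end Pool.Agent.Work.MP_37fea8_co
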