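import Mathlib
import Pool.Agent.Work.MP_37fea8_co.AU.S25T

/-!
# AU/Search25 (M-L)

The search for order `25` (helper57).
-/

set_option autoImplicit false

namespace Pool.Agent.Work.MP_37fea8_co

namespace S25

private theorem lo_en {a b c d e : ℕ} (ha : a ≤ 2) (hb : b ≤ 2) (hc : c ≤ 2) (hd : d ≤ 2)
    (he : e ≤ 2) :
    lo (en a b c d e) = a + 64 * b + 4096 * c + 262144 * d + 16777216 * e := by
  unfold lo en
  omega

private theorem hi_en {a b c d e : ℕ} (ha : a ≤ 2) (hb : b ≤ 2) (hc : c ≤ 2) (hd : d ≤ 2)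
    (he : e ≤ 2) :
    en a b c d e / 1073741824 = e + 64 * d + 4096 * c + 262144 * b + 16777216 * a := by
  unfold en
  omega

private theorem r1_en {a b c d e : ℕ} (ha : a ≤ 2) (hb : b ≤ 2) (hc : c ≤ 2) (hd : d ≤ 2)
    (he : e ≤ 2) :
    r1 (en a b c d e) = b + 64 * c + 4096 * d + 262144 * e + 16777216 * a := by
  unfold r1
  rw [lo_en ha hb hc hd he]
  omega

private theorem r2_en {a b c d e : ℕ} (ha : a ≤ 2) (hb : b ≤ 2) (hc : c ≤ 2) (hd : d ≤ 2)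
    (he : e ≤ 2) :
    r2 (en a b c d e) = c + 64 * d + 4096 * e + 262144 * a + 16777216 * b := by
  unfold r2
  rw [lo_en ha hb hc hd he]
  omega

private theorem r3_en {a b c d e : ℕ} (ha : a ≤ 2) (hb : b ≤ 2) (hc : c ≤ 2) (hd : d ≤ 2)
    (he : e ≤ 2) :
    r3 (en a b c d e) = d + 64 * e + 4096 * a + 262144 * b + 16777216 * c := by
  unfold r3
  rw [lo_en ha hb hc hd he]
  omega

private theorem r4_en {a b c d e : ℕ} (ha : a ≤ 2) (hb : b ≤ 2) (hc : c ≤ 2) (hd : d ≤ 2)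
    (he : e ≤ 2) :
    r4 (en a b c d e) = e + 64 * a + 4096 * b + 262144 * c + 16777216 * d := by
  unfold r4
  rw [lo_en ha hb hc hd he]
  omega

private theorem dt_en {a b c d e a' b' c' d' e' : ℕ} (ha : a ≤ 2) (hb : b ≤ 2) (hc : c ≤ 2)
    (hd : d ≤ 2) (he : e ≤ 2) (ha' : a' ≤ 2) (hb' : b' ≤ 2) (hc' : c' ≤ 2) (hd' : d' ≤ 2)
    (he' : e' ≤ 2) :
    dt (en a b c d e) (en a' b' c' d' e') = a * a' + b * b' + c * c' + d * d' + e * e' := by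
  unfold dt
  rw [lo_en ha hb hc hd he, hi_en ha' hb' hc' hd' he']
  have key : (a + 64 * b + 4096 * c + 262144 * d + 16777216 * e) *
      (e' + 64 * d' + 4096 * c' + 262144 * b' + 16777216 * a') =
      (a * e' + 64 * (a * d' + b * e') + 4096 * (a * c' + b * d' + c * e') +
        262144 * (a * b' + b * c' + c * d' + d * e')) +
      16777216 * ((a * a' + b * b' + c * c' + d * d' + e * e') +
        64 * ((b * a' + c * b' + d * c' + e * d') + 64 * (c * a' + d * b' + e * c') +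
          4096 * (d * a' + e * b') + 262144 * (e * a'))) := by
    ring
  rw [key]
  have m : ∀ {x y : ℕ}, x ≤ 2 → y ≤ 2 → x * y ≤ 4 := fun hx hy => Nat.mul_le_mul hx hy
  have h1 := m ha he'
  have h2 := m ha hd'
  have h3 := m hb he'
  have h4 := m ha hc'
  have h5 := m hb hd'
  have h6 := m hc he'
  have h7 := m ha hb'
  have h8 := m hb hc'
  have h9 := m hc hd'
  have h10 := m hd he'
  have g1 := m ha ha'
  have g2 := m hb hb'
  have g3 := m hc hc'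
  have g4 := m hd hd'
  have g5 := m he he'
  generalize (b * a' + c * b' + d * c' + e * d') + 64 * (c * a' + d * b' + e * c') +
          4096 * (d * a' + e * b') + 262144 * (e * a') = R
  generalize a * e' = x1 at *
  generalize a * d' = x2 at *
  generalize b * e' = x3 at *
  generalize a * c' = x4 at *
  generalize b * d' = x5 at *
  generalize c * e' = x6 at *
  generalize a * b' = x7 at *
  generalize b * c' = x8 at *
  generalize c * d' = x9 at *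
  generalize d * e' = x10 at *
  generalize a * a' = y1 at *
  generalize b * b' = y2 at *
  generalize c * c' = y3 at *
  generalize d * d' = y4 at *
  generalize e * e' = y5 at *
  omega

private theorem ok3_fin : ∀ a b c d e : Fin 4,
    ok3 ((a : ℕ) + 64 * b + 4096 * c + 262144 * d + 16777216 * e) = true := by
  decide +kernel

private theorem ok3_pk {a b c d e : ℕ} (ha : a ≤ 3) (hb : b ≤ 3) (hc : c ≤ 3) (hd : d ≤ 3)
    (he : e ≤ 3) {x : ℕ} (hx : x = a + 64 * b + 4096 * c + 262144 * d + 16777216 * e) :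
    ok3 x = true := by
  rw [hx]
  exact ok3_fin ⟨a, by omega⟩ ⟨b, by omega⟩ ⟨c, by omega⟩ ⟨d, by omega⟩ ⟨e, by omega⟩

private theorem mem_fin : ∀ a b c d e : Fin 3, en a b c d e ∈
    tb (4 * ((a : ℕ) / 2 + (b : ℕ) / 2 + (c : ℕ) / 2 + (d : ℕ) / 2 + (e : ℕ) / 2) +
      ((a : ℕ) % 2 + (b : ℕ) % 2 + (c : ℕ) % 2 + (d : ℕ) % 2 + (e : ℕ) % 2)) ∨
    2 < ((a : ℕ) / 2 + (b : ℕ) / 2 + (c : ℕ) / 2 + (d : ℕ) / 2 + (e : ℕ) / 2) ∨
    3 < ((a : ℕ) % 2 + (b : ℕ) % 2 + (c : ℕ) % 2 + (d : ℕ) % 2 + (e : ℕ) % 2) := by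
  decide +kernel

private theorem mem_tb {a b c d e k : ℕ} (ha : a ≤ 2) (hb : b ≤ 2) (hc : c ≤ 2) (hd : d ≤ 2)
    (he : e ≤ 2) (h2 : a / 2 + b / 2 + c / 2 + d / 2 + e / 2 ≤ 2)
    (h1 : a % 2 + b % 2 + c % 2 + d % 2 + e % 2 ≤ 3)
    (hk : k = 4 * (a / 2 + b / 2 + c / 2 + d / 2 + e / 2) +
      (a % 2 + b % 2 + c % 2 + d % 2 + e % 2)) : en a b c d e ∈ tb k := by
  rw [hk]
  have h := mem_fin ⟨a, by omega⟩ ⟨b, by omega⟩ ⟨c, by omega⟩ ⟨d, by omega⟩ ⟨e, by omega⟩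
  rcases h with h | h | h
  · exact h
  · exact absurd h2 (not_le.2 h)
  · exact absurd h1 (not_le.2 h)

private theorem can_en {a b c d e : ℕ} (ha : a ≤ 2) (hb : b ≤ 2) (hc : c ≤ 2) (hd : d ≤ 2)
    (he : e ≤ 2) (h1 : ky b c d e a ≤ ky a b c d e) (h2 : ky c d e a b ≤ ky a b c d e)
    (h3 : ky d e a b c ≤ ky a b c d e) (h4 : ky e a b c d ≤ ky a b c d e) :
    can (en a b c d e) = true := by
  unfold can
  rw [hi_en ha hb hc hd he]
  simp only [Bool.and_eq_true, Nat.ble_eq]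
  unfold ky at h1 h2 h3 h4
  have e1 : (e + 64 * d + 4096 * c + 262144 * b + 16777216 * a) / 64 =
      d + 64 * c + 4096 * b + 262144 * a := by omega
  have e2 : (e + 64 * d + 4096 * c + 262144 * b + 16777216 * a) % 64 = e := by omega
  have f1 : (e + 64 * d + 4096 * c + 262144 * b + 16777216 * a) / 4096 =
      c + 64 * b + 4096 * a := by omega
  have f2 : (e + 64 * d + 4096 * c + 262144 * b + 16777216 * a) % 4096 = e + 64 * d := by omega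
  have g1 : (e + 64 * d + 4096 * c + 262144 * b + 16777216 * a) / 262144 = b + 64 * a := by omega
  have g2 : (e + 64 * d + 4096 * c + 262144 * b + 16777216 * a) % 262144 =
      e + 64 * d + 4096 * c := by omega
  have i1 : (e + 64 * d + 4096 * c + 262144 * b + 16777216 * a) / 16777216 = a := by omega
  have i2 : (e + 64 * d + 4096 * c + 262144 * b + 16777216 * a) % 16777216 =
      e + 64 * d + 4096 * c + 262144 * b := by omega
  rw [e1, e2, f1, f2, g1, g2, i1, i2]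
  refine ⟨⟨⟨?_, ?_⟩, ?_⟩, ?_⟩ <;> omega

private theorem ok3_D : ok3 51130563 = true := by decide +kernel

private theorem beq_D : Nat.beq 51130563 51130563 = true := by decide +kernel

private theorem beq_5 : Nat.beq 5 5 = true := by decide +kernel

private theorem ok2 {x y a b c d e a' b' c' d' e' : ℕ}
    (hx : x = a + 64 * b + 4096 * c + 262144 * d + 16777216 * e)
    (hy : y = a' + 64 * b' + 4096 * c' + 262144 * d' + 16777216 * e')
    (h0 : a + a' ≤ 3) (h1 : b + b' ≤ 3) (h2 : c + c' ≤ 3) (h3 : d + d' ≤ 3) (h4 : e + e' ≤ 3) :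
    ok3 (x + y) = true :=
  ok3_pk h0 h1 h2 h3 h4 (by omega)

private theorem pk_add {x y a b c d e a' b' c' d' e' : ℕ}
    (hx : x = a + 64 * b + 4096 * c + 262144 * d + 16777216 * e)
    (hy : y = a' + 64 * b' + 4096 * c' + 262144 * d' + 16777216 * e') :
    x + y = (a + a') + 64 * (b + b') + 4096 * (c + c') + 262144 * (d + d') +
      16777216 * (e + e') := by
  omega

private theorem pk_D {x a b c d e : ℕ}
    (hx : x = a + 64 * b + 4096 * c + 262144 * d + 16777216 * e)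
    (h0 : a = 3) (h1 : b = 3) (h2 : c = 3) (h3 : d = 3) (h4 : e = 3) : x = 51130563 := by
  omega

/-- The hypotheses on the rows of `C` for one block. -/
private theorem blk_leaf (c : Fin 5 → Fin 5 → ℕ) (hle : ∀ r s, c r s ≤ 2)
    (can0 : can (en (c 0 0) (c 0 1) (c 0 2) (c 0 3) (c 0 4)) = true)
    (k : Fin 5 → ℕ)
    (hk : ∀ r, en (c r 0) (c r 1) (c r 2) (c r 3) (c r 4) ∈ tb (k r))
    (n : Fin 5 → Fin 5 → ℕ)
    (hn : ∀ r s, s < r → c r 0 * c s 0 + c r 1 * c s 1 + c r 2 * c s 2 + c r 3 * c s 3 +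
      c r 4 * c s 4 + n s r = 5)
    (d0 : c 0 0 + c 1 1 + c 2 2 + c 3 3 + c 4 4 = 3)
    (d1 : c 0 1 + c 1 2 + c 2 3 + c 3 4 + c 4 0 = 3)
    (d2 : c 0 2 + c 1 3 + c 2 4 + c 3 0 + c 4 1 = 3)
    (d3 : c 0 3 + c 1 4 + c 2 0 + c 3 1 + c 4 2 = 3)
    (d4 : c 0 4 + c 1 0 + c 2 1 + c 3 2 + c 4 3 = 3)
    (hb : blk (k 0) (k 1) (k 2) (k 3) (k 4) (n 0 1) (n 0 2) (n 1 2) (n 0 3) (n 1 3) (n 2 3)
      (n 0 4) (n 1 4) (n 2 4) (n 3 4) = true) :
    leaf (en (c 0 0) (c 0 1) (c 0 2) (c 0 3) (c 0 4)) (en (c 1 0) (c 1 1) (c 1 2) (c 1 3) (c 1 4))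
      (en (c 2 0) (c 2 1) (c 2 2) (c 2 3) (c 2 4)) (en (c 3 0) (c 3 1) (c 3 2) (c 3 3) (c 3 4))
      (en (c 4 0) (c 4 1) (c 4 2) (c 4 3) (c 4 4)) = true := by
  have a1 : c 0 0 + c 1 1 + c 2 2 + c 3 3 ≤ 3 ∧ c 0 1 + c 1 2 + c 2 3 + c 3 4 ≤ 3 ∧
      c 0 2 + c 1 3 + c 2 4 + c 3 0 ≤ 3 ∧ c 0 3 + c 1 4 + c 2 0 + c 3 1 ≤ 3 ∧
      c 0 4 + c 1 0 + c 2 1 + c 3 2 ≤ 3 := by
    clear hb hk can0 hn
    omega
  have a2 : c 0 0 + c 1 1 + c 2 2 ≤ 3 ∧ c 0 1 + c 1 2 + c 2 3 ≤ 3 ∧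
      c 0 2 + c 1 3 + c 2 4 ≤ 3 ∧ c 0 3 + c 1 4 + c 2 0 ≤ 3 ∧
      c 0 4 + c 1 0 + c 2 1 ≤ 3 := by
    clear hb hk can0 hn
    omega
  have a3 : c 0 0 + c 1 1 ≤ 3 ∧ c 0 1 + c 1 2 ≤ 3 ∧
      c 0 2 + c 1 3 ≤ 3 ∧ c 0 3 + c 1 4 ≤ 3 ∧
      c 0 4 + c 1 0 ≤ 3 := by
    clear hb hk can0 hn
    omega
  obtain ⟨p0, p1, p2, p3, p4⟩ := a1
  obtain ⟨q0, q1, q2, q3, q4⟩ := a2
  obtain ⟨r0, r1', r2', r3', r4'⟩ := a3
  have L0 := lo_en (hle 0 0) (hle 0 1) (hle 0 2) (hle 0 3) (hle 0 4)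
  have L1 := r1_en (hle 1 0) (hle 1 1) (hle 1 2) (hle 1 3) (hle 1 4)
  have L2 := r2_en (hle 2 0) (hle 2 1) (hle 2 2) (hle 2 3) (hle 2 4)
  have L3 := r3_en (hle 3 0) (hle 3 1) (hle 3 2) (hle 3 3) (hle 3 4)
  have L4 := r4_en (hle 4 0) (hle 4 1) (hle 4 2) (hle 4 3) (hle 4 4)
  have D : ∀ r s, s < r → Nat.beq (dt (en (c r 0) (c r 1) (c r 2) (c r 3) (c r 4))
      (en (c s 0) (c s 1) (c s 2) (c s 3) (c s 4)) + n s r) 5 = true := by
    intro r s hrs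
    have h := hn r s hrs
    rw [← dt_en (hle r 0) (hle r 1) (hle r 2) (hle r 3) (hle r 4) (hle s 0) (hle s 1) (hle s 2)
      (hle s 3) (hle s 4)] at h
    rw [Nat.beq_eq]
    exact h
  have S1 := pk_add L0 L1
  have S2 := pk_add S1 L2
  have S3 := pk_add S2 L3
  have S4 := pk_add S3 L4
  have O1 := ok3_pk r0 r1' r2' r3' r4' S1
  have O2 := ok3_pk q0 q1 q2 q3 q4 S2
  have O3 := ok3_pk p0 p1 p2 p3 p4 S3
  have T4 := pk_D S4 d0 d1 d2 d3 d4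
  unfold blk at hb
  have h0 := List.all_eq_true.1 hb _ (hk 0)
  simp only [can0, Bool.not_true, Bool.false_or] at h0
  have h1 := List.all_eq_true.1 h0 _ (hk 1)
  simp only [O1, D 1 0 (by decide), Bool.not_true, Bool.false_or] at h1
  have h2 := List.all_eq_true.1 h1 _ (hk 2)
  simp only [O2, D 2 1 (by decide), D 2 0 (by decide), Bool.not_true, Bool.false_or] at h2
  have h3 := List.all_eq_true.1 h2 _ (hk 3)
  simp only [O3, D 3 2 (by decide), D 3 1 (by decide), D 3 0 (by decide), Bool.not_true,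
    Bool.false_or] at h3
  have h4 := List.all_eq_true.1 h3 _ (hk 4)
  simp only [T4, ok3_D, beq_D, D 4 3 (by decide), D 4 2 (by decide), D 4 1 (by decide),
    D 4 0 (by decide), Bool.not_true, Bool.false_or] at h4
  exact h4

/-- Index of a row of `U`. -/
def kx (a b c d : ℕ) : ℕ :=
  4 * (2 - (a / 2 + b / 2 + c / 2 + d / 2)) + (3 - (a % 2 + b % 2 + c % 2 + d % 2))

/-- The data of a block. -/
def bdat (p0 p1 p2 p3 p4 q0 q1 q2 q3 q4 : ℕ) : List ℕ :=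
  [kx p0 q0 q3 p4, kx p0 p1 q1 q4, kx q0 p1 p2 q2, kx q3 q1 p2 p3, kx p4 q4 q2 p3,
    q0 * p1 + q3 * q1 + p4 * q4 + p0, p0 * p1 + q3 * p2 + p4 * q2 + q0,
    p0 * q0 + q1 * p2 + q4 * q2 + p1, p0 * q1 + q0 * p2 + p4 * p3 + q3,
    p0 * q3 + p1 * p2 + q4 * p3 + q1, q0 * q3 + p1 * q1 + q2 * p3 + p2,
    p0 * q4 + q0 * q2 + q3 * p3 + p4, p0 * p4 + p1 * q2 + q1 * p3 + q4,
    q0 * p4 + p1 * q4 + p2 * p3 + q2, q3 * p4 + q1 * q4 + p2 * q2 + p3]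

/-- Canonical first cyclic row. -/
def vp (p0 p1 p2 p3 p4 : ℕ) : Bool :=
  Nat.beq (p0 + p1 + p2 + p3 + p4) 5 && (Nat.ble (ky p1 p2 p3 p4 p0) (ky p0 p1 p2 p3 p4) &&
    (Nat.ble (ky p2 p3 p4 p0 p1) (ky p0 p1 p2 p3 p4) &&
    (Nat.ble (ky p3 p4 p0 p1 p2) (ky p0 p1 p2 p3 p4) &&
      Nat.ble (ky p4 p0 p1 p2 p3) (ky p0 p1 p2 p3 p4))))

/-- The counts of one row of `U` are admissible. -/
def vr (a b c d : ℕ) : Bool :=
  Nat.ble (a / 2 + b / 2 + c / 2 + d / 2) 2 && Nat.ble (a % 2 + b % 2 + c % 2 + d % 2) 3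

/-- The block is admissible. -/
def vq (p0 p1 p2 p3 p4 q0 q1 q2 q3 q4 : ℕ) : Bool :=
  Nat.beq (q0 + q1 + q2 + q3 + q4) 5 && (vr p0 q0 q3 p4 && (vr p0 p1 q1 q4 &&
    (vr q0 p1 p2 q2 && (vr q3 q1 p2 p3 && (vr p4 q4 q2 p3 &&
    ((bdat p0 p1 p2 p3 p4 q0 q1 q2 q3 q4).drop 5).all fun x => Nat.ble x 5)))))

/-- All blocks. -/
def blocksAll : List (List ℕ) :=
  blocks1 ++ (blocks2 ++ (blocks3 ++ (blocks4 ++ (blocks5 ++ (blocks6 ++ (blocks7 ++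
    (blocks8 ++ (blocks9 ++ (blocks10 ++ blocks11)))))))))

private theorem complete_fin : ∀ p0 p1 p2 p3 p4 : Fin 3, vp p0 p1 p2 p3 p4 = true →
    ∀ q0 q1 q2 q3 q4 : Fin 3, vq p0 p1 p2 p3 p4 q0 q1 q2 q3 q4 = true →
      blocksAll.elem (bdat p0 p1 p2 p3 p4 q0 q1 q2 q3 q4) = true := by
  decide +kernel

private theorem blkL_all {d : List ℕ} (hd : d ∈ blocksAll) : blkL d = true := by
  unfold blocksAll at hd
  simp only [List.mem_append] at hd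
  rcases hd with h | h | h | h | h | h | h | h | h | h | h
  · exact List.all_eq_true.1 chk_blocks1 d h
  · exact List.all_eq_true.1 chk_blocks2 d h
  · exact List.all_eq_true.1 chk_blocks3 d h
  · exact List.all_eq_true.1 chk_blocks4 d h
  · exact List.all_eq_true.1 chk_blocks5 d h
  · exact List.all_eq_true.1 chk_blocks6 d h
  · exact List.all_eq_true.1 chk_blocks7 d h
  · exact List.all_eq_true.1 chk_blocks8 d h
  · exact List.all_eq_true.1 chk_blocks9 d h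
  · exact List.all_eq_true.1 chk_blocks10 d h
  · exact List.all_eq_true.1 chk_blocks11 d h

private theorem complete {p0 p1 p2 p3 p4 q0 q1 q2 q3 q4 : ℕ} (h0 : p0 ≤ 2) (h1 : p1 ≤ 2)
    (h2 : p2 ≤ 2) (h3 : p3 ≤ 2) (h4 : p4 ≤ 2) (g0 : q0 ≤ 2) (g1 : q1 ≤ 2) (g2 : q2 ≤ 2)
    (g3 : q3 ≤ 2) (g4 : q4 ≤ 2) (hp : vp p0 p1 p2 p3 p4 = true)
    (hq : vq p0 p1 p2 p3 p4 q0 q1 q2 q3 q4 = true) :
    blkL (bdat p0 p1 p2 p3 p4 q0 q1 q2 q3 q4) = true := by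
  have h := complete_fin ⟨p0, by omega⟩ ⟨p1, by omega⟩ ⟨p2, by omega⟩ ⟨p3, by omega⟩
    ⟨p4, by omega⟩ hp ⟨q0, by omega⟩ ⟨q1, by omega⟩ ⟨q2, by omega⟩ ⟨q3, by omega⟩ ⟨q4, by omega⟩ hq
  exact blkL_all (List.elem_iff.1 h)

private theorem sum_sh (a : Fin 5) (F : Fin 5 → ℕ) : ∑ s, F (s + a) = ∑ s, F s :=
  Equiv.sum_comp (Equiv.addRight a) F

private theorem rot25 {U W C : Fin 5 → Fin 5 → ℕ} (h : Sys25 U W C) (a b : Fin 5) :
    Sys25 (fun r s => U (r + a) (s + a)) (fun r s => W (r + b) (s + b))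
      (fun r s => C (r + a) (s + b)) where
  symU r s := h.symU _ _
  symW r s := h.symW _ _
  diagU r := h.diagU _
  diagW r := h.diagW _
  rowU r := by
    rw [sum_sh a (fun s => U (r + a) s), sum_sh b (fun s => C (r + a) s)]
    exact h.rowU _
  rowW s := by
    rw [sum_sh a (fun r => C r (s + b)), sum_sh b (fun r => W r (s + b))]
    exact h.rowW _
  gramU r s := by
    rw [sum_sh a (fun t => U (r + a) t * U (s + a) t), sum_sh b (fun t => C (r + a) t * C (s + a) t)]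
    have h1 := h.gramU (r + a) (s + a)
    rwa [if_congr (add_left_inj a) rfl rfl] at h1
  gramW r s := by
    rw [sum_sh a (fun t => C t (r + b) * C t (s + b)), sum_sh b (fun t => W (r + b) t * W (s + b) t)]
    have h1 := h.gramW (r + b) (s + b)
    rwa [if_congr (add_left_inj b) rfl rfl] at h1
  gramC r s := by
    rw [sum_sh a (fun t => U (r + a) t * C t (s + b)), sum_sh b (fun t => C (r + a) t * W t (s + b))]
    exact h.gramC _ _
  cycU d hd := by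
    refine Eq.trans (Eq.trans ?_ (sum_sh a fun r => U r (r + d))) (h.cycU d hd)
    refine Finset.sum_congr rfl fun r _ => ?_
    show U (r + a) (r + d + a) = U (r + a) (r + a + d)
    rw [add_right_comm]
  cycW d hd := by
    refine Eq.trans (Eq.trans ?_ (sum_sh b fun r => W r (r + d))) (h.cycW d hd)
    refine Finset.sum_congr rfl fun r _ => ?_
    show W (r + b) (r + d + b) = W (r + b) (r + b + d)
    rw [add_right_comm]
  cycC d := by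
    refine Eq.trans (Eq.trans ?_ (sum_sh a fun r => C r (r + (d + b - a)))) (h.cycC (d + b - a))
    refine Finset.sum_congr rfl fun r _ => ?_
    show C (r + a) (r + d + b) = C (r + a) (r + a + (d + b - a))
    congr 1
    abel

/-- The key of the first cyclic row of `U` after the rotation by `a`. -/
private def kU (U : Fin 5 → Fin 5 → ℕ) (a : Fin 5) : ℕ :=
  ky (U (0 + a) (1 + a)) (U (1 + a) (2 + a)) (U (2 + a) (3 + a)) (U (3 + a) (4 + a))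
    (U (4 + a) (0 + a))

/-- The key of the first row of `C` after the rotation by `b`. -/
private def kC (C : Fin 5 → Fin 5 → ℕ) (b : Fin 5) : ℕ :=
  ky (C 0 (0 + b)) (C 0 (1 + b)) (C 0 (2 + b)) (C 0 (3 + b)) (C 0 (4 + b))

private theorem wlog25 (hyp : ∀ U W C : Fin 5 → Fin 5 → ℕ, Sys25 U W C →
    (∀ a, kU U a ≤ kU U 0) → (∀ b, kC C b ≤ kC C 0) → False)
    (U W C : Fin 5 → Fin 5 → ℕ) (h : Sys25 U W C) : False := by
  obtain ⟨a, ha⟩ := Finite.exists_max (kU U)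
  obtain ⟨b, hb⟩ := Finite.exists_max (kC fun r s => C (r + a) s)
  refine hyp _ _ _ (rot25 h a b) (fun a' => ?_) (fun b' => ?_)
  · have h1 := ha (a' + a)
    have h2 : kU (fun r s => U (r + a) (s + a)) a' = kU U (a' + a) := by
      show ky _ _ _ _ _ = ky _ _ _ _ _
      simp only [add_assoc]
    have h3 : kU (fun r s => U (r + a) (s + a)) 0 = kU U a := by
      show ky _ _ _ _ _ = ky _ _ _ _ _
      simp only [add_zero]
    rw [h2, h3]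
    exact h1
  · have h1 := hb (b' + b)
    have h2 : kC (fun r s => C (r + a) (s + b)) b' = kC (fun r s => C (r + a) s) (b' + b) := by
      show ky _ _ _ _ _ = ky _ _ _ _ _
      simp only [add_assoc]
    have h3 : kC (fun r s => C (r + a) (s + b)) 0 = kC (fun r s => C (r + a) s) b := by
      show ky _ _ _ _ _ = ky _ _ _ _ _
      simp only [add_zero]
    rw [h2, h3]
    exact h1

private theorem sm (x : ℕ) (hx : x ≤ 2) : x * x = x % 2 + 4 * (x / 2) ∧ x = x % 2 + 2 * (x / 2) := by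
  interval_cases x <;> simp

private theorem le2 {a b c d e f g h i j : ℕ}
    (h1 : a + b + c + d + e + f + g + h + i + j = 7)
    (h2 : a * a + b * b + c * c + d * d + e * e + f * f + g * g + h * h + i * i + j * j = 11) :
    a ≤ 2 := by
  have m : ∀ x : ℕ, x ≤ x * x := fun x => Nat.le_mul_self x
  have := m b
  have := m c
  have := m d
  have := m e
  have := m f
  have := m g
  have := m h
  have := m i
  have := m j
  by_contra hcon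
  have h3 : 3 * a ≤ a * a := Nat.mul_le_mul_right a (by omega)
  omega

private theorem halves {a b c d e f g h i j : ℕ}
    (qa : a ≤ 2) (qb : b ≤ 2) (qc : c ≤ 2) (qd : d ≤ 2) (qe : e ≤ 2) (qf : f ≤ 2) (qg : g ≤ 2)
    (qh : h ≤ 2) (qi : i ≤ 2) (qj : j ≤ 2)
    (h1 : a + b + c + d + e + (f + g + h + i + j) = 7)
    (h2 : a * a + b * b + c * c + d * d + e * e + (f * f + g * g + h * h + i * i + j * j) = 11) :
      a / 2 + b / 2 + c / 2 + d / 2 + e / 2 + (f / 2 + g / 2 + h / 2 + i / 2 + j / 2) = 2 ∧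
      a % 2 + b % 2 + c % 2 + d % 2 + e % 2 + (f % 2 + g % 2 + h % 2 + i % 2 + j % 2) = 3 := by
  obtain ⟨s1, t1⟩ := sm a qa
  obtain ⟨s2, t2⟩ := sm b qb
  obtain ⟨s3, t3⟩ := sm c qc
  obtain ⟨s4, t4⟩ := sm d qd
  obtain ⟨s5, t5⟩ := sm e qe
  obtain ⟨s6, t6⟩ := sm f qf
  obtain ⟨s7, t7⟩ := sm g qg
  obtain ⟨s8, t8⟩ := sm h qh
  obtain ⟨s9, t9⟩ := sm i qi
  obtain ⟨s10, t10⟩ := sm j qj
  have e1 : (a % 2 + b % 2 + c % 2 + d % 2 + e % 2 + (f % 2 + g % 2 + h % 2 + i % 2 + j % 2)) +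
      2 * (a / 2 + b / 2 + c / 2 + d / 2 + e / 2 + (f / 2 + g / 2 + h / 2 + i / 2 + j / 2)) =
      7 := by
    linarith
  have e2 : (a % 2 + b % 2 + c % 2 + d % 2 + e % 2 + (f % 2 + g % 2 + h % 2 + i % 2 + j % 2)) +
      4 * (a / 2 + b / 2 + c / 2 + d / 2 + e / 2 + (f / 2 + g / 2 + h / 2 + i / 2 + j / 2)) =
      11 := by
    linarith
  generalize a % 2 + b % 2 + c % 2 + d % 2 + e % 2 + (f % 2 + g % 2 + h % 2 + i % 2 + j % 2) = x
    at *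
  generalize a / 2 + b / 2 + c / 2 + d / 2 + e / 2 + (f / 2 + g / 2 + h / 2 + i / 2 + j / 2) = y
    at *
  clear h1 h2 s1 s2 s3 s4 s5 s6 s7 s8 s9 s10 t1 t2 t3 t4 t5 t6 t7 t8 t9 t10
  omega

private theorem count {a b c d e f g h i j : ℕ}
    (h1 : a + b + c + d + e + (f + g + h + i + j) = 7)
    (h2 : a * a + b * b + c * c + d * d + e * e + (f * f + g * g + h * h + i * i + j * j) = 11) :
    (a ≤ 2 ∧ b ≤ 2 ∧ c ≤ 2 ∧ d ≤ 2 ∧ e ≤ 2 ∧ f ≤ 2 ∧ g ≤ 2 ∧ h ≤ 2 ∧ i ≤ 2 ∧ j ≤ 2) ∧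
      (a / 2 + b / 2 + c / 2 + d / 2 + e / 2 + (f / 2 + g / 2 + h / 2 + i / 2 + j / 2) = 2 ∧
      a % 2 + b % 2 + c % 2 + d % 2 + e % 2 + (f % 2 + g % 2 + h % 2 + i % 2 + j % 2) = 3) := by
  have q1 : a ≤ 2 := le2 (a := a) (b := b) (c := c) (d := d) (e := e) (f := f) (g := g) (h := h)
    (i := i) (j := j) (by linarith) (by linarith)
  have q2 : b ≤ 2 := le2 (a := b) (b := a) (c := c) (d := d) (e := e) (f := f) (g := g) (h := h)
    (i := i) (j := j) (by linarith) (by linarith)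
  have q3 : c ≤ 2 := le2 (a := c) (b := b) (c := a) (d := d) (e := e) (f := f) (g := g) (h := h)
    (i := i) (j := j) (by linarith) (by linarith)
  have q4 : d ≤ 2 := le2 (a := d) (b := b) (c := c) (d := a) (e := e) (f := f) (g := g) (h := h)
    (i := i) (j := j) (by linarith) (by linarith)
  have q5 : e ≤ 2 := le2 (a := e) (b := b) (c := c) (d := d) (e := a) (f := f) (g := g) (h := h)
    (i := i) (j := j) (by linarith) (by linarith)
  have q6 : f ≤ 2 := le2 (a := f) (b := b) (c := c) (d := d) (e := e) (f := a) (g := g) (h := h)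
    (i := i) (j := j) (by linarith) (by linarith)
  have q7 : g ≤ 2 := le2 (a := g) (b := b) (c := c) (d := d) (e := e) (f := f) (g := a) (h := h)
    (i := i) (j := j) (by linarith) (by linarith)
  have q8 : h ≤ 2 := le2 (a := h) (b := b) (c := c) (d := d) (e := e) (f := f) (g := g) (h := a)
    (i := i) (j := j) (by linarith) (by linarith)
  have q9 : i ≤ 2 := le2 (a := i) (b := b) (c := c) (d := d) (e := e) (f := f) (g := g) (h := h)
    (i := a) (j := j) (by linarith) (by linarith)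
  have q10 : j ≤ 2 := le2 (a := j) (b := b) (c := c) (d := d) (e := e) (f := f) (g := g) (h := h)
    (i := i) (j := a) (by linarith) (by linarith)
  exact ⟨⟨q1, q2, q3, q4, q5, q6, q7, q8, q9, q10⟩, halves q1 q2 q3 q4 q5 q6 q7 q8 q9 q10 h1 h2⟩

private theorem en_inj {a b c d e a' b' c' d' e' : ℕ} (ha : a ≤ 2) (hb : b ≤ 2) (hc : c ≤ 2)
    (hd : d ≤ 2) (he : e ≤ 2) (ha' : a' ≤ 2) (hb' : b' ≤ 2) (hc' : c' ≤ 2) (hd' : d' ≤ 2)
    (he' : e' ≤ 2) (h : en a b c d e = en a' b' c' d' e') :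
    a = a' ∧ b = b' ∧ c = c' ∧ d = d' ∧ e = e' := by
  have h1 := congrArg lo h
  rw [lo_en ha hb hc hd he, lo_en ha' hb' hc' hd' he'] at h1
  clear h
  omega

private theorem noW {U W C : Fin 5 → Fin 5 → ℕ} (h : Sys25 U W C)
    (hl : (C 0 0 % 2 + C 1 0 % 2 + C 2 0 % 2 + C 3 0 % 2 + C 4 0 % 2 = 2 ∧
      C 0 1 % 2 + C 1 1 % 2 + C 2 1 % 2 + C 3 1 % 2 + C 4 1 % 2 = 2 ∧
      C 0 2 % 2 + C 1 2 % 2 + C 2 2 % 2 + C 3 2 % 2 + C 4 2 % 2 = 3 ∧
      C 0 3 % 2 + C 1 3 % 2 + C 2 3 % 2 + C 3 3 % 2 + C 4 3 % 2 = 1 ∧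
      C 0 4 % 2 + C 1 4 % 2 + C 2 4 % 2 + C 3 4 % 2 + C 4 4 % 2 = 3) ∨
      (C 0 0 % 2 + C 1 0 % 2 + C 2 0 % 2 + C 3 0 % 2 + C 4 0 % 2 = 3 ∧
      C 0 1 % 2 + C 1 1 % 2 + C 2 1 % 2 + C 3 1 % 2 + C 4 1 % 2 = 2 ∧
      C 0 2 % 2 + C 1 2 % 2 + C 2 2 % 2 + C 3 2 % 2 + C 4 2 % 2 = 1 ∧
      C 0 3 % 2 + C 1 3 % 2 + C 2 3 % 2 + C 3 3 % 2 + C 4 3 % 2 = 2 ∧
      C 0 4 % 2 + C 1 4 % 2 + C 2 4 % 2 + C 3 4 % 2 + C 4 4 % 2 = 3)) : False := by
  have R : ∀ s, C 0 s + C 1 s + C 2 s + C 3 s + C 4 s +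
      (W 0 s + W 1 s + W 2 s + W 3 s + W 4 s) = 7 := by
    intro s
    have h1 := h.rowW s
    rwa [Fin.sum_univ_five, Fin.sum_univ_five] at h1
  have Q : ∀ s, C 0 s * C 0 s + C 1 s * C 1 s + C 2 s * C 2 s + C 3 s * C 3 s + C 4 s * C 4 s +
      (W 0 s * W 0 s + W 1 s * W 1 s + W 2 s * W 2 s + W 3 s * W 3 s + W 4 s * W 4 s) = 11 := by
    intro s
    have h1 := h.gramW s s
    rw [if_pos rfl, Fin.sum_univ_five, Fin.sum_univ_five, h.diagW s, h.symW s 0, h.symW s 1,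
      h.symW s 2, h.symW s 3, h.symW s 4] at h1
    exact h1
  have c0 := (count (R 0) (Q 0)).2.2
  have c1 := (count (R 1) (Q 1)).2.2
  have c2 := (count (R 2) (Q 2)).2.2
  have c3 := (count (R 3) (Q 3)).2.2
  have c4 := (count (R 4) (Q 4)).2.2
  have cy : W 0 1 + W 1 2 + W 2 3 + W 3 4 + W 4 0 = 5 := by
    have h1 := h.cycW 1 (by decide)
    rw [Fin.sum_univ_five] at h1
    exact h1
  have z0 := h.diagW 0
  have z1 := h.diagW 1
  have z2 := h.diagW 2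
  have z3 := h.diagW 3
  have z4 := h.diagW 4
  rw [z0, h.symW 1 0, h.symW 2 0, h.symW 3 0] at c0
  rw [z1, h.symW 2 1, h.symW 3 1, h.symW 4 1] at c1
  rw [z2, h.symW 3 2, h.symW 4 2] at c2
  rw [z3, h.symW 4 3] at c3
  rw [z4, h.symW 0 4] at c4
  rcases hl with hl | hl
  · obtain ⟨l0, l1, l2, l3, l4⟩ := hl
    clear R Q
    omega
  · obtain ⟨l0, l1, l2, l3, l4⟩ := hl
    clear R Q
    omega

private theorem leaf_cases {c : Fin 5 → Fin 5 → ℕ} (hle : ∀ r s, c r s ≤ 2)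
    (h : leaf (en (c 0 0) (c 0 1) (c 0 2) (c 0 3) (c 0 4))
      (en (c 1 0) (c 1 1) (c 1 2) (c 1 3) (c 1 4))
      (en (c 2 0) (c 2 1) (c 2 2) (c 2 3) (c 2 4)) (en (c 3 0) (c 3 1) (c 3 2) (c 3 3) (c 3 4))
      (en (c 4 0) (c 4 1) (c 4 2) (c 4 3) (c 4 4)) = true) :
    (c 0 0 % 2 + c 1 0 % 2 + c 2 0 % 2 + c 3 0 % 2 + c 4 0 % 2 = 2 ∧
      c 0 1 % 2 + c 1 1 % 2 + c 2 1 % 2 + c 3 1 % 2 + c 4 1 % 2 = 2 ∧
      c 0 2 % 2 + c 1 2 % 2 + c 2 2 % 2 + c 3 2 % 2 + c 4 2 % 2 = 3 ∧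
      c 0 3 % 2 + c 1 3 % 2 + c 2 3 % 2 + c 3 3 % 2 + c 4 3 % 2 = 1 ∧
      c 0 4 % 2 + c 1 4 % 2 + c 2 4 % 2 + c 3 4 % 2 + c 4 4 % 2 = 3) ∨
      (c 0 0 % 2 + c 1 0 % 2 + c 2 0 % 2 + c 3 0 % 2 + c 4 0 % 2 = 3 ∧
      c 0 1 % 2 + c 1 1 % 2 + c 2 1 % 2 + c 3 1 % 2 + c 4 1 % 2 = 2 ∧
      c 0 2 % 2 + c 1 2 % 2 + c 2 2 % 2 + c 3 2 % 2 + c 4 2 % 2 = 1 ∧
      c 0 3 % 2 + c 1 3 % 2 + c 2 3 % 2 + c 3 3 % 2 + c 4 3 % 2 = 2 ∧
      c 0 4 % 2 + c 1 4 % 2 + c 2 4 % 2 + c 3 4 % 2 + c 4 4 % 2 = 3) := by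
  unfold leaf at h
  simp only [Bool.or_eq_true, Bool.and_eq_true, Nat.beq_eq] at h
  have i0 : 0 ≤ 2 := by norm_num
  have i1 : 1 ≤ 2 := by norm_num
  have i2 : 2 ≤ 2 := le_refl 2
  rcases h with h | h
  · left
    obtain ⟨⟨⟨⟨h0, h1⟩, h2⟩, h3⟩, h4⟩ := h
    obtain ⟨x0, x1, x2, x3, x4⟩ := en_inj (hle 0 0) (hle 0 1) (hle 0 2) (hle 0 3) (hle 0 4)
      i2 i1 i1 i0 i0 h0
    obtain ⟨y0, y1, y2, y3, y4⟩ := en_inj (hle 1 0) (hle 1 1) (hle 1 2) (hle 1 3) (hle 1 4)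
      i1 i0 i1 i0 i0 h1
    obtain ⟨z0, z1, z2, z3, z4⟩ := en_inj (hle 2 0) (hle 2 1) (hle 2 2) (hle 2 3) (hle 2 4)
      i0 i1 i0 i0 i1 h2
    obtain ⟨u0, u1, u2, u3, u4⟩ := en_inj (hle 3 0) (hle 3 1) (hle 3 2) (hle 3 3) (hle 3 4)
      i1 i2 i0 i0 i1 h3
    obtain ⟨v0, v1, v2, v3, v4⟩ := en_inj (hle 4 0) (hle 4 1) (hle 4 2) (hle 4 3) (hle 4 4)
      i0 i0 i1 i1 i1 h4
    rw [x0, x1, x2, x3, x4, y0, y1, y2, y3, y4, z0, z1, z2, z3, z4, u0, u1, u2, u3, u4, v0, v1,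
      v2, v3, v4]
    refine ⟨rfl, rfl, rfl, rfl, rfl⟩
  · right
    obtain ⟨⟨⟨⟨h0, h1⟩, h2⟩, h3⟩, h4⟩ := h
    obtain ⟨x0, x1, x2, x3, x4⟩ := en_inj (hle 0 0) (hle 0 1) (hle 0 2) (hle 0 3) (hle 0 4)
      i1 i1 i0 i0 i0 h0
    obtain ⟨y0, y1, y2, y3, y4⟩ := en_inj (hle 1 0) (hle 1 1) (hle 1 2) (hle 1 3) (hle 1 4)
      i1 i0 i1 i0 i1 h1
    obtain ⟨z0, z1, z2, z3, z4⟩ := en_inj (hle 2 0) (hle 2 1) (hle 2 2) (hle 2 3) (hle 2 4)
      i0 i0 i0 i1 i1 h2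
    obtain ⟨u0, u1, u2, u3, u4⟩ := en_inj (hle 3 0) (hle 3 1) (hle 3 2) (hle 3 3) (hle 3 4)
      i1 i2 i0 i1 i0 h3
    obtain ⟨v0, v1, v2, v3, v4⟩ := en_inj (hle 4 0) (hle 4 1) (hle 4 2) (hle 4 3) (hle 4 4)
      i0 i1 i0 i2 i1 h4
    rw [x0, x1, x2, x3, x4, y0, y1, y2, y3, y4, z0, z1, z2, z3, z4, u0, u1, u2, u3, u4, v0, v1,
      v2, v3, v4]
    refine ⟨rfl, rfl, rfl, rfl, rfl⟩

private theorem kx_eq {a b c d x y : ℕ} (h2 : a / 2 + b / 2 + c / 2 + d / 2 + x = 2)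
    (h1 : a % 2 + b % 2 + c % 2 + d % 2 + y = 3) : kx a b c d = 4 * x + y := by
  unfold kx
  generalize a / 2 + b / 2 + c / 2 + d / 2 = u at *
  generalize a % 2 + b % 2 + c % 2 + d % 2 = v at *
  omega

private theorem vr_of {a b c d x y : ℕ} (h2 : a / 2 + b / 2 + c / 2 + d / 2 + x = 2)
    (h1 : a % 2 + b % 2 + c % 2 + d % 2 + y = 3) : vr a b c d = true := by
  unfold vr
  simp only [Bool.and_eq_true, Nat.ble_eq]
  generalize a / 2 + b / 2 + c / 2 + d / 2 = u at *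
  generalize a % 2 + b % 2 + c % 2 + d % 2 = v at *
  omega

private theorem final25 (U W C : Fin 5 → Fin 5 → ℕ) (h : Sys25 U W C)
    (hU : ∀ a, kU U a ≤ kU U 0) (hC : ∀ b, kC C b ≤ kC C 0) : False := by
  have R : ∀ r, U r 0 + U r 1 + U r 2 + U r 3 + U r 4 +
      (C r 0 + C r 1 + C r 2 + C r 3 + C r 4) = 7 := by
    intro r
    have h1 := h.rowU r
    rwa [Fin.sum_univ_five, Fin.sum_univ_five] at h1
  have Q : ∀ r, U r 0 * U r 0 + U r 1 * U r 1 + U r 2 * U r 2 + U r 3 * U r 3 + U r 4 * U r 4 +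
      (C r 0 * C r 0 + C r 1 * C r 1 + C r 2 * C r 2 + C r 3 * C r 3 + C r 4 * C r 4) = 11 := by
    intro r
    have h1 := h.gramU r r
    rw [if_pos rfl, Fin.sum_univ_five, Fin.sum_univ_five, h.diagU r] at h1
    exact h1
  have G : ∀ r s, r ≠ s →
      U r 0 * U s 0 + U r 1 * U s 1 + U r 2 * U s 2 + U r 3 * U s 3 + U r 4 * U s 4 +
      (C r 0 * C s 0 + C r 1 * C s 1 + C r 2 * C s 2 + C r 3 * C s 3 + C r 4 * C s 4) +
      U r s = 5 := by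
    intro r s hrs
    have h1 := h.gramU r s
    rwa [if_neg hrs, Fin.sum_univ_five, Fin.sum_univ_five] at h1
  have cn := fun r => count (R r) (Q r)
  have hle : ∀ r s, C r s ≤ 2 := by
    intro r s
    obtain ⟨⟨_, _, _, _, _, h0, h1, h2, h3, h4⟩, _⟩ := cn r
    match s with
    | 0 => exact h0
    | 1 => exact h1
    | 2 => exact h2
    | 3 => exact h3
    | 4 => exact h4
  have hleU : ∀ r s, U r s ≤ 2 := by
    intro r s
    obtain ⟨⟨h0, h1, h2, h3, h4, _⟩, _⟩ := cn r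
    match s with
    | 0 => exact h0
    | 1 => exact h1
    | 2 => exact h2
    | 3 => exact h3
    | 4 => exact h4
  have can0 : can (en (C 0 0) (C 0 1) (C 0 2) (C 0 3) (C 0 4)) = true :=
    can_en (hle 0 0) (hle 0 1) (hle 0 2) (hle 0 3) (hle 0 4) (hC 1) (hC 2) (hC 3) (hC 4)
  have z0 := h.diagU 0
  have z1 := h.diagU 1
  have z2 := h.diagU 2
  have z3 := h.diagU 3
  have z4 := h.diagU 4
  have s10 : U 1 0 = U 0 1 := h.symU 1 0
  have s21 : U 2 1 = U 1 2 := h.symU 2 1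
  have s32 : U 3 2 = U 2 3 := h.symU 3 2
  have s43 : U 4 3 = U 3 4 := h.symU 4 3
  have s04 : U 0 4 = U 4 0 := h.symU 0 4
  have s20 : U 2 0 = U 0 2 := h.symU 2 0
  have s31 : U 3 1 = U 1 3 := h.symU 3 1
  have s42 : U 4 2 = U 2 4 := h.symU 4 2
  have s03 : U 0 3 = U 3 0 := h.symU 0 3
  have s14 : U 1 4 = U 4 1 := h.symU 1 4
  have n0 := (cn 0).2
  have n1 := (cn 1).2
  have n2 := (cn 2).2
  have n3 := (cn 3).2
  have n4 := (cn 4).2
  simp only [z0, s03, s04, Nat.zero_div, Nat.zero_mod, zero_add, add_zero] at n0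
  simp only [z1, s10, s14, Nat.zero_div, Nat.zero_mod, zero_add, add_zero] at n1
  simp only [z2, s20, s21, Nat.zero_div, Nat.zero_mod, zero_add, add_zero] at n2
  simp only [z3, s31, s32, Nat.zero_div, Nat.zero_mod, zero_add, add_zero] at n3
  simp only [z4, s42, s43, Nat.zero_div, Nat.zero_mod, zero_add, add_zero] at n4
  obtain ⟨k, hk0, hk1, hk2, hk3, hk4⟩ : ∃ k : Fin 5 → ℕ,
      k 0 = kx (U 0 1) (U 0 2) (U 3 0) (U 4 0) ∧ k 1 = kx (U 0 1) (U 1 2) (U 1 3) (U 4 1) ∧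
      k 2 = kx (U 0 2) (U 1 2) (U 2 3) (U 2 4) ∧ k 3 = kx (U 3 0) (U 1 3) (U 2 3) (U 3 4) ∧
      k 4 = kx (U 4 0) (U 4 1) (U 2 4) (U 3 4) :=
    ⟨![kx (U 0 1) (U 0 2) (U 3 0) (U 4 0), kx (U 0 1) (U 1 2) (U 1 3) (U 4 1),
      kx (U 0 2) (U 1 2) (U 2 3) (U 2 4), kx (U 3 0) (U 1 3) (U 2 3) (U 3 4),
      kx (U 4 0) (U 4 1) (U 2 4) (U 3 4)], rfl, rfl, rfl, rfl, rfl⟩
  obtain ⟨n, hn⟩ : ∃ n : Fin 5 → Fin 5 → ℕ, ∀ s r, n s r =
      U s 0 * U r 0 + U s 1 * U r 1 + U s 2 * U r 2 + U s 3 * U r 3 + U s 4 * U r 4 + U s r :=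
    ⟨_, fun _ _ => rfl⟩
  have hkm : ∀ r, en (C r 0) (C r 1) (C r 2) (C r 3) (C r 4) ∈ tb (k r) := by
    intro r
    have hc2 : C r 0 / 2 + C r 1 / 2 + C r 2 / 2 + C r 3 / 2 + C r 4 / 2 ≤ 2 :=
      le_trans (Nat.le_add_left _ _) (le_of_eq (cn r).2.1)
    have hc1 : C r 0 % 2 + C r 1 % 2 + C r 2 % 2 + C r 3 % 2 + C r 4 % 2 ≤ 3 :=
      le_trans (Nat.le_add_left _ _) (le_of_eq (cn r).2.2)
    refine mem_tb (hle r 0) (hle r 1) (hle r 2) (hle r 3) (hle r 4) hc2 hc1 ?_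
    match r with
    | 0 => exact hk0.trans (kx_eq n0.1 n0.2)
    | 1 => exact hk1.trans (kx_eq n1.1 n1.2)
    | 2 => exact hk2.trans (kx_eq n2.1 n2.2)
    | 3 => exact hk3.trans (kx_eq n3.1 n3.2)
    | 4 => exact hk4.trans (kx_eq n4.1 n4.2)
  have hnm : ∀ r s, s < r → C r 0 * C s 0 + C r 1 * C s 1 + C r 2 * C s 2 + C r 3 * C s 3 +
      C r 4 * C s 4 + n s r = 5 := by
    intro r s hrs
    have h1 := G s r (ne_of_lt hrs)
    rw [hn s r]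
    linarith
  have d0 : C 0 0 + C 1 1 + C 2 2 + C 3 3 + C 4 4 = 3 := by
    have h1 := h.cycC 0
    rw [Fin.sum_univ_five] at h1
    exact h1
  have d1 : C 0 1 + C 1 2 + C 2 3 + C 3 4 + C 4 0 = 3 := by
    have h1 := h.cycC 1
    rw [Fin.sum_univ_five] at h1
    exact h1
  have d2 : C 0 2 + C 1 3 + C 2 4 + C 3 0 + C 4 1 = 3 := by
    have h1 := h.cycC 2
    rw [Fin.sum_univ_five] at h1
    exact h1
  have d3 : C 0 3 + C 1 4 + C 2 0 + C 3 1 + C 4 2 = 3 := by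
    have h1 := h.cycC 3
    rw [Fin.sum_univ_five] at h1
    exact h1
  have d4 : C 0 4 + C 1 0 + C 2 1 + C 3 2 + C 4 3 = 3 := by
    have h1 := h.cycC 4
    rw [Fin.sum_univ_five] at h1
    exact h1
  have e01 : n 0 1 = U 0 2 * U 1 2 + U 3 0 * U 1 3 + U 4 0 * U 4 1 + U 0 1 := by
    rw [hn]
    simp only [z0, z1, s10, s03, s04, s14, zero_mul, mul_zero, zero_add, add_zero]
  have e02 : n 0 2 = U 0 1 * U 1 2 + U 3 0 * U 2 3 + U 4 0 * U 2 4 + U 0 2 := by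
    rw [hn]
    simp only [z0, z2, s20, s21, s03, s04, zero_mul, mul_zero, zero_add, add_zero]
  have e12 : n 1 2 = U 0 1 * U 0 2 + U 1 3 * U 2 3 + U 4 1 * U 2 4 + U 1 2 := by
    rw [hn]
    simp only [z1, z2, s10, s20, s21, s14, zero_mul, mul_zero, zero_add, add_zero]
  have e03 : n 0 3 = U 0 1 * U 1 3 + U 0 2 * U 2 3 + U 4 0 * U 3 4 + U 3 0 := by
    rw [hn]
    simp only [z0, z3, s31, s32, s03, s04, zero_mul, mul_zero, zero_add, add_zero]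
  have e13 : n 1 3 = U 0 1 * U 3 0 + U 1 2 * U 2 3 + U 4 1 * U 3 4 + U 1 3 := by
    rw [hn]
    simp only [z1, z3, s10, s31, s32, s14, zero_mul, mul_zero, zero_add, add_zero]
  have e23 : n 2 3 = U 0 2 * U 3 0 + U 1 2 * U 1 3 + U 2 4 * U 3 4 + U 2 3 := by
    rw [hn]
    simp only [z2, z3, s20, s21, s31, s32, zero_mul, mul_zero, zero_add, add_zero]
  have e04 : n 0 4 = U 0 1 * U 4 1 + U 0 2 * U 2 4 + U 3 0 * U 3 4 + U 4 0 := by
    rw [hn]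
    simp only [z0, z4, s42, s43, s03, s04, zero_mul, mul_zero, zero_add, add_zero]
  have e14 : n 1 4 = U 0 1 * U 4 0 + U 1 2 * U 2 4 + U 1 3 * U 3 4 + U 4 1 := by
    rw [hn]
    simp only [z1, z4, s10, s42, s43, s14, zero_mul, mul_zero, zero_add, add_zero]
  have e24 : n 2 4 = U 0 2 * U 4 0 + U 1 2 * U 4 1 + U 2 3 * U 3 4 + U 2 4 := by
    rw [hn]
    simp only [z2, z4, s20, s21, s42, s43, zero_mul, mul_zero, zero_add, add_zero]
  have e34 : n 3 4 = U 3 0 * U 4 0 + U 1 3 * U 4 1 + U 2 3 * U 2 4 + U 3 4 := by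
    rw [hn]
    simp only [z3, z4, s31, s32, s42, s43, zero_mul, mul_zero, zero_add, add_zero]
  have n5 : ∀ s r, s < r → n s r ≤ 5 := fun s r hsr =>
    le_trans (Nat.le_add_left _ _) (le_of_eq (hnm r s hsr))
  have hvp : vp (U 0 1) (U 1 2) (U 2 3) (U 3 4) (U 4 0) = true := by
    have h1 := h.cycU 1 (by decide)
    rw [Fin.sum_univ_five] at h1
    unfold vp
    simp only [Bool.and_eq_true, Nat.ble_eq, Nat.beq_eq]
    exact ⟨h1, hU 1, hU 2, hU 3, hU 4⟩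
  have hvq : vq (U 0 1) (U 1 2) (U 2 3) (U 3 4) (U 4 0) (U 0 2) (U 1 3) (U 2 4) (U 3 0) (U 4 1) =
      true := by
    have h1 := h.cycU 2 (by decide)
    rw [Fin.sum_univ_five] at h1
    unfold vq bdat
    simp only [Bool.and_eq_true, Nat.ble_eq, Nat.beq_eq, List.drop_succ_cons, List.drop_zero,
      List.all_cons, List.all_nil, and_true]
    refine ⟨h1, vr_of n0.1 n0.2, vr_of n1.1 n1.2, vr_of n2.1 n2.2, vr_of n3.1 n3.2,
      vr_of n4.1 n4.2, ?_⟩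
    rw [← e01, ← e02, ← e12, ← e03, ← e13, ← e23, ← e04, ← e14, ← e24, ← e34]
    exact ⟨n5 0 1 (by decide), n5 0 2 (by decide), n5 1 2 (by decide), n5 0 3 (by decide),
      n5 1 3 (by decide), n5 2 3 (by decide), n5 0 4 (by decide), n5 1 4 (by decide),
      n5 2 4 (by decide), n5 3 4 (by decide)⟩
  have hb : blk (k 0) (k 1) (k 2) (k 3) (k 4) (n 0 1) (n 0 2) (n 1 2) (n 0 3) (n 1 3) (n 2 3)
      (n 0 4) (n 1 4) (n 2 4) (n 3 4) = true := by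
    rw [hk0, hk1, hk2, hk3, hk4, e01, e02, e12, e03, e13, e23, e04, e14, e24, e34]
    exact complete (hleU 0 1) (hleU 1 2) (hleU 2 3) (hleU 3 4) (hleU 4 0) (hleU 0 2) (hleU 1 3)
      (hleU 2 4) (hleU 3 0) (hleU 4 1) hvp hvq
  exact noW h (leaf_cases hle (blk_leaf C hle can0 k hkm n hnm d0 d1 d2 d3 d4 hb))

end S25

/-- The system `Sys25` has no solution. -/
theorem search25 (U W C : Fin 5 → Fin 5 → ℕ) (h : Sys25 U W C) : False :=
  S25.wlog25 S25.final25 U W C h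

end Pool.Agent.Work.MP_37fea8_co
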