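import Mathlib
import Pool.Agent.Work.MP_37fea8_co.AU.ActL

/-!
# AU/StrB (M)

The structure of a group of order `25` which does not fix all colours.

PROOF.  `H` is a `5`-group, so the number of the colours fixed by `H` is `≡ 7 ≡ 2 mod 5`
(`IsPGroup.card_modEq_card_fixedPoints`), and it is not `7`: it is `2`; `i₁ ≠ i₂` are these colours.  Let `j₀` be another colour.
Its orbit does not contain `i₁`, `i₂`, has more than one element and its order divides `25`
(`MulAction.card_orbit_mul_card_stabilizer_eq_card_group`): it has `5` elements, so it consists of all colours `≠ i₁, i₂`, and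
`K = MulAction.stabilizer H j₀` has `5` elements.  `H` is commutative (order `p ^ 2`: Mathlib `IsPGroup.commGroupOfCardEqPrimeSq`,
`IsPGroup.isMulCommutative_of_card_eq_prime_sq` or similar).  `K` fixes `h • j₀`: `k • h • j₀ = h • k • j₀`; so it fixes all colours
(`fixK`).  `freeK`: `k ≠ 1` in `K` has `k ^ 5 = 1` and fixes `7 ≠ 2` colours: `act5`.  `pow5`: `H ⧸ K` has order `5`
(or: `h ^ 5` fixes `j₀`, as the orbit of `j₀` under the powers of `h` has `1` or `5` elements).
`gen`: for `g ∉ K` the classes of `1, g, ..., g ^ 4` in `H ⧸ K` (order `5`, generated by the class of `g`) are all classes.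
`trans`: for `g ∉ K` and `j = a • j₀`, `j' = b • j₀`: `b * a⁻¹ = k * g ^ m` by `gen`, so
`g ^ m • j = k⁻¹ • b • a⁻¹ • a • j₀ = j'` (commutativity, `fixK`).
-/

set_option autoImplicit false

namespace Pool.Agent.Work.MP_37fea8_co

variable {V : Type} [Fintype V] [DecidableEq V] {c : V → V → Fin 7}

variable {H : Type} [Group H] [Fintype H] [MulAction H V] [MulAction H (Fin 7)]

private theorem sb_two {H : Type} [Group H] [Finite H] [MulAction H (Fin 7)]
    (hH : Nat.card H = 25) (hnf : ¬ ∀ (h : H) (i : Fin 7), h • i = i) :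
    ∃ i₁ i₂ : Fin 7, i₁ ≠ i₂ ∧ ∀ i : Fin 7, (∀ h : H, h • i = i) ↔ i = i₁ ∨ i = i₂ := by
  classical
  haveI : Fact (Nat.Prime 5) := ⟨by norm_num⟩
  have hpg : IsPGroup 5 H := IsPGroup.of_card (n := 2) (by rw [hH]; norm_num)
  have h1 := hpg.card_modEq_card_fixedPoints (Fin 7)
  let F : Finset (Fin 7) := Finset.univ.filter fun i => ∀ h : H, h • i = i
  have hF : ∀ i, i ∈ F ↔ ∀ h : H, h • i = i := by
    intro i
    rw [Finset.mem_filter]
    exact ⟨fun h => h.2, fun h => ⟨Finset.mem_univ _, h⟩⟩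
  have h2 : Nat.card (MulAction.fixedPoints H (Fin 7)) = F.card := by
    have e : MulAction.fixedPoints H (Fin 7) = (F : Set (Fin 7)) := by
      ext i
      rw [Finset.mem_coe, hF]
      exact Iff.rfl
    rw [e, Nat.card_coe_set_eq, Set.ncard_coe_finset]
  rw [h2, Nat.card_eq_fintype_card, Fintype.card_fin] at h1
  have h3 : F.card ≤ 7 := (Finset.card_le_univ F).trans (le_of_eq (Fintype.card_fin 7))
  have h4 : F.card ≠ 7 := by
    intro h
    refine hnf fun a i => ?_
    have h5 : F = Finset.univ := by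
      rw [← Finset.card_eq_iff_eq_univ, h, Fintype.card_fin]
    have h6 : i ∈ F := by rw [h5]; exact Finset.mem_univ _
    exact (hF i).mp h6 a
  have h5 : F.card = 2 := by
    unfold Nat.ModEq at h1
    omega
  obtain ⟨i₁, i₂, hne, hFe⟩ := Finset.card_eq_two.mp h5
  refine ⟨i₁, i₂, hne, fun i => ?_⟩
  rw [← hF, hFe, Finset.mem_insert, Finset.mem_singleton]

private theorem sb_orb {H : Type} [Group H] [Finite H] [MulAction H (Fin 7)]
    (hH : Nat.card H = 25) {i₁ i₂ : Fin 7} (hne : i₁ ≠ i₂)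
    (hfix : ∀ i : Fin 7, (∀ h : H, h • i = i) ↔ i = i₁ ∨ i = i₂) {j₀ : Fin 7}
    (h1 : j₀ ≠ i₁) (h2 : j₀ ≠ i₂) :
    (∀ j : Fin 7, j ≠ i₁ → j ≠ i₂ → ∃ a : H, a • j₀ = j) ∧
      Nat.card (MulAction.stabilizer H j₀) = 5 := by
  classical
  have hcard : Nat.card (MulAction.orbit H j₀) * Nat.card (MulAction.stabilizer H j₀) = 25 := by
    rw [← Nat.card_prod, Nat.card_congr (MulAction.orbitProdStabilizerEquivGroup H j₀), hH]
  let O : Finset (Fin 7) := (MulAction.orbit H j₀).toFinset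
  have hO : ∀ i, i ∈ O ↔ ∃ a : H, a • j₀ = i := by
    intro i
    rw [Set.mem_toFinset]
    exact Iff.rfl
  have hOc : Nat.card (MulAction.orbit H j₀) = O.card := by
    rw [Nat.card_eq_fintype_card, Set.toFinset_card]
  have hf1 : ∀ h : H, h • i₁ = i₁ := (hfix i₁).mpr (Or.inl rfl)
  have hf2 : ∀ h : H, h • i₂ = i₂ := (hfix i₂).mpr (Or.inr rfl)
  have n1 : i₁ ∉ O := by
    rw [hO]
    rintro ⟨a, ha⟩
    apply h1
    rw [← inv_smul_smul a j₀, ha, hf1]
  have n2 : i₂ ∉ O := by
    rw [hO]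
    rintro ⟨a, ha⟩
    apply h2
    rw [← inv_smul_smul a j₀, ha, hf2]
  let R : Finset (Fin 7) := (Finset.univ.erase i₁).erase i₂
  have hR : ∀ j, j ∈ R ↔ j ≠ i₂ ∧ j ≠ i₁ := by
    intro j
    rw [Finset.mem_erase, Finset.mem_erase]
    exact ⟨fun h => ⟨h.1, h.2.1⟩, fun h => ⟨h.1, h.2, Finset.mem_univ _⟩⟩
  have hRc : R.card = 5 := by
    rw [Finset.card_erase_of_mem (Finset.mem_erase.mpr ⟨hne.symm, Finset.mem_univ _⟩),
      Finset.card_erase_of_mem (Finset.mem_univ _), Finset.card_univ, Fintype.card_fin]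
  have hOR : O ⊆ R := by
    intro j hj
    rw [hR]
    exact ⟨fun h => n2 (h ▸ hj), fun h => n1 (h ▸ hj)⟩
  have hle : O.card ≤ 5 := (Finset.card_le_card hOR).trans (le_of_eq hRc)
  have hj0 : j₀ ∈ O := (hO _).mpr ⟨1, one_smul _ _⟩
  have hne1 : O.card ≠ 1 := by
    intro h
    rw [Finset.card_eq_one] at h
    obtain ⟨x, hx⟩ := h
    have hx0 : j₀ = x := by
      rw [hx] at hj0
      exact Finset.mem_singleton.mp hj0
    have h3 : ∀ h : H, h • j₀ = j₀ := by
      intro h
      have h4 : h • j₀ ∈ O := (hO _).mpr ⟨h, rfl⟩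
      rw [hx, Finset.mem_singleton] at h4
      rw [h4, hx0]
    rcases (hfix j₀).mp h3 with h5 | h5
    · exact h1 h5
    · exact h2 h5
  rw [hOc] at hcard
  have hO5 : O.card = 5 := by
    have hdvd : O.card ∣ 25 := Dvd.intro _ hcard
    have hpos : 0 < O.card := Finset.card_pos.mpr ⟨j₀, hj0⟩
    generalize O.card = n at *
    interval_cases n
    · exact absurd rfl hne1
    · omega
    · omega
    · omega
    · rfl
  constructor
  · intro j hj1 hj2
    have h3 : O = R := Finset.eq_of_subset_of_card_le hOR (by rw [hO5, hRc])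
    have h4 : j ∈ O := by
      rw [h3, hR]
      exact ⟨hj2, hj1⟩
    exact (hO j).mp h4
  · rw [hO5] at hcard
    omega

private theorem sb_gen {H : Type} [Group H] [Finite H] (K : Subgroup H)
    (hcomm : ∀ a b : H, a * b = b * a) (hH : Nat.card H = 25) (hK : Nat.card K = 5) :
    (∀ h : H, h ^ 5 ∈ K) ∧
      ∀ g : H, g ∉ K → ∀ h : H, ∃ m : ℕ, m < 5 ∧ ∃ k ∈ K, h = k * g ^ m := by
  haveI : Fact (Nat.Prime 5) := ⟨by norm_num⟩
  haveI hn : K.Normal := ⟨fun n hn g => by
    rw [hcomm g n, mul_assoc, mul_inv_cancel, mul_one]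
    exact hn⟩
  have hidx : K.index = 5 := by
    have h1 := K.card_mul_index
    rw [hK, hH] at h1
    omega
  have hpow : ∀ h : H, h ^ 5 ∈ K := by
    intro h
    have := K.pow_index_mem h
    rw [hidx] at this
    exact this
  refine ⟨hpow, ?_⟩
  intro g hg h
  have hq : Nat.card (H ⧸ K) = 5 := hidx
  have hg1 : (g : H ⧸ K) ≠ 1 := by
    intro h2
    exact hg ((QuotientGroup.eq_one_iff g).mp h2)
  have hmem : (h : H ⧸ K) ∈ Submonoid.powers (g : H ⧸ K) := mem_powers_of_prime_card hq hg1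
  obtain ⟨n, hn2⟩ := hmem
  have hn3 : (g : H ⧸ K) ^ n = (h : H ⧸ K) := hn2
  have hg5 : (g : H ⧸ K) ^ 5 = 1 := by
    rw [← QuotientGroup.mk_pow]
    exact (QuotientGroup.eq_one_iff _).mpr (hpow g)
  have hn4 : (g : H ⧸ K) ^ (n % 5) = (h : H ⧸ K) := by
    rw [← hn3]
    conv_rhs => rw [← Nat.mod_add_div n 5, pow_add, pow_mul, hg5, one_pow, mul_one]
  rw [← QuotientGroup.mk_pow, QuotientGroup.eq] at hn4
  refine ⟨n % 5, Nat.mod_lt _ (by norm_num), _, hn4, ?_⟩
  rw [hcomm, ← mul_assoc, mul_inv_cancel, one_mul]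

theorem strB (hc : Moore c) (ha : Act c H) (hH : Fintype.card H = 25)
    (hnf : ¬ ∀ (h : H) (i : Fin 7), h • i = i) :
    ∃ (K : Subgroup H) (i₁ i₂ : Fin 7), StB c H K i₁ i₂ := by
  classical
  have hH' : Nat.card H = 25 := by rw [Nat.card_eq_fintype_card, hH]
  haveI : Fact (Nat.Prime 5) := ⟨by norm_num⟩
  have hcomm : ∀ a b : H, a * b = b * a :=
    (IsPGroup.isMulCommutative_of_card_eq_prime_sq (p := 5)
      (by rw [hH']; norm_num)).is_comm.comm
  obtain ⟨i₁, i₂, hne, hfix⟩ := sb_two hH' hnf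
  have hj0 : ∃ j₀ : Fin 7, j₀ ≠ i₁ ∧ j₀ ≠ i₂ := by
    by_contra hcon
    push Not at hcon
    have h1 : (Finset.univ : Finset (Fin 7)) ⊆ {i₁, i₂} := by
      intro j _
      rw [Finset.mem_insert, Finset.mem_singleton]
      by_cases hj : j = i₁
      · exact Or.inl hj
      · exact Or.inr (hcon j hj)
    have h2 := Finset.card_le_card h1
    rw [Finset.card_univ, Fintype.card_fin] at h2
    have h3 := Finset.card_le_two (a := i₁) (b := i₂)
    omega
  obtain ⟨j₀, hj1, hj2⟩ := hj0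
  obtain ⟨horb, hKc⟩ := sb_orb hH' hne hfix hj1 hj2
  obtain ⟨hpow, hgen⟩ := sb_gen (MulAction.stabilizer H j₀) hcomm hH' hKc
  have hf1 : ∀ h : H, h • i₁ = i₁ := (hfix i₁).mpr (Or.inl rfl)
  have hf2 : ∀ h : H, h • i₂ = i₂ := (hfix i₂).mpr (Or.inr rfl)
  have hfixK : ∀ k ∈ MulAction.stabilizer H j₀, ∀ i : Fin 7, k • i = i := by
    intro k hk i
    rw [MulAction.mem_stabilizer_iff] at hk
    by_cases h1 : i = i₁
    · rw [h1, hf1]
    · by_cases h2 : i = i₂
      · rw [h2, hf2]
      · obtain ⟨a, ha'⟩ := horb i h1 h2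
        rw [← ha', smul_smul, hcomm, ← smul_smul, hk]
  refine ⟨MulAction.stabilizer H j₀, i₁, i₂, ?_⟩
  exact
    { act := ha
      comm := hcomm
      cardH := hH'
      cardK := hKc
      fixK := hfixK
      freeK := by
        intro k hk x hx
        by_contra hk1
        have hk5 : k ^ 5 = 1 := by
          have h1 : (⟨k, hk⟩ : MulAction.stabilizer H j₀) ^ Nat.card (MulAction.stabilizer H j₀) = 1 :=
            pow_card_eq_one'
          rw [hKc] at h1
          exact congrArg Subtype.val h1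
        rcases act5 hc ha hk1 hk5 with h1 | ⟨-, h1⟩
        · exact h1 x hx
        · have h2 : (Finset.univ.filter fun i : Fin 7 => k • i = i) = Finset.univ := by
            rw [Finset.filter_eq_self]
            intro i _
            exact hfixK k hk i
          rw [h2, Finset.card_univ, Fintype.card_fin] at h1
          omega
      ne := hne
      fix₁ := hf1
      fix₂ := hf2
      pow5 := hpow
      gen := hgen
      trans := by
        intro g hg j j' h1 h2 h3 h4
        obtain ⟨a, rfl⟩ := horb j h1 h2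
        obtain ⟨b, rfl⟩ := horb j' h3 h4
        obtain ⟨m, hm, k, hk, hkm⟩ := hgen g hg (b * a⁻¹)
        refine ⟨m, hm, ?_⟩
        have h5 : b = k * (g ^ m * a) := by
          rw [← mul_assoc, ← hkm, inv_mul_cancel_right]
        rw [h5, ← smul_smul k, hfixK k hk, smul_smul] }

end Pool.Agent.Work.MP_37fea8_co
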