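import Mathlib
import Pool.Agent.Work.MP_37fea8_co.AU.CaseA
import Pool.Agent.Work.MP_37fea8_co.AU.StrB
import Pool.Agent.Work.MP_37fea8_co.AU.CaseB1
import Pool.Agent.Work.MP_37fea8_co.AU.CaseB2
import Pool.Agent.Work.MP_37fea8_co.AU.Search25

/-!
# AU/No25 (S)

There is no group of order `25`.

PROOF.  `no25a` or `strB`.  `Free V H`: an element of `K` by `freeK`, another one by `no_fix`.  `sys`, `search25`.
-/

set_option autoImplicit false

namespace Pool.Agent.Work.MP_37fea8_co

variable {V : Type} [Fintype V] [DecidableEq V] {c : V → V → Fin 7}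

variable {H : Type} [Group H] [Fintype H] [MulAction H V] [MulAction H (Fin 7)]

theorem no25 (hc : Moore c) (ha : Act c H) (hH : Fintype.card H = 25) : False := by
  by_cases hfix : ∀ (h : H) (i : Fin 7), h • i = i
  · exact no25a hc ha hH hfix
  · obtain ⟨K, i₁, i₂, hB⟩ := strB hc ha hH hfix
    have hf : Free V H := by
      intro h x hx
      by_cases hK : h ∈ K
      · exact hB.freeK h hK x hx
      · exact absurd hx (hB.no_fix hc hK x)
    obtain ⟨U, W, C, hS⟩ := hB.sys hc hf
    exact search25 U W C hS

end Pool.Agent.Work.MP_37fea8_co
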