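import Mathlib
import Pool.Agent.Work.MP_37fea8_co.AU.ActL

/-!
# AU/No35 (M)

There is no group of order `35`.

PROOF.  Let `g ∈ H` have order `7` and `h ∈ H` order `5` (Cauchy).  `P = Subgroup.zpowers g` has index `5 = Nat.minFac 35`, so it is
normal (`Subgroup.normal_of_index_eq_minFac_card`).  So `h g h⁻¹ = g ^ m` for some `m : ℕ`; iterating five times
`g = h ^ 5 g h ^ -5 = g ^ (m ^ 5)`, so `m ^ 5 ≡ 1 mod 7`, `m ≡ 1 mod 7` (`decide` in `ZMod 7`), so `h g = g h`.
`act7`: `g` fixes exactly one vertex `x`; `g • h • x = h • x`, so `h • x = x`.  `act5` for `h`: the first alternative is false, so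
`F = {y | h • y = y}` has `5` elements.  `g` maps `F` to itself; `fx_mod` with `p = 7` for the permutation `g` and `S = F`:
`5 ≡ |fx g ∩ F| = 1 mod 7` (`fx g = {x}`): contradiction.
-/

set_option autoImplicit false

namespace Pool.Agent.Work.MP_37fea8_co

variable {V : Type} [Fintype V] [DecidableEq V] {c : V → V → Fin 7}

variable {H : Type} [Group H] [Fintype H] [MulAction H V] [MulAction H (Fin 7)]

private theorem no35_conj {H : Type} [Group H] {g h : H} {m : ℕ} (hm : h * g * h⁻¹ = g ^ m) :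
    ∀ k : ℕ, h ^ k * g * (h ^ k)⁻¹ = g ^ (m ^ k) := by
  intro k
  induction k with
  | zero => simp
  | succ k ih =>
    have h1 : h ^ (k + 1) * g * (h ^ (k + 1))⁻¹ = h * (h ^ k * g * (h ^ k)⁻¹) * h⁻¹ := by
      rw [pow_succ']
      group
    rw [h1, ih, ← conj_pow, hm, ← pow_mul, ← pow_succ']

private theorem no35_mod : ∀ m : ℕ, m ^ 5 % 7 = 1 → m % 7 = 1 := by
  intro m hm
  rw [Nat.pow_mod] at hm
  have h1 : m % 7 < 7 := Nat.mod_lt _ (by norm_num)
  interval_cases m % 7 <;> simp_all

private theorem no35_comm {H : Type} [Group H] [Fintype H] (hH : Fintype.card H = 35) {g h : H}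
    (hg : orderOf g = 7) (hh : orderOf h = 5) : h * g = g * h := by
  classical
  have hn : (Subgroup.zpowers g).Normal := by
    apply Subgroup.normal_of_index_eq_minFac_card
    have h1 := (Subgroup.zpowers g).card_mul_index
    rw [Nat.card_zpowers, hg, Nat.card_eq_fintype_card, hH] at h1
    rw [Nat.card_eq_fintype_card, hH]
    have h2 : (Subgroup.zpowers g).index = 5 := by omega
    rw [h2]
    norm_num
  have h1 : h * g * h⁻¹ ∈ Subgroup.zpowers g := hn.conj_mem g (Subgroup.mem_zpowers g) h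
  rw [mem_zpowers_iff_mem_range_orderOf] at h1
  obtain ⟨m, -, hm⟩ := Finset.mem_image.mp h1
  have h2 := no35_conj hm.symm 5
  have h5 : h ^ 5 = 1 := by
    rw [← hh]
    exact pow_orderOf_eq_one h
  rw [h5, one_mul, inv_one, mul_one] at h2
  have h3 : g ^ 1 = g ^ (m ^ 5) := by rw [pow_one]; exact h2
  rw [pow_eq_pow_iff_modEq, hg] at h3
  have h4 : m % 7 = 1 := no35_mod m h3.symm
  have h6 : g ^ m = g ^ 1 := by
    rw [pow_eq_pow_iff_modEq, hg]
    exact h4
  have h7 : h * g * h⁻¹ = g := by
    rw [← hm]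
    simpa using h6
  exact mul_inv_eq_iff_eq_mul.mp h7

theorem no35 (hc : Moore c) (ha : Act c H) (hH : Fintype.card H = 35) : False := by
  classical
  haveI : Fact (Nat.Prime 5) := ⟨by norm_num⟩
  haveI : Fact (Nat.Prime 7) := ⟨by norm_num⟩
  obtain ⟨g, hg⟩ := exists_prime_orderOf_dvd_card (G := H) 7 (by rw [hH]; norm_num)
  obtain ⟨h, hh⟩ := exists_prime_orderOf_dvd_card (G := H) 5 (by rw [hH]; norm_num)
  have hcomm := no35_comm hH hg hh
  have hg1 : g ≠ 1 := by
    rintro rfl
    rw [orderOf_one] at hg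
    norm_num at hg
  have hh1 : h ≠ 1 := by
    rintro rfl
    rw [orderOf_one] at hh
    norm_num at hh
  have hg7 : g ^ 7 = 1 := by
    rw [← hg]
    exact pow_orderOf_eq_one g
  have hh5 : h ^ 5 = 1 := by
    rw [← hh]
    exact pow_orderOf_eq_one h
  obtain ⟨x, hx, hx2⟩ := act7 hc ha hg1 hg7
  have hhx : h • x = x := by
    apply hx2
    rw [smul_smul, ← hcomm, ← smul_smul, hx]
  rcases act5 hc ha hh1 hh5 with h1 | ⟨h1, -⟩
  · exact h1 x hhx
  · have hp : (MulAction.toPerm g : Equiv.Perm V) ^ 7 = 1 := by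
      have h2 : (MulAction.toPerm g : Equiv.Perm V) = MulAction.toPermHom H V g := rfl
      rw [h2, ← map_pow, hg7, map_one]
    have h2 := fx_mod (p := 7) (by norm_num) hp (Finset.univ.filter fun y : V => h • y = y) (by
      intro y hy
      rw [Finset.mem_filter] at hy ⊢
      refine ⟨Finset.mem_univ _, ?_⟩
      show h • (g • y) = g • y
      rw [smul_smul, hcomm, ← smul_smul, hy.2])
    have h3 : fx (MulAction.toPerm g : Equiv.Perm V) ∩ (Finset.univ.filter fun y : V => h • y = y) =
        {x} := by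
      ext y
      rw [Finset.mem_inter, mem_fx, Finset.mem_filter, Finset.mem_singleton]
      constructor
      · rintro ⟨h4, -⟩
        exact hx2 y h4
      · rintro rfl
        exact ⟨hx, Finset.mem_univ _, hhx⟩
    rw [h3, h1, Finset.card_singleton] at h2
    exact absurd h2 (by decide)

end Pool.Agent.Work.MP_37fea8_co
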