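import Mathlib
import Pool.Agent.Work.MP_37fea8_co.Defs

/-!
# AU/HSm (complete): finite facts on the codes
-/

set_option autoImplicit false

namespace Pool.Agent.Work.MP_37fea8_co

instance : DecidableRel HS.Adj := fun x y => by
  unfold HS
  rw [SimpleGraph.fromRel_adj]
  infer_instance

theorem adj_dec : ∀ m : Fin 50, ∀ n : Fin 50, HS.Adj (dec m) (dec n) ↔ adjB m n = true := by
  decide +kernel

theorem dec_inj : ∀ m : Fin 50, ∀ n : Fin 50, dec m = dec n → m = n := by
  decide +kernel

theorem dec_bij : Function.Bijective fun n : Fin 50 => dec n := by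
  rw [Fintype.bijective_iff_injective_and_card]
  exact ⟨fun m n h => dec_inj m n h, by simp [ZMod.card]⟩

theorem adjB_symm : ∀ m n : Fin 50, adjB m n = adjB n m := by decide +kernel

theorem adjB_irr : ∀ m : Fin 50, adjB m m = false := by decide +kernel

theorem adjB_deg : ∀ m : Fin 50, (Finset.univ.filter fun n : Fin 50 => adjB m n = true).card = 7 := by
  decide +kernel

theorem adjB_tri : ∀ x y : Fin 50, adjB x y = true → ∀ z : Fin 50, adjB y z = true →
    adjB x z = false := by
  decide +kernel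

theorem adjB_com : ∀ x y : Fin 50, x ≠ y → adjB x y = false →
    (Finset.univ.filter fun z : Fin 50 => adjB x z = true ∧ adjB y z = true).card = 1 := by
  decide +kernel

theorem nxt_lt : ∀ n : Fin 50, nxt.getD n 0 < 50 := by decide +kernel

theorem nxt_inj : ∀ m n : Fin 50, nxt.getD m 0 = nxt.getD n 0 → m = n := by decide +kernel

theorem nxt_adj : ∀ m n : Fin 50, adjB (nxt.getD m 0) (nxt.getD n 0) = adjB m n := by decide +kernel

theorem nxt_zero : nxt.getD 0 0 = 0 := rfl

theorem oc_lt : ∀ r a : Fin 7, oc r a < 50 := by decide +kernel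

theorem oc_ne : ∀ r a : Fin 7, oc r a ≠ 0 := by decide +kernel

theorem oc_inj : ∀ r a s b : Fin 7, oc r a = oc s b → r = s ∧ a = b := by decide +kernel

theorem oc_surj : ∀ n : Fin 50, n ≠ 0 → ∃ r a : Fin 7, oc r a = n := by decide +kernel

theorem nxt_oc : ∀ r a : Fin 7, nxt.getD (oc r a) 0 = oc r ((a : ℕ) + 1) := by decide +kernel

theorem adjB_oc : ∀ r a s b : Fin 7, adjB (oc r a) (oc s b) = true ↔
    (((b : ℕ) + 7 - a) % 7) ∈ dd r s := by
  decide +kernel

theorem dd_nodup : ∀ r s : Fin 7, (dd r s).Nodup ∧ ∀ d ∈ dd r s, d < 7 := by decide +kernel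

/-- The automorphism of order `7` as a permutation of the codes. -/
noncomputable def g0 : Equiv.Perm (Fin 50) :=
  Equiv.ofBijective (fun n : Fin 50 => (⟨nxt.getD n 0, nxt_lt n⟩ : Fin 50))
    (Finite.injective_iff_bijective.1 fun m n h => nxt_inj m n (congrArg Fin.val h))

theorem g0_val (n : Fin 50) : (g0 n : ℕ) = nxt.getD n 0 := rfl

theorem g0_mem : g0 ∈ AutA := fun m n => nxt_adj m n

theorem g0_ne : g0 ≠ 1 := by
  intro h
  have h1 : (g0 1 : ℕ) = 1 := by rw [h]; rfl
  rw [g0_val] at h1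
  exact absurd h1 (by decide)

private theorem iter7 : ∀ n : Fin 50,
    nxt.getD (nxt.getD (nxt.getD (nxt.getD (nxt.getD (nxt.getD (nxt.getD n 0) 0) 0) 0) 0) 0) 0 = n := by
  decide +kernel

theorem g0_pow : g0 ^ 7 = 1 := by
  ext n
  have h : ((g0 ^ 7) n : ℕ) = nxt.getD (nxt.getD (nxt.getD (nxt.getD (nxt.getD (nxt.getD (nxt.getD
      n 0) 0) 0) 0) 0) 0) 0 := rfl
  rw [h, iter7]
  rfl

end Pool.Agent.Work.MP_37fea8_co
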