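import Mathlib
import Pool.Agent.Work.MP_37fea8_co.AU.HSm
import Pool.Agent.Work.MP_37fea8_co.AU.Moore7

/-!
# AU/HS49 (M)

The automorphism group of the Hoffman-Singleton graph has no subgroup of order `49`.

PROOF.  `P` is a `7`-group acting on `Fin 50` (as permutations), so the number of its fixed points is `≡ 1 mod 7`: let `o` be fixed by
`P`.  Let `v` be a neighbour of `o` (`adjB_deg`).  The orbit of `v` is contained in the set of the `7` neighbours of `o`, so the
stabilizer of `v` in `P` has order at least `49 / 7 = 7`; it contains an element `b ≠ 1`, and a power of `b` has order `7` (the order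
of `b` is `7` or `49`).  This power fixes `o` and `v`: `moore7` for `R x y := adjB x y = true` (`adjB_symm`, `adjB_deg`, `adjB_com`)
shows that it is `1`: contradiction.
-/

set_option autoImplicit false

namespace Pool.Agent.Work.MP_37fea8_co

theorem hs49 (P : Subgroup (Equiv.Perm (Fin 50))) (hP : P ≤ AutA) : Nat.card P ≠ 49 := by
  intro h49
  have h7 : Fact (Nat.Prime 7) := ⟨by norm_num⟩
  have hpg : IsPGroup 7 P := IsPGroup.of_card (n := 2) (by rw [h49]; norm_num)
  have hfix := hpg.card_modEq_card_fixedPoints (α := Fin 50)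
  have hfin : Finite (MulAction.fixedPoints P (Fin 50)) := Subtype.finite
  have hne : Nat.card (MulAction.fixedPoints P (Fin 50)) ≠ 0 := by
    intro h0
    rw [h0, Nat.card_eq_fintype_card, Fintype.card_fin] at hfix
    exact absurd hfix (by decide)
  obtain ⟨⟨o, ho⟩⟩ := (Nat.card_ne_zero.1 hne).1
  have ho' : ∀ g : P, (g : Equiv.Perm (Fin 50)) o = o := fun g => ho g
  have hcd := adjB_deg o
  obtain ⟨v, hv⟩ : (Finset.univ.filter fun n : Fin 50 => adjB o n = true).Nonempty := by
    rw [← Finset.card_pos, hcd]
    norm_num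
  have hov : adjB o v = true := (Finset.mem_filter.1 hv).2
  have hcov : o ≠ v := by
    rintro rfl
    rw [adjB_irr] at hov
    exact Bool.false_ne_true hov
  have horb : Nat.card (MulAction.orbit P v) ≤ 7 := by
    have h1 : MulAction.orbit P v ⊆
        (((Finset.univ.filter fun n : Fin 50 => adjB o n = true) : Finset (Fin 50)) :
          Set (Fin 50)) := by
      rintro _ ⟨g, rfl⟩
      rw [Finset.mem_coe, Finset.mem_filter]
      refine ⟨Finset.mem_univ _, ?_⟩
      have h2 := hP g.2 o v
      rw [ho' g] at h2
      exact h2.trans hov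
    have h2 := Set.ncard_le_ncard h1 (Finset.finite_toSet _)
    rw [Set.ncard_coe_finset, hcd] at h2
    exact h2
  have hst : Nat.card (MulAction.orbit P v) * Nat.card (MulAction.stabilizer P v) = 49 := by
    rw [← h49, ← Nat.card_prod]
    exact Nat.card_congr (MulAction.orbitProdStabilizerEquivGroup P v)
  have hbig : 1 < Nat.card (MulAction.stabilizer P v) := by
    by_contra hle
    have h1 : Nat.card (MulAction.stabilizer P v) ≤ 1 := by omega
    have h2 := Nat.mul_le_mul horb h1
    omega
  have hnt : Nontrivial (MulAction.stabilizer P v) :=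
    (Finite.one_lt_card_iff_nontrivial).1 hbig
  obtain ⟨⟨b, hb⟩, hb1⟩ := exists_ne (1 : MulAction.stabilizer P v)
  have hbv : (b : Equiv.Perm (Fin 50)) v = v := hb
  have hbne : (b : Equiv.Perm (Fin 50)) ≠ 1 := by
    intro h
    exact hb1 (Subtype.ext (Subtype.ext h))
  have hb49 : (b : Equiv.Perm (Fin 50)) ^ 49 = 1 := by
    have h1 : b ^ 49 = 1 := by
      rw [← h49]
      exact pow_card_eq_one'
    have h2 := congrArg (fun g : P => (g : Equiv.Perm (Fin 50))) h1
    exact h2
  have hkill : ∀ g : Equiv.Perm (Fin 50), g ∈ P → g ^ 7 = 1 → g v = v → g = 1 := by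
    intro g hg hg7 hgv
    refine moore7 (fun x y : Fin 50 => adjB x y = true) ?_ ?_ ?_ hg7 ?_ (ho' ⟨g, hg⟩) hgv hcov
    · intro x y hxy
      rw [adjB_symm]
      exact hxy
    · intro x
      exact adjB_deg x
    · intro x y hxy hn
      have h1 := adjB_com x y hxy (Bool.eq_false_iff.2 hn)
      rw [Finset.card_eq_one] at h1
      obtain ⟨z, hz⟩ := h1
      have h2 : z ∈ Finset.univ.filter fun z : Fin 50 => adjB x z = true ∧ adjB y z = true := by
        rw [hz]
        exact Finset.mem_singleton_self z
      refine ⟨z, (Finset.mem_filter.1 h2).2, ?_⟩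
      intro w hw
      have h3 : w ∈ Finset.univ.filter fun z : Fin 50 => adjB x z = true ∧ adjB y z = true :=
        Finset.mem_filter.2 ⟨Finset.mem_univ _, hw⟩
      rw [hz] at h3
      exact Finset.mem_singleton.1 h3
    · intro x y
      have h1 := hP hg x y
      show adjB (g x) (g y) = true ↔ adjB x y = true
      rw [h1]
  by_cases h7' : (b : Equiv.Perm (Fin 50)) ^ 7 = 1
  · exact hbne (hkill _ b.2 h7' hbv)
  · refine h7' (hkill _ (P.pow_mem b.2 7) ?_ ?_)
    · rw [← pow_mul]
      exact hb49
    · have h1 : ∀ n : ℕ, ((b : Equiv.Perm (Fin 50)) ^ n) v = v := by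
        intro n
        induction n with
        | zero => rfl
        | succ n ih =>
          rw [pow_succ, Equiv.Perm.mul_apply, hbv, ih]
      exact h1 7

end Pool.Agent.Work.MP_37fea8_co
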