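import Mathlib
import Pool.Agent.Work.MP_37fea8_co.AU.HS49

/-!
# AU/HSyl (M)

Automorphisms of order seven of the Hoffman-Singleton graph are conjugate up to powers.

PROOF.  `G = AutA` (as a group, finite).  `7 ∣ Nat.card G` because of `g0`; `49 ∤ Nat.card G`: otherwise there is a subgroup of
order `49` (`Sylow.exists_subgroup_card_pow_prime`), its image in the permutations contradicts `hs49`.  So the Sylow subgroups for
`p = 7` are exactly the subgroups of order `7` (`Sylow.ofCard`); `Subgroup.zpowers b` and `Subgroup.zpowers g0` are conjugate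
(`MulAction.exists_smul_eq` for `Sylow 7 G`): there is `a ∈ G` with `a * b ^ m * a⁻¹ = g0` for some `m` (an element of
`zpowers b`, an integer power, and `b ^ 7 = 1`).
-/

set_option autoImplicit false

namespace Pool.Agent.Work.MP_37fea8_co

private theorem hs_fac : (Nat.card AutA).factorization 7 = 1 := by
  classical
  haveI : Fact (Nat.Prime 7) := ⟨by norm_num⟩
  have hn : Nat.card AutA ≠ 0 := Nat.card_pos.ne'
  have h1 : 7 ∣ Nat.card AutA := by
    have h2 : orderOf (⟨g0, g0_mem⟩ : AutA) = 7 := by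
      apply orderOf_eq_prime
      · exact Subtype.ext g0_pow
      · intro h
        exact g0_ne (congrArg Subtype.val h)
    rw [← h2]
    exact orderOf_dvd_natCard _
  have h2 : ¬ 7 ^ 2 ∣ Nat.card AutA := by
    intro hd
    obtain ⟨K, hK⟩ := Sylow.exists_subgroup_card_pow_prime (G := AutA) 7 (n := 2) hd
    refine hs49 (K.map AutA.subtype) ?_ ?_
    · rintro x ⟨y, -, rfl⟩
      exact y.2
    · have h3 : Nat.card (K.map AutA.subtype : Subgroup (Equiv.Perm (Fin 50))) = Nat.card K :=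
        Nat.card_congr (K.equivMapOfInjective _ AutA.subtype_injective).symm.toEquiv
      rw [h3, hK]
      norm_num
  have h3 : 0 < (Nat.card AutA).factorization 7 :=
    (Nat.Prime.factorization_pos_of_dvd (by norm_num) hn h1)
  have h4 : (Nat.card AutA).factorization 7 < 2 := by
    by_contra h
    exact h2 ((Nat.Prime.pow_dvd_iff_le_factorization (by norm_num) hn).mpr (by omega))
  omega

theorem hs_syl {b : Equiv.Perm (Fin 50)} (hb : b ∈ AutA) (h7 : b ^ 7 = 1) (h1 : b ≠ 1) :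
    ∃ a ∈ AutA, ∃ m : ℕ, a * b ^ m * a⁻¹ = g0 := by
  classical
  haveI : Fact (Nat.Prime 7) := ⟨by norm_num⟩
  have hz : ∀ x : AutA, x ^ 7 = 1 → x ≠ 1 →
      Nat.card (Subgroup.zpowers x) = 7 ^ (Nat.card AutA).factorization 7 := by
    intro x hx hx1
    rw [hs_fac, pow_one, Nat.card_zpowers]
    exact orderOf_eq_prime hx hx1
  have hbx : (⟨b, hb⟩ : AutA) ^ 7 = 1 := Subtype.ext h7
  have hb1 : (⟨b, hb⟩ : AutA) ≠ 1 := fun h => h1 (congrArg Subtype.val h)
  have hgx : (⟨g0, g0_mem⟩ : AutA) ^ 7 = 1 := Subtype.ext g0_pow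
  have hg1 : (⟨g0, g0_mem⟩ : AutA) ≠ 1 := fun h => g0_ne (congrArg Subtype.val h)
  obtain ⟨a, ha⟩ := MulAction.exists_smul_eq AutA
    (Sylow.ofCard (Subgroup.zpowers (⟨b, hb⟩ : AutA)) (hz _ hbx hb1))
    (Sylow.ofCard (Subgroup.zpowers (⟨g0, g0_mem⟩ : AutA)) (hz _ hgx hg1))
  have h2 : (⟨g0, g0_mem⟩ : AutA) ∈
      (a • (Sylow.ofCard (Subgroup.zpowers (⟨b, hb⟩ : AutA)) (hz _ hbx hb1)) : Sylow 7 AutA) := by
    rw [ha]
    exact Subgroup.mem_zpowers _
  have h3 : ∃ y ∈ Subgroup.zpowers (⟨b, hb⟩ : AutA), a * y * a⁻¹ = ⟨g0, g0_mem⟩ := by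
    obtain ⟨y, hy, hy2⟩ := h2
    exact ⟨y, hy, hy2⟩
  obtain ⟨y, hy, hy2⟩ := h3
  rw [mem_zpowers_iff_mem_range_orderOf] at hy
  obtain ⟨m, -, hm⟩ := Finset.mem_image.mp hy
  refine ⟨a.1, a.2, m, ?_⟩
  have h4 := congrArg Subtype.val hy2
  rw [← hm] at h4
  exact h4

end Pool.Agent.Work.MP_37fea8_co
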