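import Mathlib
import Pool.Agent.Work.MP_37fea8_co.AU.HSyl
import Pool.Agent.Work.MP_37fea8_co.AU.ActL

/-!
# AU/Nrm (M)

Normalisation: the element `k` acts on the copy `0` as the standard automorphism.

PROOF.  `b = φ ∘ (k • ·) ∘ φ⁻¹` is a permutation of `Fin 50`, `b ∈ AutA` (for `m ≠ n`: `adjB (b m) (b n)` is true iff
`c (k • x) (k • y) = 0`, `x = φ⁻¹ m`, `y = φ⁻¹ n`, and `c (k • x) (k • y) = k • c x y = c x y`; for `m = n`: `adjB_irr`), `b ^ 7 = 1`,
`b ≠ 1` (faithful).  `hs_syl`: `a`, `m`.  `ψ = φ` followed by `a`, `k' = k ^ m`: `ψ (k' • x) = a (b ^ m (φ x)) = g0 (a (φ x))`.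
`k' ≠ 1` because `g0 ≠ 1`.  `StC` for `k'`: `k'` generates the same subgroup (order `7` prime): `k = k' ^ l`, so `gen` and `t7`
hold with exponents reduced modulo `7`.
-/

set_option autoImplicit false

namespace Pool.Agent.Work.MP_37fea8_co

variable {V : Type} [Fintype V] [DecidableEq V] {c : V → V → Fin 7}

variable {H : Type} [Group H] [MulAction H V] [MulAction H (Fin 7)]

/-- Powers of a generator of a group of order seven. -/
private theorem nr_pow (m : ℕ) (hm : ¬ 7 ∣ m) : ∃ l : ℕ, m * l % 7 = 1 := by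
  have h1 : m % 7 ≠ 0 := fun h => hm (Nat.dvd_of_mod_eq_zero h)
  have h2 : m % 7 < 7 := Nat.mod_lt _ (by norm_num)
  have key : ∀ r : ℕ, r < 7 → r ≠ 0 → ∃ l : ℕ, r * l % 7 = 1 := by
    intro r hr h0
    interval_cases r
    · exact absurd rfl h0
    · exact ⟨1, rfl⟩
    · exact ⟨4, rfl⟩
    · exact ⟨5, rfl⟩
    · exact ⟨2, rfl⟩
    · exact ⟨3, rfl⟩
    · exact ⟨6, rfl⟩
  obtain ⟨l, hl⟩ := key _ h2 h1
  refine ⟨l, ?_⟩
  rw [Nat.mul_mod, Nat.mod_mod] at hl
  rw [Nat.mul_mod]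
  exact hl

theorem nrm49 (hc : Moore c) {o : V} {k t : H} (hC : StC c H o k t)
    (hφ : ∃ φ : V ≃ Fin 50, ∀ x y, x ≠ y → (c x y = 0 ↔ adjB (φ x) (φ y) = true)) :
    ∃ (ψ : V ≃ Fin 50) (k' : H), StC c H o k' t ∧
      (∀ x y, x ≠ y → (c x y = 0 ↔ adjB (ψ x) (ψ y) = true)) ∧
      ∀ x, ψ (k' • x) = g0 (ψ x) := by
  obtain ⟨φ, hφ⟩ := hφ
  -- the permutation of the codes
  let b : Equiv.Perm (Fin 50) := (φ.symm.trans (MulAction.toPerm k)).trans φ
  have hbv : ∀ n, b n = φ (k • φ.symm n) := fun n => rfl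
  have hbφ : ∀ x, b (φ x) = φ (k • x) := fun x => by rw [hbv, Equiv.symm_apply_apply]
  have hbp : ∀ (j : ℕ) (x : V), (b ^ j) (φ x) = φ (k ^ j • x) := by
    intro j
    induction j with
    | zero => intro x; simp
    | succ j ih =>
      intro x
      rw [pow_succ, Equiv.Perm.mul_apply, hbφ, ih, pow_succ, mul_smul]
  have hb : b ∈ AutA := by
    intro m n
    rcases eq_or_ne m n with rfl | hmn
    · rw [adjB_irr, adjB_irr]
    · have h1 : φ.symm m ≠ φ.symm n := fun h => hmn (φ.symm.injective h)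
      have h2 : k • φ.symm m ≠ k • φ.symm n := fun h => h1 (MulAction.injective k h)
      have e1 := hφ _ _ h1
      have e2 := hφ _ _ h2
      rw [hC.act.act k _ _ h1, hC.kcol, e1, Equiv.apply_symm_apply, Equiv.apply_symm_apply] at e2
      rw [hbv, hbv]
      exact (Bool.eq_iff_iff.2 e2).symm
  have hb7 : b ^ 7 = 1 := by
    ext n
    obtain ⟨x, rfl⟩ := φ.surjective n
    rw [hbp, hC.k7, one_smul, Equiv.Perm.one_apply]
  have hb1 : b ≠ 1 := by
    intro h
    apply hC.k1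
    apply hC.act.faith
    intro x
    have := hbφ x
    rw [h, Equiv.Perm.one_apply] at this
    exact (φ.injective this).symm
  obtain ⟨a, ha, m, ham⟩ := hs_syl hb hb7 hb1
  have hm7 : ¬ 7 ∣ m := by
    rintro ⟨r, rfl⟩
    apply g0_ne
    rw [← ham, pow_mul, hb7, one_pow, mul_one, mul_inv_cancel]
  obtain ⟨l, hl⟩ := nr_pow m hm7
  have hkl : (k ^ m) ^ l = k := by
    rw [← pow_mul, ← Nat.div_add_mod (m * l) 7, hl, pow_add, pow_mul, hC.k7, one_pow, one_mul,
      pow_one]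
  have hk'7 : (k ^ m) ^ 7 = 1 := by rw [← pow_mul, Nat.mul_comm, pow_mul, hC.k7, one_pow]
  refine ⟨φ.trans a, k ^ m, ?_, ?_, ?_⟩
  · refine { act := hC.act, comm := hC.comm, fixo := hC.fixo, free := hC.free, reg := hC.reg,
             k7 := hk'7, k1 := ?_, kcol := ?_, gen := ?_, t7 := ?_, tcol := hC.tcol }
    · intro h
      apply hC.k1
      rw [← hkl, h, one_pow]
    · intro i
      have : ∀ j : ℕ, k ^ j • i = i := by
        intro j
        induction j with
        | zero => simp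
        | succ j ih => rw [pow_succ, mul_smul, hC.kcol, ih]
      exact this m
    · intro h
      obtain ⟨a', m', ha', _, he⟩ := hC.gen h
      refine ⟨a', (l * m') % 7, ha', Nat.mod_lt _ (by norm_num), ?_⟩
      rw [he]
      congr 1
      have e1 : (k ^ m) ^ (l * m' % 7) = (k ^ m) ^ (l * m') := by
        conv_rhs => rw [← Nat.div_add_mod (l * m') 7, pow_add, pow_mul, hk'7, one_pow, one_mul]
      rw [e1, pow_mul, hkl]
    · obtain ⟨m', he⟩ := hC.t7
      refine ⟨l * m', ?_⟩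
      rw [he, pow_mul, hkl]
  · intro x y hxy
    rw [hφ x y hxy]
    have h1 : adjB (a (φ x)) (a (φ y)) = adjB (φ x) (φ y) := ha _ _
    rw [Equiv.trans_apply, Equiv.trans_apply, h1]
  · intro x
    have h1 : ∀ z, a⁻¹ (a z) = z := a.symm_apply_apply
    rw [Equiv.trans_apply, Equiv.trans_apply, ← hbp, ← ham, Equiv.Perm.mul_apply,
      Equiv.Perm.mul_apply, h1]

end Pool.Agent.Work.MP_37fea8_co
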