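import Mathlib
import Pool.Agent.Work.MP_37fea8_co.AU.Nrm

/-!
# AU/Cnt49 (M-L)

A group of order `49` gives an impossible numbering.

PROOF.  `x₀ = ψ⁻¹ (oc 0 0)`, `x a = t ^ a • x₀` (`a < 7`).  `ψ o = 0` (`o` is fixed by `k`, and `0` is the only fixed point of `g0`:
`oc_surj`, `nxt_oc`, `oc_inj`), so `ψ (x a) ≠ 0` and `ψ (x a) = oc (q a) (α a)` (`oc_surj`).  `q 0 = 0`.
`ψ (k ^ m • y) = oc r (b + m)` if `ψ y = oc r b` (`nxt_oc`; indices modulo `7`).  `q` is injective: if `q a = q b` then `x b = k ^ m • x a`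
for some `m`, so `t ^ b = k ^ m * t ^ a` (free), then `t ^ b • 0 = t ^ a • 0` (colours) and `a = b` by `tcol`.
For `δ ≠ 0` and every `a`: `#{m < 7 | c (x a) (k ^ m • x (a + δ)) = 0} = (dd (q a) (q (a + δ))).length`: by `adjB_oc` the condition is
`(β + m + 7 - α) % 7 ∈ dd ..`, and `dd` has no repetitions and entries `< 7` (`dd_nodup`).  On the other hand
`x ((a + δ) mod 7)` is in the orbit of `t ^ (a + δ) • x₀` under the powers of `k` (`t7`), so the same number is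
`#{m | c (t ^ a • x₀) (t ^ a • k ^ m • t ^ δ • x₀) = 0} = #{m | t ^ a • c x₀ (k ^ m • t ^ δ • x₀) = 0}` (commutativity; the two points
are different because `k ^ m * t ^ δ ≠ 1`: it moves the colour `0`).  Sum over `a`: for every `m` there is exactly one `a` with
`t ^ a • i = 0` (`tcol`): the sum is `7`.
-/

set_option autoImplicit false

namespace Pool.Agent.Work.MP_37fea8_co

variable {V : Type} [Fintype V] [DecidableEq V] {c : V → V → Fin 7}

variable {H : Type} [Group H] [MulAction H V] [MulAction H (Fin 7)]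

private theorem oc_mod (r n : ℕ) : oc r n = oc r (n % 7) := by
  unfold oc
  rw [Nat.mod_mod]

private theorem nxt_oc' (r : Fin 7) (n : ℕ) : nxt.getD (oc r n) 0 = oc r (n + 1) := by
  have h := nxt_oc r ⟨n % 7, Nat.mod_lt _ (by norm_num)⟩
  simp only at h
  rw [oc_mod r n, h, oc_mod r (n % 7 + 1), oc_mod r (n + 1)]
  congr 1
  omega

private theorem adj_oc' (r s : Fin 7) (A B : ℕ) : adjB (oc r A) (oc s B) = true ↔
    ((B % 7 + 7 - A % 7) % 7) ∈ dd r s := by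
  have h := adjB_oc r ⟨A % 7, Nat.mod_lt _ (by norm_num)⟩ s ⟨B % 7, Nat.mod_lt _ (by norm_num)⟩
  simp only at h
  rw [oc_mod r A, oc_mod s B]
  exact h

private theorem cnt_dd : ∀ r s α β : Fin 7, (Finset.univ.filter fun m : Fin 7 =>
    (((β : ℕ) + m) % 7 + 7 - (α : ℕ) % 7) % 7 ∈ dd r s).card = (dd r s).length := by
  decide +kernel

theorem cnt49 (hc : Moore c) {o : V} {k t : H} (hC : StC c H o k t) (ψ : V ≃ Fin 50)
    (hψ : ∀ x y, x ≠ y → (c x y = 0 ↔ adjB (ψ x) (ψ y) = true))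
    (hk : ∀ x, ψ (k • x) = g0 (ψ x)) :
    ∃ q : Fin 7 → Fin 7, Function.Injective q ∧ q 0 = 0 ∧
      ∀ δ : Fin 7, δ ≠ 0 → ∑ a, (dd (q a) (q (a + δ))).length = 7 := by
  classical
  have hpw : ∀ (y : V) (r : Fin 7) (b m : ℕ), (ψ y : ℕ) = oc r b →
      (ψ (k ^ m • y) : ℕ) = oc r (b + m) := by
    intro y r b m hy
    induction m with
    | zero => rw [pow_zero, one_smul, add_zero, hy]
    | succ m ih => rw [pow_succ', mul_smul, hk, g0_val, ih, nxt_oc', add_assoc]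
  have hψo : ψ o = 0 := by
    by_contra h
    obtain ⟨r, a, hra⟩ := oc_surj _ h
    have h1 := hpw o r a 1 hra.symm
    rw [pow_one, hC.fixo, ← hra, oc_mod r ((a : ℕ) + 1)] at h1
    have h2 := (oc_inj r a r ⟨((a : ℕ) + 1) % 7, Nat.mod_lt _ (by norm_num)⟩ h1).2
    have h3 := congrArg Fin.val h2
    simp only at h3
    have := a.2
    omega
  set x₀ : V := ψ.symm ⟨oc 0 0, oc_lt 0 0⟩ with hx₀
  have hψx₀ : (ψ x₀ : ℕ) = oc 0 0 := by rw [hx₀, ψ.apply_symm_apply]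
  have hx₀o : x₀ ≠ o := by
    intro h
    rw [h, hψo] at hψx₀
    exact oc_ne 0 0 hψx₀.symm
  have hmove : ∀ h : H, h • x₀ ≠ o := by
    intro h hh
    apply hx₀o
    have := congrArg (fun z => h⁻¹ • z) hh
    simp only [inv_smul_smul] at this
    rw [this]
    exact hC.fixo _
  have hfree : ∀ g h : H, g • x₀ = h • x₀ → g = h := by
    intro g h hgh
    have h1 : (h⁻¹ * g) • x₀ = x₀ := by rw [mul_smul, hgh, inv_smul_smul]
    have h2 := hC.free _ x₀ hx₀o h1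
    exact (inv_mul_eq_one.1 h2).symm
  have hkm : ∀ (m : ℕ) (i : Fin 7), k ^ m • i = i := by
    intro m i
    induction m with
    | zero => rw [pow_zero, one_smul]
    | succ m ih => rw [pow_succ, mul_smul, hC.kcol, ih]
  have htc : ∀ (a b : Fin 7) (m : ℕ), t ^ (b : ℕ) = k ^ m * t ^ (a : ℕ) → a = b := by
    intro a b m h
    obtain ⟨z, _, hz⟩ := hC.tcol 0 (t ^ (b : ℕ) • (0 : Fin 7))
    have h1 : t ^ (a : ℕ) • (0 : Fin 7) = t ^ (b : ℕ) • (0 : Fin 7) := by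
      rw [h, mul_smul, hkm]
    rw [hz a h1, hz b rfl]
  have hsurj : ∀ a : Fin 7, ∃ r α : Fin 7, oc r α = (ψ (t ^ (a : ℕ) • x₀) : ℕ) := by
    intro a
    refine oc_surj _ ?_
    intro h
    exact hmove _ (ψ.injective (h.trans hψo.symm))
  choose q α hq using hsurj
  refine ⟨q, ?_, ?_, ?_⟩
  · intro a b hab
    have h1 := hpw (t ^ (a : ℕ) • x₀) (q a) (α a) ((α b : ℕ) + 7 - α a) (hq a).symm
    have h2 : oc (q a) ((α a : ℕ) + ((α b : ℕ) + 7 - α a)) = oc (q b) (α b) := by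
      rw [oc_mod (q a), hab]
      congr 1
      have := (α a).2
      have := (α b).2
      omega
    rw [h2, hq b] at h1
    have h3 := ψ.injective (Fin.ext h1)
    rw [← mul_smul] at h3
    exact htc a b _ (hfree _ _ h3).symm
  · have h1 := hq 0
    have h2 : (ψ (t ^ ((0 : Fin 7) : ℕ) • x₀) : ℕ) = oc 0 0 := by
      rw [Fin.val_zero, pow_zero, one_smul, hψx₀]
    rw [h2] at h1
    exact (oc_inj (q 0) (α 0) 0 0 h1).1
  · intro δ hδ
    set Φ : Fin 7 → Fin 7 := fun m => c x₀ (k ^ (m : ℕ) • t ^ (δ : ℕ) • x₀) with hΦ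
    have hkmod : ∀ n : ℕ, k ^ n = k ^ (n % 7) := by
      intro n
      conv_lhs => rw [← Nat.div_add_mod n 7, pow_add, pow_mul, hC.k7, one_pow, one_mul]
    have hterm : ∀ a : Fin 7, (dd (q a) (q (a + δ))).length =
        (Finset.univ.filter fun m : Fin 7 => t ^ (a : ℕ) • Φ m = 0).card := by
      intro a
      rw [← cnt_dd (q a) (q (a + δ)) (α a) (α (a + δ))]
      obtain ⟨m₀, hm₀⟩ := hC.t7
      -- `t ^ ((a + δ) % 7)` in terms of `t ^ (a + δ)`
      obtain ⟨e, he⟩ : ∃ e : ℕ, t ^ ((a + δ : Fin 7) : ℕ) = k ^ e * (t ^ (a : ℕ) * t ^ (δ : ℕ)) := by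
        have h1 : t ^ (a : ℕ) * t ^ (δ : ℕ) =
            k ^ (m₀ * (((a : ℕ) + δ) / 7)) * t ^ ((a + δ : Fin 7) : ℕ) := by
          rw [Fin.val_add, pow_mul, ← hm₀, ← pow_mul, ← pow_add, ← pow_add, Nat.div_add_mod]
        refine ⟨6 * (m₀ * (((a : ℕ) + δ) / 7)), ?_⟩
        rw [h1, ← mul_assoc, ← pow_add]
        have h2 : 6 * (m₀ * (((a : ℕ) + δ) / 7)) + m₀ * (((a : ℕ) + δ) / 7) =
            7 * (m₀ * (((a : ℕ) + δ) / 7)) := by ring
        rw [h2, pow_mul, hC.k7, one_pow, one_mul]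
      obtain ⟨e', he'⟩ : ∃ e' : Fin 7, (e' : ℕ) = e % 7 := ⟨⟨e % 7, Nat.mod_lt _ (by norm_num)⟩, rfl⟩
      have hne : ∀ m : ℕ, t ^ (a : ℕ) • x₀ ≠ k ^ m • t ^ ((a + δ : Fin 7) : ℕ) • x₀ := by
        intro m h
        rw [← mul_smul] at h
        have h1 := htc _ _ _ (hfree _ _ h)
        apply hδ
        exact (add_eq_left.1 h1)
      have h1 : ∀ m : Fin 7,
          ((((α (a + δ) : ℕ) + m) % 7 + 7 - (α a : ℕ) % 7) % 7 ∈ dd (q a) (q (a + δ)) ↔
            t ^ (a : ℕ) • Φ (m + e') = 0) := by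
        intro m
        rw [← adj_oc' (q a) (q (a + δ)) (α a) ((α (a + δ) : ℕ) + m), hq a,
          ← hpw (t ^ ((a + δ : Fin 7) : ℕ) • x₀) (q (a + δ)) (α (a + δ)) m (hq (a + δ)).symm,
          ← hψ _ _ (hne m), he]
        have h2 : k ^ (m : ℕ) • (k ^ e * (t ^ (a : ℕ) * t ^ (δ : ℕ))) • x₀ =
            t ^ (a : ℕ) • (k ^ ((m + e' : Fin 7) : ℕ) • t ^ (δ : ℕ) • x₀) := by
          rw [← mul_smul, ← mul_smul, ← mul_smul]
          congr 1
          have h3 : ((m + e' : Fin 7) : ℕ) = ((m : ℕ) + e) % 7 := by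
            rw [Fin.val_add, he', Nat.add_mod_mod]
          rw [h3, ← hkmod, pow_add]
          calc k ^ (m : ℕ) * (k ^ e * (t ^ (a : ℕ) * t ^ (δ : ℕ)))
              = k ^ (m : ℕ) * k ^ e * (t ^ (δ : ℕ) * t ^ (a : ℕ)) := by
                rw [hC.comm (t ^ (a : ℕ)) (t ^ (δ : ℕ)), mul_assoc]
            _ = (k ^ (m : ℕ) * k ^ e * t ^ (δ : ℕ)) * t ^ (a : ℕ) := by rw [mul_assoc _ (t ^ (δ : ℕ))]
            _ = t ^ (a : ℕ) * (k ^ (m : ℕ) * k ^ e * t ^ (δ : ℕ)) := hC.comm _ _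
            _ = t ^ (a : ℕ) * (k ^ (m : ℕ) * k ^ e) * t ^ (δ : ℕ) := (mul_assoc _ _ _).symm
        rw [h2]
        have h4 : x₀ ≠ k ^ ((m + e' : Fin 7) : ℕ) • t ^ (δ : ℕ) • x₀ := by
          intro h
          apply hne m
          rw [he, h2, ← h]
        rw [hC.act.act _ _ _ h4]
      rw [Finset.filter_congr fun m _ => h1 m]
      rw [Finset.card_filter, Finset.card_filter]
      exact Equiv.sum_comp (Equiv.addRight e')
        (fun m => if t ^ (a : ℕ) • Φ m = 0 then 1 else 0)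
    rw [Finset.sum_congr rfl fun a _ => hterm a]
    simp only [Finset.card_filter]
    rw [Finset.sum_comm]
    have hone : ∀ m : Fin 7, ∑ a : Fin 7, (if t ^ (a : ℕ) • Φ m = 0 then 1 else 0) = 1 := by
      intro m
      obtain ⟨z, hz, hz'⟩ := hC.tcol (Φ m) 0
      rw [Finset.sum_eq_single z]
      · exact if_pos hz
      · intro b _ hb
        rw [if_neg]
        intro h
        exact hb (hz' b h)
      · intro h
        exact absurd (Finset.mem_univ _) h
    rw [Finset.sum_congr rfl fun m _ => hone m]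
    simp

end Pool.Agent.Work.MP_37fea8_co
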