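import Mathlib
import Pool.Agent.Work.MP_37fea8_co.Defs

/-!
# AU/Perm49 (S)

The finite check for order `49`.

PROOF.  `decide +kernel` on a nested form: first prove
`∀ q1, q1 ≠ 0 → ∀ q2, q2 ≠ 0 → q2 ≠ q1 → ... → ∀ q6, ... → (∃ δ, ...)` for `q1, ..., q6 : Fin 7` with explicit sums (for example with
`![0, q1, q2, q3, q4, q5, q6]` in place of `q`), so that only the `720` injective assignments are tested; then specialise to
`q 1, ..., q 6`.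
-/

set_option autoImplicit false

namespace Pool.Agent.Work.MP_37fea8_co

private def pq (q1 q2 q3 q4 q5 q6 : Fin 7) (a : Fin 7) : Fin 7 :=
  ![0, q1, q2, q3, q4, q5, q6] a

private def chk (q1 q2 q3 q4 q5 q6 : Fin 7) : Prop :=
  ∃ δ : Fin 7, δ ≠ 0 ∧ ∑ a, (dd (pq q1 q2 q3 q4 q5 q6 a) (pq q1 q2 q3 q4 q5 q6 (a + δ))).length ≠ 7

private instance (q1 q2 q3 q4 q5 q6 : Fin 7) : Decidable (chk q1 q2 q3 q4 q5 q6) := by
  unfold chk
  infer_instance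

private def c5 (q1 q2 q3 q4 q5 : Fin 7) : Prop :=
  ∀ q6 : Fin 7, (q6 ≠ 0 ∧ q6 ≠ q1 ∧ q6 ≠ q2 ∧ q6 ≠ q3 ∧ q6 ≠ q4 ∧ q6 ≠ q5) →
    chk q1 q2 q3 q4 q5 q6

private instance (q1 q2 q3 q4 q5 : Fin 7) : Decidable (c5 q1 q2 q3 q4 q5) := by
  unfold c5
  infer_instance

private def c4 (q1 q2 q3 q4 : Fin 7) : Prop :=
  ∀ q5 : Fin 7, (q5 ≠ 0 ∧ q5 ≠ q1 ∧ q5 ≠ q2 ∧ q5 ≠ q3 ∧ q5 ≠ q4) → c5 q1 q2 q3 q4 q5

private instance (q1 q2 q3 q4 : Fin 7) : Decidable (c4 q1 q2 q3 q4) := by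
  unfold c4
  infer_instance

private def c3 (q1 q2 q3 : Fin 7) : Prop :=
  ∀ q4 : Fin 7, (q4 ≠ 0 ∧ q4 ≠ q1 ∧ q4 ≠ q2 ∧ q4 ≠ q3) → c4 q1 q2 q3 q4

private instance (q1 q2 q3 : Fin 7) : Decidable (c3 q1 q2 q3) := by
  unfold c3
  infer_instance

private def c2 (q1 q2 : Fin 7) : Prop :=
  ∀ q3 : Fin 7, (q3 ≠ 0 ∧ q3 ≠ q1 ∧ q3 ≠ q2) → c3 q1 q2 q3

private instance (q1 q2 : Fin 7) : Decidable (c2 q1 q2) := by
  unfold c2
  infer_instance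

private theorem p49 : ∀ q1 : Fin 7, q1 ≠ 0 → ∀ q2 : Fin 7, (q2 ≠ 0 ∧ q2 ≠ q1) → c2 q1 q2 := by
  decide +kernel

theorem perm49 (q : Fin 7 → Fin 7) (hq : Function.Injective q) (h0 : q 0 = 0) :
    ∃ δ : Fin 7, δ ≠ 0 ∧ ∑ a, (dd (q a) (q (a + δ))).length ≠ 7 := by
  have hne : ∀ i j : Fin 7, i ≠ j → q i ≠ q j := fun i j h h' => h (hq h')
  have h : ∀ i : Fin 7, i ≠ 0 → q i ≠ 0 := fun i hi h' => hi (hq (h'.trans h0.symm))
  have k := p49 (q 1) (h 1 (by decide)) (q 2) ⟨h 2 (by decide), hne _ _ (by decide)⟩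
    (q 3) ⟨h 3 (by decide), hne _ _ (by decide), hne _ _ (by decide)⟩
    (q 4) ⟨h 4 (by decide), hne _ _ (by decide), hne _ _ (by decide), hne _ _ (by decide)⟩
    (q 5) ⟨h 5 (by decide), hne _ _ (by decide), hne _ _ (by decide), hne _ _ (by decide),
      hne _ _ (by decide)⟩
    (q 6) ⟨h 6 (by decide), hne _ _ (by decide), hne _ _ (by decide), hne _ _ (by decide),
      hne _ _ (by decide), hne _ _ (by decide)⟩
  have hfun : ∀ a, pq (q 1) (q 2) (q 3) (q 4) (q 5) (q 6) a = q a := by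
    intro a
    fin_cases a
    · exact h0.symm
    all_goals rfl
  obtain ⟨δ, h1, h2⟩ := k
  simp only [hfun] at h2
  exact ⟨δ, h1, h2⟩

end Pool.Agent.Work.MP_37fea8_co
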