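import Mathlib
import Pool.Agent.Work.MP_37fea8_co.AU.ActL

/-!
# AU/StrC (M-L)

The structure of a group of order `49`.

PROOF.  `H` is a `7`-group.  The number of the vertices fixed by `H` is `≡ 50 ≡ 1 mod 7`
(`IsPGroup.card_modEq_card_fixedPoints`), so there is a fixed vertex `o`.  `free`: let `h ≠ 1`, `h • x = x`; if `h ^ 7 = 1` then
`x = o` by `act7` (both are fixed); otherwise `(h ^ 7) ^ 7 = 1`, `h ^ 7 ≠ 1` fixes `x` and `o`: `x = o`.
`reg`: the orbit of `x ≠ o` has `49` elements and does not contain `o`, so it is the set of all vertices `≠ o`.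
Colours: the number of the colours fixed by `H` is `≡ 7 ≡ 0 mod 7`: `0` or `7`.  If it is `7`: `H` acts on `nb c 0 o` (`7` elements, none
is `o`), but the orbit of an element has `49` elements: contradiction.  So no colour is fixed by `H`; the orbit of `0` has an order
which divides `49`, is `≤ 7` and `> 1`: it is `7`, all colours, and `K = MulAction.stabilizer H (0 : Fin 7)` has order `7`.  `H` is
commutative (order `p ^ 2`), so `K` fixes all colours (`kcol`).  `k` = an element `≠ 1` of `K` (it generates `K`, prime order), `t ∉ K`.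
`H ⧸ K` has order `7` and is generated by the class of `t`: `gen`, `t7`.  `tcol`: the stabilizer of every colour is `K`
(it contains `K` and has order `7`), so `t ^ a • i`, `a < 7`, are different: all seven colours.
-/

set_option autoImplicit false

namespace Pool.Agent.Work.MP_37fea8_co

variable {V : Type} [Fintype V] [DecidableEq V] {c : V → V → Fin 7}

variable {H : Type} [Group H] [Fintype H] [MulAction H V] [MulAction H (Fin 7)]

private theorem sc_coprime {K : Subgroup H} {t : H} (h7 : t ^ 7 ∈ K) {d : ℕ}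
    (hd0 : 0 < d) (hd7 : d < 7) (hd : t ^ d ∈ K) : t ∈ K := by
  have hco : Nat.gcd d 7 = 1 := by
    interval_cases d <;> rfl
  have hb := Nat.gcd_eq_gcd_ab d 7
  rw [hco] at hb
  have h1 : t = (t ^ d) ^ (Nat.gcdA d 7) * (t ^ 7) ^ (Nat.gcdB d 7) := by
    have e1 : (t ^ d) ^ (Nat.gcdA d 7) = t ^ ((d : ℤ) * Nat.gcdA d 7) := by
      rw [zpow_mul, zpow_natCast]
    have e2 : (t ^ 7) ^ (Nat.gcdB d 7) = t ^ (((7 : ℕ) : ℤ) * Nat.gcdB d 7) := by
      rw [zpow_mul, zpow_natCast]
    rw [e1, e2, ← zpow_add, ← hb]
    simp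
  rw [h1]
  exact K.mul_mem (K.zpow_mem hd _) (K.zpow_mem h7 _)

theorem strC (hc : Moore c) (ha : Act c H) (hH : Fintype.card H = 49) :
    ∃ (o : V) (k t : H), StC c H o k t := by
  classical
  haveI : Fact (Nat.Prime 7) := ⟨by norm_num⟩
  have hHn : Nat.card H = 7 ^ 2 := by rw [Nat.card_eq_fintype_card, hH]; norm_num
  have hp : IsPGroup 7 H := IsPGroup.of_card hHn
  have hcomm : ∀ a b : H, a * b = b * a :=
    (IsPGroup.isMulCommutative_of_card_eq_prime_sq hHn).is_comm.comm
  have hpow : ∀ h : H, h ^ 49 = 1 := by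
    intro h
    rw [← hH]
    exact pow_card_eq_one
  -- a fixed vertex
  obtain ⟨o, ho⟩ : ∃ o : V, ∀ h : H, h • o = o := by
    have h1 := hp.card_modEq_card_fixedPoints V
    rw [Nat.card_eq_fintype_card (α := V), hc.card] at h1
    by_contra hno
    push Not at hno
    have h2 : Nat.card (MulAction.fixedPoints H V) = 0 := by
      rw [Nat.card_eq_zero]
      left
      refine ⟨fun x => ?_⟩
      obtain ⟨h, hh⟩ := hno x.1
      exact hh (x.2 h)
    rw [h2] at h1
    exact absurd h1 (by decide)
  have hfree : ∀ (h : H) (x : V), x ≠ o → h • x = x → h = 1 := by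
    intro h x hx hhx
    by_contra h1
    by_cases h7 : h ^ 7 = 1
    · obtain ⟨z, _, hz⟩ := act7 hc ha h1 h7
      exact hx ((hz x hhx).trans (hz o (ho h)).symm)
    · obtain ⟨z, _, hz⟩ := act7 hc ha h7 (by rw [← pow_mul]; exact hpow h)
      have h2 : (h ^ 7) • x = x := by
        have : ∀ n : ℕ, (h ^ n) • x = x := by
          intro n
          induction n with
          | zero => simp
          | succ n ih => rw [pow_succ, mul_smul, hhx, ih]
        exact this 7
      exact hx ((hz x h2).trans (hz o (ho _)).symm)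
  have hreg : ∀ x y : V, x ≠ o → y ≠ o → ∃ h : H, h • x = y := by
    intro x y hx hy
    have hne : ∀ h : H, h • x ≠ o := by
      intro h hh
      apply hx
      have := congrArg (fun z => h⁻¹ • z) hh
      simp only [inv_smul_smul] at this
      rw [this]
      exact ho _
    have hinj : Function.Injective (fun h : H => (⟨h • x, hne h⟩ : {v : V // v ≠ o})) := by
      intro h h' hhh
      have h1 : h • x = h' • x := congrArg Subtype.val hhh
      have h2 : (h'⁻¹ * h) • x = x := by rw [mul_smul, h1, inv_smul_smul]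
      have h3 := hfree _ x hx h2
      exact (inv_mul_eq_one.1 h3).symm
    have hcard : Fintype.card H = Fintype.card {v : V // v ≠ o} := by
      have h1 : Fintype.card {v : V // v ≠ o} = Fintype.card V - 1 := by
        rw [Fintype.card_subtype_compl, Fintype.card_subtype_eq]
      rw [hH, h1, hc.card]
    have hbij := (Fintype.bijective_iff_injective_and_card _).2 ⟨hinj, hcard⟩
    obtain ⟨h, hh⟩ := hbij.2 ⟨y, hy⟩
    exact ⟨h, congrArg Subtype.val hh⟩
  -- no colour is fixed
  have hnofix : ∀ i : Fin 7, ¬ ∀ h : H, h • i = i := by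
    intro i hi
    have hcard := nb_card hc i o
    have hne : (nb c i o).Nonempty := by
      rw [← Finset.card_pos, hcard]
      norm_num
    obtain ⟨y, hy⟩ := hne
    rw [mem_nb] at hy
    have hsub : (Finset.univ.filter fun v : V => v ≠ o) ⊆ nb c i o := by
      intro x hx
      rw [Finset.mem_filter] at hx
      obtain ⟨h, rfl⟩ := hreg y x hy.1 hx.2
      rw [mem_nb]
      refine ⟨hx.2, ?_⟩
      have h1 := ha.act h o y hy.1.symm
      rw [ho h, hy.2, hi h] at h1
      exact h1
    have h2 := Finset.card_le_card hsub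
    rw [hcard] at h2
    have h3 : (Finset.univ.filter fun v : V => v ≠ o).card = 49 := by
      rw [Finset.filter_ne', Finset.card_erase_of_mem (Finset.mem_univ _), Finset.card_univ,
        hc.card]
    omega
  -- stabilizers
  have hidx : ∀ i : Fin 7, (MulAction.stabilizer H i).index = 7 := by
    intro i
    have h1 : (MulAction.stabilizer H i).index ∣ 7 ^ 2 := by
      rw [← hHn]
      exact Subgroup.index_dvd_card _
    obtain ⟨e, he, hee⟩ := (Nat.dvd_prime_pow (by norm_num : Nat.Prime 7)).1 h1
    have h2 : (MulAction.stabilizer H i).index ≤ 7 := by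
      rw [MulAction.index_stabilizer]
      refine (Set.ncard_le_ncard (Set.subset_univ _) (Set.toFinite _)).trans ?_
      rw [Set.ncard_univ, Nat.card_eq_fintype_card, Fintype.card_fin]
    have h3 : (MulAction.stabilizer H i).index ≠ 1 := by
      intro h
      rw [Subgroup.index_eq_one] at h
      apply hnofix i
      intro g
      have : g ∈ MulAction.stabilizer H i := by rw [h]; trivial
      exact this
    interval_cases e
    · exact absurd hee h3
    · exact hee
    · rw [hee] at h2
      norm_num at h2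
  set K := MulAction.stabilizer H (0 : Fin 7) with hK
  have hKcard : Nat.card K = 7 := by
    have h1 := K.card_mul_index
    rw [hidx 0, hHn] at h1
    omega
  have horb : ∀ i j : Fin 7, ∃ h : H, h • i = j := by
    intro i j
    have h1 : (MulAction.orbit H i).ncard = 7 := by
      rw [← MulAction.index_stabilizer, hidx]
    have h2 : MulAction.orbit H i = Set.univ := by
      apply Set.eq_of_subset_of_ncard_le (Set.subset_univ _) _ (Set.toFinite _)
      rw [Set.ncard_univ, Nat.card_eq_fintype_card, Fintype.card_fin, h1]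
    have h3 : j ∈ MulAction.orbit H i := by rw [h2]; trivial
    exact h3
  have hKfix : ∀ k ∈ K, ∀ i : Fin 7, k • i = i := by
    intro k hk i
    obtain ⟨h, rfl⟩ := horb 0 i
    rw [← mul_smul, hcomm, mul_smul]
    have : k • (0 : Fin 7) = 0 := hk
    rw [this]
  have hfixK : ∀ (k : H) (i : Fin 7), k • i = i → k ∈ K := by
    intro k i hk
    obtain ⟨h, rfl⟩ := horb 0 i
    show k • (0 : Fin 7) = 0
    rw [← mul_smul, hcomm, mul_smul] at hk
    exact MulAction.injective h hk
  obtain ⟨k, hkK, hk1⟩ : ∃ k ∈ K, k ≠ 1 := by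
    have : Nontrivial K := by
      rw [← Finite.one_lt_card_iff_nontrivial, hKcard]
      norm_num
    obtain ⟨k, hk⟩ := exists_ne (1 : K)
    exact ⟨k.1, k.2, fun h => hk (Subtype.ext h)⟩
  obtain ⟨t, htK⟩ : ∃ t : H, t ∉ K := by
    by_contra hno
    push Not at hno
    have h1 : K.index = 1 := by
      rw [Subgroup.index_eq_one, Subgroup.eq_top_iff']
      exact hno
    rw [hidx 0] at h1
    norm_num at h1
  have hk7 : ∀ k ∈ K, k ^ 7 = 1 := by
    intro k hk
    have h1 : (⟨k, hk⟩ : K) ^ Nat.card K = 1 := pow_card_eq_one'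
    rw [hKcard] at h1
    exact congrArg Subtype.val h1
  have hpowK : ∀ g ∈ K, ∃ m : ℕ, m < 7 ∧ g = k ^ m := by
    intro g hg
    have h1 := mem_powers_of_prime_card (p := 7) (G := K) hKcard (g := ⟨k, hkK⟩)
      (g' := ⟨g, hg⟩) (fun h => hk1 (congrArg Subtype.val h))
    obtain ⟨m, hm⟩ := h1
    have h2 : k ^ m = g := congrArg Subtype.val hm
    refine ⟨m % 7, Nat.mod_lt _ (by norm_num), ?_⟩
    rw [← h2]
    conv_lhs => rw [← Nat.div_add_mod m 7, pow_add, pow_mul, hk7 k hkK, one_pow, one_mul]
  have ht7K : t ^ 7 ∈ K := by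
    haveI : K.Normal := ⟨fun n hn g => by rw [hcomm g n, mul_inv_cancel_right]; exact hn⟩
    have h1 := Subgroup.pow_index_mem K t
    rwa [hidx 0] at h1
  have htinj : ∀ i : Fin 7, Function.Injective (fun a : Fin 7 => t ^ (a : ℕ) • i) := by
    intro i
    have key : ∀ a b : ℕ, a < b → b < 7 → t ^ a • i ≠ t ^ b • i := by
      intro a b hab hb h
      have h1 : t ^ (b - a) • i = i := by
        have h2 : t ^ b = t ^ a * t ^ (b - a) := by
          rw [← pow_add]
          congr 1
          omega
        rw [h2, mul_smul] at h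
        exact (MulAction.injective (t ^ a) h).symm
      exact htK (sc_coprime ht7K (by omega) (by omega) (hfixK _ i h1))
    intro a b hab
    rcases lt_trichotomy (a : ℕ) b with h | h | h
    · exact absurd hab (key a b h b.2)
    · exact Fin.ext h
    · exact absurd hab.symm (key b a h a.2)
  refine ⟨o, k, t, ha, hcomm, ho, hfree, hreg, hk7 k hkK, hk1, hKfix k hkK, ?_, ?_, ?_⟩
  · intro h
    obtain ⟨a, hha⟩ := (Finite.injective_iff_surjective.1 (htinj 0)) (h • (0 : Fin 7))
    have h1 : (t ^ (a : ℕ))⁻¹ * h ∈ K := by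
      show ((t ^ (a : ℕ))⁻¹ * h) • (0 : Fin 7) = 0
      simp only at hha
      rw [mul_smul, ← hha, inv_smul_smul]
    obtain ⟨m, hm, hmm⟩ := hpowK _ h1
    refine ⟨a, m, a.2, hm, ?_⟩
    rw [← hmm, hcomm, mul_inv_cancel_left]
  · obtain ⟨m, _, hm⟩ := hpowK _ ht7K
    exact ⟨m, hm⟩
  · intro i j
    obtain ⟨a, haa⟩ := (Finite.injective_iff_surjective.1 (htinj i)) j
    exact ⟨a, haa, fun b hb => htinj i (hb.trans haa.symm)⟩

end Pool.Agent.Work.MP_37fea8_co
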