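import Mathlib
import Pool.Agent.Work.MP_37fea8_co.AU.StrC
import Pool.Agent.Work.MP_37fea8_co.AU.Cnt49
import Pool.Agent.Work.MP_37fea8_co.AU.Perm49

/-!
# AU/No49 (S)

There is no group of order `49`.
-/

set_option autoImplicit false

namespace Pool.Agent.Work.MP_37fea8_co

variable {V : Type} [Fintype V] [DecidableEq V] {c : V → V → Fin 7}

variable {H : Type} [Group H] [Fintype H] [MulAction H V] [MulAction H (Fin 7)]

theorem no49 (hc : Moore c) (ha : Act c H) (hH : Fintype.card H = 49)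
    (hφ : ∃ φ : V ≃ Fin 50, ∀ x y, x ≠ y → (c x y = 0 ↔ adjB (φ x) (φ y) = true)) : False := by
  obtain ⟨o, k, t, hC⟩ := strC hc ha hH
  obtain ⟨ψ, k', hC', hψ, hk⟩ := nrm49 hc hC hφ
  obtain ⟨q, hq, h0, hδ⟩ := cnt49 hc hC' ψ hψ hk
  obtain ⟨δ, h1, h2⟩ := perm49 q hq h0
  exact h2 (hδ δ h1)

end Pool.Agent.Work.MP_37fea8_co
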