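import Mathlib
import Pool.Agent.Work.MP_37fea8_co.AU.No25
import Pool.Agent.Work.MP_37fea8_co.AU.No49
import Pool.Agent.Work.MP_37fea8_co.AU.No35
import Pool.Agent.Work.MP_37fea8_co.AU.Gam

/-!
# AU/Card (M)

The order of the automorphism group.

PROOF.  `G = Gam c` is finite, `n = Nat.card G > 0`.  A prime `p ∣ n`: an element of order `p` (`exists_prime_orderOf_dvd_card'`) and
`act_prime` (with `gam_act`) give `p ∈ {5, 7}`.  `25 ∤ n`: otherwise a subgroup of order `5 ^ 2`
(`Sylow.exists_subgroup_card_pow_prime`), against `no25` (`act_sub`).  `49 ∤ n`: the same with `no49`.  So `n ∣ 35`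
(`n` is a product of a power of `5` and a power of `7`; for example `Nat.factorization` or: every prime power divisor), so
`n ∈ {1, 5, 7, 35}`, and `35` is impossible by `no35`.
-/

set_option autoImplicit false

namespace Pool.Agent.Work.MP_37fea8_co

variable {V : Type} [Fintype V] [DecidableEq V] {c : V → V → Fin 7}

private theorem card_no {hc : Moore c} {N : ℕ}
    (hno : ∀ (H : Type) [Group H] [Fintype H] [MulAction H V] [MulAction H (Fin 7)],
      Act c H → Fintype.card H = N → False) (K : Subgroup (Gam c)) (hK : Nat.card K = N) :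
    False := by
  classical
  haveI : Fintype K := Fintype.ofFinite K
  exact hno K (act_sub (gam_act hc) K) (by rw [← hK, Nat.card_eq_fintype_card])

private theorem card_arith {n : ℕ} (hn : n ≠ 0) (hp : ∀ p : ℕ, p.Prime → p ∣ n → p = 5 ∨ p = 7)
    (h25 : ¬ 25 ∣ n) (h49 : ¬ 49 ∣ n) : n = 1 ∨ n = 5 ∨ n = 7 ∨ n = 35 := by
  obtain ⟨a, m, hm, rfl⟩ := Nat.exists_eq_pow_mul_and_not_dvd hn 5 (by norm_num)
  have hm0 : m ≠ 0 := by
    rintro rfl
    exact hm (dvd_zero _)
  obtain ⟨b, l, hl, rfl⟩ := Nat.exists_eq_pow_mul_and_not_dvd hm0 7 (by norm_num)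
  have hl1 : l = 1 := by
    by_contra h
    obtain ⟨p, hpp, hpl⟩ := Nat.exists_prime_and_dvd h
    have h1 : p ∣ 5 ^ a * (7 ^ b * l) := (hpl.mul_left _).mul_left _
    rcases hp p hpp h1 with rfl | rfl
    · exact hm (hpl.mul_left _)
    · exact hl hpl
  subst hl1
  have ha : a < 2 := by
    by_contra h
    apply h25
    have h1 : (5 : ℕ) ^ 2 ∣ 5 ^ a := pow_dvd_pow 5 (by omega)
    exact (h1.mul_right _)
  have hb : b < 2 := by
    by_contra h
    apply h49
    have h1 : (7 : ℕ) ^ 2 ∣ 7 ^ b := pow_dvd_pow 7 (by omega)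
    exact (h1.mul_right _).mul_left _
  interval_cases a <;> interval_cases b <;> simp

theorem card_gam (hc : Moore c)
    (hφ : ∃ φ : V ≃ Fin 50, ∀ x y, x ≠ y → (c x y = 0 ↔ adjB (φ x) (φ y) = true)) :
    Nat.card (Gam c) = 1 ∨ Nat.card (Gam c) = 5 ∨ Nat.card (Gam c) = 7 := by
  classical
  haveI : Fact (Nat.Prime 5) := ⟨by norm_num⟩
  haveI : Fact (Nat.Prime 7) := ⟨by norm_num⟩
  have hfin : Finite (Gam c) := inferInstance
  have hn : Nat.card (Gam c) ≠ 0 := Nat.card_pos.ne'
  have hp : ∀ p : ℕ, p.Prime → p ∣ Nat.card (Gam c) → p = 5 ∨ p = 7 := by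
    intro p hp hd
    haveI : Fact p.Prime := ⟨hp⟩
    obtain ⟨x, hx⟩ := exists_prime_orderOf_dvd_card' p hd
    refine act_prime hc (gam_act hc) hp (h := x) ?_ ?_
    · rintro rfl
      rw [orderOf_one] at hx
      exact hp.one_lt.ne hx
    · rw [← hx]
      exact pow_orderOf_eq_one x
  have h25 : ¬ 25 ∣ Nat.card (Gam c) := by
    intro hd
    obtain ⟨K, hK⟩ := Sylow.exists_subgroup_card_pow_prime (G := Gam c) 5 (n := 2) (by simpa using hd)
    exact card_no (hc := hc) (N := 5 ^ 2) (fun H _ _ _ _ ha hH => no25 hc ha (by rw [hH]; norm_num)) K hK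
  have h49 : ¬ 49 ∣ Nat.card (Gam c) := by
    intro hd
    obtain ⟨K, hK⟩ := Sylow.exists_subgroup_card_pow_prime (G := Gam c) 7 (n := 2) (by simpa using hd)
    exact card_no (hc := hc) (N := 7 ^ 2) (fun H _ _ _ _ ha hH => no49 hc ha (by rw [hH]; norm_num) hφ) K hK
  rcases card_arith hn hp h25 h49 with h | h | h | h
  · exact Or.inl h
  · exact Or.inr (Or.inl h)
  · exact Or.inr (Or.inr h)
  · exfalso
    haveI : Fintype (Gam c) := Fintype.ofFinite _
    exact no35 hc (gam_act hc) (by rw [← h, Nat.card_eq_fintype_card])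

end Pool.Agent.Work.MP_37fea8_co
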