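import Mathlib
import Pool.Agent.Work.MP_37fea8_co.AU.HSm

/-!
# AU/OfDec (M)

From a decomposition to a colour function.

PROOF.  For `x ≠ y` there is exactly one `i` with `(G i).Adj x y`: existence by `cov` (`SimpleGraph.iSup_adj`, `SimpleGraph.top_adj`),
uniqueness by `disj` (`SimpleGraph.disjoint_left` or `disjoint_iff_inf_le`).  `c x y` = this `i` (classical choice, and `0` for
`x = y`).  `φ i`: the isomorphism `G i ≃g HS` followed by the inverse of the bijection `dec` (`dec_bij`): by `adj_dec`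
`(G i).Adj x y ↔ adjB (φ x) (φ y) = true`.  `Moore c`: transport `adjB_deg`, `adjB_tri`, `adjB_com` along `φ i`
(`symm`: `SimpleGraph.Adj.symm`).  For `tri`: `i = c x y = c y z`, and `c x z = i` would be a triangle of `adjB`.
-/

set_option autoImplicit false

namespace Pool.Agent.Work.MP_37fea8_co

theorem of_dec {G : Fin 7 → SimpleGraph (Fin 50)} (hG : IsDec G) :
    ∃ c : Fin 50 → Fin 50 → Fin 7, Moore c ∧
      (∀ x y, x ≠ y → ∀ i, (c x y = i ↔ (G i).Adj x y)) ∧
      ∀ i, ∃ φ : Fin 50 ≃ Fin 50, ∀ x y, x ≠ y → (c x y = i ↔ adjB (φ x) (φ y) = true) := by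
  classical
  have hex : ∀ x y : Fin 50, x ≠ y → ∃ i, (G i).Adj x y := by
    intro x y hxy
    have h1 : (⨆ i, G i).Adj x y := by
      rw [hG.cov]
      exact hxy
    rwa [SimpleGraph.iSup_adj] at h1
  have huniq : ∀ x y i j, (G i).Adj x y → (G j).Adj x y → i = j := by
    intro x y i j hi hj
    by_contra hne
    have h1 := hG.disj i j hne
    rw [disjoint_iff_inf_le] at h1
    have h2 : (G i ⊓ G j).Adj x y := ⟨hi, hj⟩
    exact h1 h2
  let c : Fin 50 → Fin 50 → Fin 7 := fun x y => if h : ∃ i, (G i).Adj x y then h.choose else 0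
  have hc : ∀ x y, x ≠ y → ∀ i, (c x y = i ↔ (G i).Adj x y) := by
    intro x y hxy i
    have h := hex x y hxy
    have h1 : (G (c x y)).Adj x y := by
      simp only [c, dif_pos h]
      exact h.choose_spec
    constructor
    · rintro rfl
      exact h1
    · intro h2
      exact huniq x y _ _ h1 h2
  have hphi : ∀ i, ∃ φ : Fin 50 ≃ Fin 50, ∀ x y, ((G i).Adj x y ↔ adjB (φ x) (φ y) = true) := by
    intro i
    obtain ⟨e⟩ := hG.iso i
    let d : Fin 50 ≃ Bool × ZMod 5 × ZMod 5 := Equiv.ofBijective _ dec_bij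
    refine ⟨e.symm.toEquiv.trans d.symm, fun x y => ?_⟩
    rw [← adj_dec]
    have h1 : ∀ x, dec ((e.symm.toEquiv.trans d.symm) x : Fin 50) = e.symm x :=
      fun x => d.apply_symm_apply _
    rw [h1, h1]
    exact e.symm.map_rel_iff.symm
  have hmem : ∀ i x y, (y ≠ x ∧ c x y = i) ↔ (G i).Adj x y := by
    intro i x y
    constructor
    · rintro ⟨h1, h2⟩
      exact (hc x y h1.symm i).1 h2
    · intro h1
      exact ⟨h1.ne', (hc x y h1.ne i).2 h1⟩
  refine ⟨c, ⟨by simp, ?_, ?_, ?_, ?_⟩, hc, ?_⟩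
  · intro x y
    by_cases hxy : x = y
    · rw [hxy]
    · exact (hc x y hxy (c y x)).2 ((hc y x (Ne.symm hxy) (c y x)).1 rfl).symm
  · intro i x
    obtain ⟨φ, hφ⟩ := hphi i
    refine Eq.trans ?_ (adjB_deg (φ x))
    apply Finset.card_equiv φ
    intro y
    rw [Finset.mem_filter, Finset.mem_filter]
    simp only [Finset.mem_univ, true_and]
    rw [hmem, hφ]
  · intro x y z hxy hyz hxz h1 h2
    obtain ⟨φ, hφ⟩ := hphi (c x y)
    have a1 : adjB (φ x) (φ y) = true := (hφ x y).1 ((hc x y hxy _).1 rfl)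
    have a2 : adjB (φ y) (φ z) = true := (hφ y z).1 ((hc y z hyz _).1 h1.symm)
    have a3 : adjB (φ x) (φ z) = true := (hφ x z).1 ((hc x z hxz _).1 h2.symm)
    rw [adjB_tri _ _ a1 _ a2] at a3
    exact absurd a3 (by simp)
  · intro i x y hxy hi
    obtain ⟨φ, hφ⟩ := hphi i
    have a1 : adjB (φ x) (φ y) = false := by
      rw [← Bool.not_eq_true]
      intro h
      exact hi ((hc x y hxy i).2 ((hφ x y).2 h))
    have a2 := adjB_com (φ x) (φ y) (fun h => hxy (φ.injective h)) a1
    rw [Finset.card_eq_one] at a2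
    obtain ⟨a, ha⟩ := a2
    have key : ∀ z, (z ≠ x ∧ z ≠ y ∧ c x z = i ∧ c y z = i) ↔ φ z = a := by
      intro z
      have h1 : φ z = a ↔ φ z ∈ (Finset.univ.filter fun z : Fin 50 =>
          adjB (φ x) z = true ∧ adjB (φ y) z = true) := by
        rw [ha, Finset.mem_singleton]
      rw [h1, Finset.mem_filter]
      simp only [Finset.mem_univ, true_and]
      rw [← hφ, ← hφ, ← hmem, ← hmem]
      tauto
    refine ⟨φ.symm a, (key _).2 (φ.apply_symm_apply a), ?_⟩
    intro z hz
    have h2 : φ z = a := (key z).1 hz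
    rw [← h2, φ.symm_apply_apply]
  · intro i
    obtain ⟨φ, hφ⟩ := hphi i
    exact ⟨φ, fun x y hxy => (hc x y hxy i).trans (hφ x y)⟩

end Pool.Agent.Work.MP_37fea8_co
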