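import Mathlib
import Pool.Agent.Work.MP_37fea8_co.AU.Card
import Pool.Agent.Work.MP_37fea8_co.AU.OfDec

/-!
# AU/Main (S)

The theorem.
-/

set_option autoImplicit false

namespace Pool.Agent.Work.MP_37fea8_co

/-- The automorphism group of a decomposition of `K_50` into seven copies of the Hoffman-Singleton
graph has order `1`, `5` or `7`. -/
theorem main {G : Fin 7 → SimpleGraph (Fin 50)} (hG : IsDec G) :
    Nat.card (AutD G) = 1 ∨ Nat.card (AutD G) = 5 ∨ Nat.card (AutD G) = 7 := by
  obtain ⟨c, hc, h1, h2⟩ := of_dec hG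
  rw [gam_card hc h1]
  exact card_gam hc (h2 0)

end Pool.Agent.Work.MP_37fea8_co
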